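import Pool.Agent.Lib.MP_859dd5_ag.EQ.Twin1
import Pool.Agent.Lib.MP_859dd5_ag.EQ.Base
import Pool.Agent.Lib.MP_859dd5_ag.Mg.G067

/-!
# Unramified classes of a power of a supersingular curve
-/

namespace UnrA

universe u v w z

open Polynomial WeierstrassCurve
open scoped Classical
open UnrH3 (cl subset_cl adj le_adj subset_adj adj_le IndFam IndSet Pt FF ptX ptY ptMap Gen gpt
  base liftPt nu GoodW)
open UnrH3.Ell (EllW OnW Fam crv)

/-- A sum over the subsets in which only the subsets with at most one element matter. -/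
private lemma A1_sum_small {n : ℕ} {A : Type*} [AddCommMonoid A] (f : Finset (Fin n) → A)
    (hf : ∀ I : Finset (Fin n), (∃ i ∈ I, ∃ l ∈ I, i ≠ l) → f I = 0) :
    ∑ I : Finset (Fin n), f I = f ∅ + ∑ i : Fin n, f {i} := by
  have h1 : ∑ I ∈ insert ∅ ((Finset.univ : Finset (Fin n)).image fun i => ({i} : Finset (Fin n))),
      f I = ∑ I : Finset (Fin n), f I := by
    refine Finset.sum_subset (Finset.subset_univ _) fun I _ hI => ?_
    apply hf
    rw [Finset.mem_insert, not_or] at hI
    obtain ⟨h0, h1⟩ := hI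
    obtain ⟨i, hi⟩ := Finset.nonempty_iff_ne_empty.mpr h0
    by_contra hc
    apply h1
    rw [Finset.mem_image]
    refine ⟨i, Finset.mem_univ i, ?_⟩
    ext l
    rw [Finset.mem_singleton]
    constructor
    · rintro rfl; exact hi
    · intro hl
      by_contra hne
      exact hc ⟨i, hi, l, hl, fun h => hne h.symm⟩
  rw [← h1, Finset.sum_insert, Finset.sum_image]
  · intro i _ l _ h
    exact Finset.singleton_injective h
  · intro h
    rw [Finset.mem_image] at h
    obtain ⟨i, -, hi⟩ := h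
    exact Finset.singleton_ne_empty i hi

section

variable {κ k L : Type u} [Field κ] [Field k] [Field L] [Algebra κ k] [Algebra κ L]
  [Algebra k L] [IsScalarTower κ k L] {n : ℕ} {E : WeierstrassCurve κ} [hE : EllW E]
  {x y : Fin n → L}

/-- The family attached to the product. -/
private lemma A1_fam (h : IsProd (fun _ : Fin 1 => E) k (fun _ : Fin n => 0) x y) :
    Fam (algebraMap κ L) (algebraMap k L).fieldRange (fun _ => E.a₂) (fun _ => E.a₄)
      (fun _ => E.a₆) x y where
  two := hE.two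
  disc _ := hE.disc
  jC z := ⟨algebraMap κ k z, (IsScalarTower.algebraMap_apply κ k L z).symm⟩
  ind := UnrH3.indFam_of_algInd h.ind
  hY i := UnrH3.Ell.eq_of_ns (h.point i)

omit [Algebra κ k] [IsScalarTower κ k L] hE in
/-- The whole field. -/
private lemma A1_top (h : IsProd (fun _ : Fin 1 => E) k (fun _ : Fin n => 0) x y) (z : L) :
    z ∈ adj (algebraMap k L).fieldRange (Set.range x ∪ Set.range y) := by
  have h1 := UnrH3.fieldRange_eq_adj (RingHom.id L) (k := k) h.gen
  rw [RingHom.id_comp] at h1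
  have h2 : (RingHom.id L) '' (Set.range x ∪ Set.range y) = Set.range x ∪ Set.range y := by
    simp
  rw [h2] at h1
  rw [← h1]
  exact ⟨z, rfl⟩

private lemma A1_gen (h : IsProd (fun _ : Fin 1 => E) k (fun _ : Fin n => 0) x y) (i : Fin n) :
    Gen (IsScalarTower.toAlgHom κ k L) (pt E (x i) (y i)) := by
  rw [pt_some (h.point i)]
  intro hc
  have hind := (A1_fam h).ind
  apply hind i
  change x i ∈ cl _ at hc
  refine UnrH3.cl_mono ?_ hc
  rintro _ ⟨z, rfl⟩
  exact Or.inl ⟨z, rfl⟩

/-- The field generated by one point is the function field of the curve. -/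
private lemma A1_iso (h : IsProd (fun _ : Fin 1 => E) k (fun _ : Fin n => 0) x y) (i : Fin n) :
    ∃ (f : FF E k →+* offJ (algebraMap k L).fieldRange x y ({i}ᶜ : Finset (Fin n)))
      (g : offJ (algebraMap k L).fieldRange x y ({i}ᶜ : Finset (Fin n)) →+* FF E k),
      g.comp f = RingHom.id _ ∧
      (∀ z, (f z : L) = liftPt (IsScalarTower.toAlgHom κ k L) (pt E (x i) (y i)) (A1_gen h i) z) ∧
      (∀ z, liftPt (IsScalarTower.toAlgHom κ k L) (pt E (x i) (y i)) (A1_gen h i) (g z) = z) := by
  set φ := liftPt (IsScalarTower.toAlgHom κ k L) (pt E (x i) (y i)) (A1_gen h i) with hφ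
  have fb : ∀ z : k, φ (base E k z) = algebraMap k L z := fun z =>
    congrArg (fun g : k →ₐ[κ] L => g z)
      (UnrH3.liftPt_base (IsScalarTower.toAlgHom κ k L) (pt E (x i) (y i)) (A1_gen h i))
  have fx : φ (UnrH3.gx E k) = x i := by
    rw [hφ, UnrH3.liftPt_gx, pt_some (h.point i)]
    rfl
  have fy : φ (UnrH3.gy E k) = y i := by
    rw [hφ, UnrH3.liftPt_gy, pt_some (h.point i)]
    rfl
  have hi : i ∉ ({i}ᶜ : Finset (Fin n)) := by simp
  have hfM : ∀ z, φ z ∈ offJ (algebraMap k L).fieldRange x y ({i}ᶜ : Finset (Fin n)) := by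
    intro z
    apply UnrH3.FF_range_le φ
    · intro z'
      rw [fb]
      exact le_offJ ⟨z', rfl⟩
    · rw [fx]
      exact subset_adj _ _ (Or.inl ⟨i, hi, rfl⟩)
    · rw [fy]
      exact subset_adj _ _ (Or.inr ⟨i, hi, rfl⟩)
  obtain ⟨g, hg⟩ : ∃ g : offJ (algebraMap k L).fieldRange x y ({i}ᶜ : Finset (Fin n)) →+* FF E k,
      (φ : FF E k →+* L).comp g =
        (offJ (algebraMap k L).fieldRange x y ({i}ᶜ : Finset (Fin n))).subtype := by
    apply UnrH3.exists_factor
    intro z
    have h3 : offJ (algebraMap k L).fieldRange x y ({i}ᶜ : Finset (Fin n)) ≤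
        (φ : FF E k →+* L).fieldRange := by
      apply adj_le
      · rintro _ ⟨z, rfl⟩
        exact ⟨_, fb z⟩
      · rintro z (⟨l, hl, rfl⟩ | ⟨l, hl, rfl⟩)
        · have hli : l = i := by simpa using hl
          rw [hli]
          exact ⟨_, fx⟩
        · have hli : l = i := by simpa using hl
          rw [hli]
          exact ⟨_, fy⟩
    exact h3 z.2
  have hfe : ∀ z, φ (g z) = z := fun z =>
    congrArg (fun q : offJ (algebraMap k L).fieldRange x y ({i}ᶜ : Finset (Fin n)) →+* L => q z) hg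
  refine ⟨(φ : FF E k →+* L).codRestrict _ hfM, g, ?_, fun z => rfl, hfe⟩
  ext1 z
  apply RingHom.injective (φ : FF E k →+* L)
  exact hfe _

/-- The part of parity `{i}`. -/
private lemma A1_single (m : UFun.{u, z})
    (h : IsProd (fun _ : Fin 1 => E) k (fun _ : Fin n => 0) x y) (i : Fin n) {M : Subfield L}
    (hM : M = adj (algebraMap k L).fieldRange (Set.range x ∪ Set.range y)) {γ : KM m M}
    (hu : Unr γ) (ho : Par (algebraMap k L).fieldRange x y {i} γ) :
    ∃ β : KM m (FF E k), Unr β ∧ OddCl β ∧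
      ev (IsScalarTower.toAlgHom κ k L) (pt E (x i) (y i)) β =
        (2 ^ n * 2 ^ ((n + 2) * n)) • KM.map m M.subtype γ := by
  have F := A1_fam h
  set J : Finset (Fin n) := {i}ᶜ with hJ
  have hIJ : Disjoint ({i} : Finset (Fin n)) J := by
    rw [hJ]; exact disjoint_compl_right
  have hJn : J.card ≤ n := by
    have := Finset.card_le_univ J
    simpa using this
  obtain ⟨δ, hδu, hδ⟩ := even_descend F hM hIJ (offJ_le hM) hu ho
  obtain ⟨f, g, hgf, hf, hg⟩ := A1_iso h i
  set φ := liftPt (IsScalarTower.toAlgHom κ k L) (pt E (x i) (y i)) (A1_gen h i) with hφ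
  -- restriction to the whole field
  have hsub : M.subtype.comp (Subfield.inclusion (offJ_le hM)) =
      (offJ (algebraMap k L).fieldRange x y J).subtype := by
    ext z; rfl
  have htop : ∀ z : L, z ∈ M := fun z => by rw [hM]; exact A1_top h z
  have hinj : ∀ α : KM m M, KM.map m M.subtype α = 0 → α = 0 := by
    intro α hα
    have h1 : ((RingHom.id L).codRestrict M htop).comp M.subtype = RingHom.id M := by
      ext z; rfl
    have h2 := congrArg (KM.map m ((RingHom.id L).codRestrict M htop)) hα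
    rw [KM.map_map, h1, KM.map_id, map_zero] at h2
    exact h2
  have hval : KM.map m (φ : FF E k →+* L) (KM.map m g δ) =
      KM.map m M.subtype (2 ^ ((n + 2) * J.card) • γ) := by
    rw [← hδ, KM.map_map, up, KM.map_map, hsub]
    congr 2
    ext z
    exact hg z
  -- oddness up to torsion
  obtain ⟨G, G1, G2, G3⟩ := F.exists_flip hM i
  have hG : KM.map m G γ = -γ := by
    rw [ho i G ⟨G1, G2, G3⟩, if_pos (Finset.mem_singleton_self i)]
  have hgen := A1_gen h i
  have hneg : (UnrH3.liftPt (IsScalarTower.toAlgHom κ k L) (-pt E (x i) (y i)) hgen.neg :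
      FF E k →+* L).comp g = (M.subtype.comp G).comp (Subfield.inclusion (offJ_le hM)) := by
    ext z
    refine UnrH3.hom_eq_of_gen ((UnrH3.liftPt (IsScalarTower.toAlgHom κ k L)
      (-pt E (x i) (y i)) hgen.neg : FF E k →+* L).comp g)
      ((M.subtype.comp G).comp (Subfield.inclusion (offJ_le hM))) (F := (algebraMap k L).fieldRange)
      (T := x '' {l | l ∉ J} ∪ y '' {l | l ∉ J}) le_offJ (subset_adj _ _) ?_ ?_ z z.2
    · rintro _ ⟨z, rfl⟩
      have e1 : g ⟨algebraMap k L z, le_offJ ⟨z, rfl⟩⟩ = base E k z := by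
        apply RingHom.injective (φ : FF E k →+* L)
        have h1 : φ (g ⟨algebraMap k L z, le_offJ ⟨z, rfl⟩⟩) = algebraMap k L z := hg _
        have h2 : φ (base E k z) = algebraMap k L z :=
          congrArg (fun g : k →ₐ[κ] L => g z) (UnrH3.liftPt_base _ _ (A1_gen h i))
        exact h1.trans h2.symm
      change UnrH3.liftPt _ _ hgen.neg (g ⟨algebraMap k L z, le_offJ ⟨z, rfl⟩⟩) = _
      rw [e1]
      have h3 : UnrH3.liftPt (IsScalarTower.toAlgHom κ k L) (-pt E (x i) (y i)) hgen.neg
          (base E k z) = algebraMap k L z :=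
        congrArg (fun g : k →ₐ[κ] L => g z) (UnrH3.liftPt_base _ _ hgen.neg)
      rw [h3]
      exact (congrArg Subtype.val (G1 (Subfield.inclusion (offJ_le hM)
        ⟨algebraMap k L z, le_offJ ⟨z, rfl⟩⟩) ⟨z, rfl⟩)).symm
    · rintro z (⟨l, hl, rfl⟩ | ⟨l, hl, rfl⟩)
      · have hli : l = i := by simpa [hJ] using hl
        subst hli
        have hz : x l ∈ offJ (algebraMap k L).fieldRange x y J :=
          subset_adj _ _ (Or.inl ⟨l, hl, rfl⟩)
        have e1 : g ⟨x l, hz⟩ = UnrH3.gx E k := by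
          apply RingHom.injective (φ : FF E k →+* L)
          have h1 : φ (g ⟨x l, hz⟩) = x l := hg _
          have h2 : φ (UnrH3.gx E k) = x l := by
            rw [hφ, UnrH3.liftPt_gx, pt_some (h.point l)]
            rfl
          exact h1.trans h2.symm
        change UnrH3.liftPt _ _ hgen.neg (g ⟨x l, hz⟩) = _
        rw [e1, UnrH3.liftPt_gx, UnrH3.ptX_neg, pt_some (h.point l)]
        exact (congrArg Subtype.val (G2 l (Subfield.inclusion (offJ_le hM) ⟨x l, hz⟩) rfl)).symm
      · have hli : l = i := by simpa [hJ] using hl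
        subst hli
        have hz : y l ∈ offJ (algebraMap k L).fieldRange x y J :=
          subset_adj _ _ (Or.inr ⟨l, hl, rfl⟩)
        have e1 : g ⟨y l, hz⟩ = UnrH3.gy E k := by
          apply RingHom.injective (φ : FF E k →+* L)
          have h1 : φ (g ⟨y l, hz⟩) = y l := hg _
          have h2 : φ (UnrH3.gy E k) = y l := by
            rw [hφ, UnrH3.liftPt_gy, pt_some (h.point l)]
            rfl
          exact h1.trans h2.symm
        change UnrH3.liftPt _ _ hgen.neg (g ⟨y l, hz⟩) = _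
        rw [e1, UnrH3.liftPt_gy, UnrH3.Ell.ptY_neg, pt_some (h.point l)]
        have h4 := congrArg Subtype.val (G3 l (Subfield.inclusion (offJ_le hM) ⟨y l, hz⟩) rfl)
        rw [if_pos rfl] at h4
        exact h4.symm
  have hodd0 : KM.map m (φ : FF E k →+* L) (KM.map m (nu E k : FF E k →+* FF E k)
      (KM.map m g δ) + KM.map m g δ) = 0 := by
    have h1 : KM.map m (φ : FF E k →+* L) (KM.map m (nu E k : FF E k →+* FF E k)
        (KM.map m g δ)) = ev (IsScalarTower.toAlgHom κ k L) (pt E (x i) (y i))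
          (KM.map m (nu E k : FF E k →+* FF E k) (KM.map m g δ)) := (ev_of_gen hgen _).symm
    rw [map_add, h1, ← ev_neg_pt, ev_of_gen hgen.neg, KM.map_map, hneg, ← KM.map_map,
      ← KM.map_map, hval]
    have h2 : KM.map m (Subfield.inclusion (offJ_le hM)) δ = 2 ^ ((n + 2) * J.card) • γ := hδ
    rw [h2, map_nsmul, hG, map_nsmul, map_nsmul, map_neg, smul_neg, neg_add_cancel]
  have htor : 2 ^ J.card • (KM.map m (nu E k : FF E k →+* FF E k) (KM.map m g δ) +
      KM.map m g δ) = 0 := by
    have h2 : (M.subtype.comp (Subfield.inclusion (offJ_le hM))).comp f = (φ : FF E k →+* L) := by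
      ext z
      exact hf z
    have h3 : up m (offJ_le hM) (KM.map m f (KM.map m (nu E k : FF E k →+* FF E k)
        (KM.map m g δ) + KM.map m g δ)) = 0 := by
      apply hinj
      rw [up, KM.map_map, KM.map_map, h2]
      exact hodd0
    have h4 := offJ_ker F hM (offJ_le hM) h3
    have h5 := congrArg (KM.map m g) h4
    rw [map_nsmul, KM.map_map, hgf, KM.map_id, map_zero] at h5
    exact h5
  have hexp : 2 ^ n * 2 ^ ((n + 2) * n) = (2 ^ ((n + 2) * (n - J.card)) * 2 ^ (n - J.card)) *
      2 ^ J.card * 2 ^ ((n + 2) * J.card) := by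
    have e1 : (2 : ℕ) ^ n = 2 ^ (n - J.card) * 2 ^ J.card := by
      rw [← pow_add, Nat.sub_add_cancel hJn]
    have e2 : (2 : ℕ) ^ ((n + 2) * n) = 2 ^ ((n + 2) * (n - J.card)) *
        2 ^ ((n + 2) * J.card) := by
      rw [← pow_add, ← Nat.mul_add, Nat.sub_add_cancel hJn]
    rw [e1, e2]
    ring
  refine ⟨((2 ^ ((n + 2) * (n - J.card)) * 2 ^ (n - J.card)) * 2 ^ J.card) • KM.map m g δ,
    (hδu.map g).nsmul _, ?_, ?_⟩
  · unfold OddCl
    rw [map_nsmul, eq_neg_iff_add_eq_zero, ← smul_add, mul_smul, htor, smul_zero]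
  · rw [ev_of_gen hgen, map_nsmul, hexp, mul_smul _ (2 ^ ((n + 2) * J.card))]
    congr 1
    rw [← map_nsmul]
    exact hval

/-- The even part. -/
private lemma A1_even (m : UFun.{u, z})
    (h : IsProd (fun _ : Fin 1 => E) k (fun _ : Fin n => 0) x y) {M : Subfield L}
    (hM : M = adj (algebraMap k L).fieldRange (Set.range x ∪ Set.range y)) {γ : KM m M}
    (hu : Unr γ) (ho : Par (algebraMap k L).fieldRange x y ∅ γ) :
    ∃ c : KM m k, Unr c ∧ KM.map m (algebraMap k L) c =
        (2 ^ n * 2 ^ ((n + 2) * n)) • KM.map m M.subtype γ := by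
  have F := A1_fam h
  have hle := offJ_le (C := (algebraMap k L).fieldRange) (X := x) (Y := y)
    (J := (Finset.univ : Finset (Fin n))) hM
  obtain ⟨δ, hδu, hδ⟩ := even_descend F hM (J := Finset.univ) (Finset.disjoint_empty_left _) hle
    hu ho
  have hcard : (Finset.univ : Finset (Fin n)).card = n := by simp
  rw [hcard] at hδ
  obtain ⟨g, hg⟩ : ∃ g : offJ (algebraMap k L).fieldRange x y (Finset.univ : Finset (Fin n)) →+* k,
      (algebraMap k L).comp g =
        (offJ (algebraMap k L).fieldRange x y (Finset.univ : Finset (Fin n))).subtype := by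
    apply UnrH3.exists_factor
    rintro ⟨z, hz⟩
    rw [offJ_univ] at hz
    exact hz
  have hsub : M.subtype.comp (Subfield.inclusion hle) =
      (offJ (algebraMap k L).fieldRange x y (Finset.univ : Finset (Fin n))).subtype := by
    ext z; rfl
  refine ⟨2 ^ n • KM.map m g δ, (hδu.map g).nsmul _, ?_⟩
  rw [map_nsmul, KM.map_map, hg, ← hsub, ← KM.map_map]
  have h2 : KM.map m (Subfield.inclusion hle) δ = 2 ^ ((n + 2) * n) • γ := hδ
  rw [h2, map_nsmul, mul_smul]

end

/-- Unramified classes of the function field of `E ^ n` are sums of a constant class and of odd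
classes of the factors, up to a constant factor. -/
theorem decomp (n N : ℕ) : ∃ D : ℕ, 0 < D ∧ ∀ {κ k L : Type u} [Field κ] [Field k] [Field L]
    [Algebra κ k] [Algebra κ L] [Algebra k L] [IsScalarTower κ k L] {E : WeierstrassCurve κ}
    [EllW E] {x y : Fin n → L} (_ : IsProd (fun _ : Fin 1 => E) k (fun _ : Fin n => 0) x y)
    (_ : IsNoncomm.{u} E N) (m : UFun.{u, z}) (ξ : KM m L) (_ : Unr ξ),
    ∃ (c : KM m k) (γ : Fin n → KM m (FF E k)), Unr c ∧ (∀ i, Unr (γ i)) ∧ (∀ i, OddCl (γ i)) ∧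
      D • ξ = KM.map m (algebraMap k L) c +
        ∑ i, ev (IsScalarTower.toAlgHom κ k L) (pt E (x i) (y i)) (γ i) := by
  refine ⟨(1024 * max N 1) * (2 ^ n * 2 ^ ((n + 2) * n)) * 2 ^ n, by positivity, ?_⟩
  intro κ k L _ _ _ _ _ _ _ E hE x y h hN m ξ hξ
  have hN1 : N ∣ max N 1 := by
    rcases Nat.eq_zero_or_pos N with h0 | h0
    · exact absurd h0 hN.1.ne'
    · rw [max_eq_left h0]
  obtain ⟨M, hM⟩ : ∃ M, M = adj (algebraMap k L).fieldRange (Set.range x ∪ Set.range y) :=
    ⟨_, rfl⟩
  have F := A1_fam h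
  have htop : ∀ z : L, z ∈ M := fun z => by rw [hM]; exact A1_top h z
  choose G hG using fun J => exists_flips F hM J
  set ζ : KM m M := KM.map m ((RingHom.id L).codRestrict M htop) ξ with hζ
  have hζu : Unr ζ := hξ.map _
  have hζξ : KM.map m M.subtype ζ = ξ := by
    have h1 : M.subtype.comp ((RingHom.id L).codRestrict M htop) = RingHom.id L := by
      ext z; rfl
    rw [hζ, KM.map_map, h1, KM.map_id]
    rfl
  have hpart := fun I => part_par (m := m) (z := ζ) (I := I) hG hM
  have hpu : ∀ I, Unr (part G I ζ) := fun I => part_unr hζu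
  obtain ⟨c, hc, hcv⟩ := A1_even m h hM (hpu ∅) (hpart ∅)
  choose β hβ hodd hβv using fun i => A1_single m h i hM (hpu {i}) (hpart {i})
  refine ⟨(1024 * max N 1) • c, fun i => (1024 * max N 1) • β i, hc.nsmul _,
    fun i => (hβ i).nsmul _, ?_, ?_⟩
  · intro i
    have h1 := hodd i
    unfold OddCl at h1 ⊢
    rw [map_nsmul, h1, smul_neg]
  · have hsum := sum_part (m := m) (z := ζ) hG hM
    have h1 : (1024 * max N 1 * (2 ^ n * 2 ^ ((n + 2) * n)) * 2 ^ n) • ξ =
        ∑ I : Finset (Fin n), (1024 * max N 1 * (2 ^ n * 2 ^ ((n + 2) * n))) •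
          KM.map m M.subtype (part G I ζ) := by
      rw [← Finset.smul_sum, ← map_sum, hsum, map_nsmul, hζξ, smul_smul]
    rw [h1, A1_sum_small]
    · rw [mul_smul, ← hcv, map_nsmul]
      congr 1
      refine Finset.sum_congr rfl fun i _ => ?_
      rw [mul_smul, ← hβv i, ev_of_gen (A1_gen h i), ev_of_gen (A1_gen h i), map_nsmul]
    · rintro I ⟨i, hi, l, hl, hil⟩
      have h2 : (1024 * N) • part G I ζ = 0 :=
        fam_noncomm F hM hil hE.a1 hE.a3 rfl rfl rfl rfl rfl rfl hN (hpu I) (hpart I) hi hl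
      obtain ⟨r, hr⟩ := hN1
      rw [← map_nsmul]
      have h3 : 1024 * max N 1 * (2 ^ n * 2 ^ ((n + 2) * n)) =
          (r * (2 ^ n * 2 ^ ((n + 2) * n))) * (1024 * N) := by
        rw [hr]; ring
      rw [h3, mul_smul, h2, smul_zero, map_zero]

end UnrA
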