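import Pool.Agent.Lib.MP_859dd5_ag.Mg.G066

/-!
# Sums of generic points and translations by constant points
-/

namespace UnrA

universe u v w z

open Polynomial WeierstrassCurve
open scoped Classical
open UnrH3 (IsQuad GoodW Pt FF F2 i2 P2 Q2 ptX ptY ptMap Gen Ind InCl liftPt base gpt NatEnd
  gen_gpt range_in_cl insert_in_cl subset_cl cl_le cl_mono cl InCl_self InCl_exchange
  InCl_add_iff_right Gen_map_iff cl_range_comp_le liftPt_gpt frobEnd ptMap_comp nu liftPt_base)

variable {m : UFun.{u, z}} {S : Type v} [Field S] {W : WeierstrassCurve S} [hG : GoodW W]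
  {K Ω : Type u} [Field K] [Algebra S K] [Field Ω] [Algebra S Ω]

/-- A point over `Ω` plus the generic point over `Ω` is generic. -/
lemma gen_shift (i : K →ₐ[S] Ω) (C : Pt W Ω) :
    Gen ((base W Ω).comp i) (ptMap (base W Ω) C + gpt W Ω) := by
  have hQg : Gen (base W Ω) (gpt W Ω) := gen_gpt
  have hle : cl (Set.range ((base W Ω).comp i)) ≤ cl (Set.range (base W Ω)) :=
    cl_range_comp_le i (base W Ω)
  have hpt : InCl (Set.range (base W Ω)) (ptMap (base W Ω) C) := by
    change ptX (ptMap (base W Ω) C) ∈ cl (Set.range (base W Ω))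
    rw [UnrH3.ptX_map]
    exact subset_cl _ ⟨_, rfl⟩
  have hS : ∀ s : S, algebraMap S (FF W Ω) s ∈ cl (Set.range (base W Ω)) :=
    range_in_cl (base W Ω)
  intro h
  have h1 : InCl (Set.range (base W Ω)) (ptMap (base W Ω) C + gpt W Ω) := h.mono hle
  exact hQg ((InCl_add_iff_right hS hpt).mp h1)

/-- Telescoping of the values of an odd class. -/
theorem OddCl.sum_shift {β : KM m (FF W K)} (hβ : Unr β) (hodd : OddCl β) (i : K →ₐ[S] Ω)
    {ι : Type*} (s : Finset ι) (P : ι → Pt W Ω) (hP : ∀ t ∈ s, Gen i (P t)) :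
    ev ((base W Ω).comp i) (ptMap (base W Ω) (∑ t ∈ s, P t) + gpt W Ω) β -
      (ev ((base W Ω).comp i) (gpt W Ω) β +
        KM.map m (base W Ω : Ω →+* FF W Ω) (∑ t ∈ s, ev i (P t) β)) ∈ tor 1024 _ := by
  induction s using Finset.induction_on with
  | empty =>
    rw [Finset.sum_empty, Finset.sum_empty, map_zero, map_zero, zero_add, add_zero, sub_self]
    exact zero_mem _
  | insert a s ha ih =>
    have ih' := ih fun t ht => hP t (Finset.mem_insert_of_mem ht)
    have hA : Gen ((base W Ω).comp i) (ptMap (base W Ω) (P a)) :=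
      (Gen_map_iff i (base W Ω) _).mpr (hP a (Finset.mem_insert_self _ _))
    have hB := gen_shift i (∑ t ∈ s, P t)
    have hAB : ptMap (base W Ω) (∑ t ∈ insert a s, P t) + gpt W Ω =
        ptMap (base W Ω) (P a) + (ptMap (base W Ω) (∑ t ∈ s, P t) + gpt W Ω) := by
      rw [Finset.sum_insert ha, map_add]; abel
    have hAB' : Gen ((base W Ω).comp i) (ptMap (base W Ω) (P a) +
        (ptMap (base W Ω) (∑ t ∈ s, P t) + gpt W Ω)) := by
      rw [← hAB]; exact gen_shift i _
    have k1 := hodd.add' hβ hA hB hAB'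
    rw [hAB, Finset.sum_insert ha, map_add]
    rw [ev_map] at k1
    have k2 := add_mem k1 ih'
    convert k2 using 1
    abel

/-- The sum of the values at generic points with generic sum. -/
theorem OddCl.sum_gen {β : KM m (FF W K)} (hβ : Unr β) (hodd : OddCl β) {i : K →ₐ[S] Ω}
    {ι : Type*} (s : Finset ι) (P : ι → Pt W Ω) (hP : ∀ t ∈ s, Gen i (P t))
    (hT : Gen i (∑ t ∈ s, P t)) :
    ∑ t ∈ s, ev i (P t) β - ev i (∑ t ∈ s, P t) β ∈ tor 2048 _ := by
  have k1 := hodd.sum_shift hβ i s P hP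
  have hA : Gen ((base W Ω).comp i) (ptMap (base W Ω) (∑ t ∈ s, P t)) :=
    (Gen_map_iff i (base W Ω) _).mpr hT
  have hB : Gen ((base W Ω).comp i) (gpt W Ω) := by
    have := gen_shift i (0 : Pt W Ω)
    rwa [map_zero, zero_add] at this
  have k2 := hodd.add' hβ hA hB (gen_shift i _)
  rw [ev_map] at k2
  apply base_tor (W := W) (N := 1024)
  rw [map_sub]
  have k3 := add_mem (neg_mem k1) k2
  convert k3 using 1
  abel

/-- Translation of an odd class by a constant point. -/
theorem OddCl.translate {β : KM m (FF W K)} (hβ : Unr β) (hodd : OddCl β) (t : Pt W K) :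
    ∃ c : KM m K, Unr c ∧ KM.map m (base W K : K →+* FF W K) c =
      8192 • (ev (base W K) (ptMap (base W K) t + gpt W K) β - β) := by
  set Ω := FF W K
  set i := base W K
  set b := base W Ω
  have key : ∀ A : Pt W Ω, Gen i A →
      KM.map m (b : Ω →+* FF W Ω) (ev i (ptMap i t + A) β - ev i A β) -
        (ev (b.comp i) (ptMap b (ptMap i t) + gpt W Ω) β - ev (b.comp i) (gpt W Ω) β) ∈
          tor 1024 _ := by
    intro A hA
    have hAt : Gen i (ptMap i t + A) := by
      intro h
      apply hA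
      have hpt : InCl (Set.range i) (ptMap i t) := by
        change ptX (ptMap i t) ∈ cl (Set.range i)
        rw [UnrH3.ptX_map]
        exact subset_cl _ ⟨_, rfl⟩
      exact (InCl_add_iff_right (range_in_cl i) hpt).mp h
    have hQ : Gen (b.comp i) (gpt W Ω) := by
      have := gen_shift (W := W) i (0 : Pt W Ω)
      rwa [map_zero, zero_add] at this
    have k1 := hodd.add' hβ ((Gen_map_iff i b _).mpr hAt) hQ (gen_shift i _)
    have e1 : ptMap b (ptMap i t + A) + gpt W Ω =
        ptMap b A + (ptMap b (ptMap i t) + gpt W Ω) := by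
      rw [map_add]; abel
    have k2 := hodd.add' hβ ((Gen_map_iff i b _).mpr hA) (gen_shift i (ptMap i t))
      (by rw [← e1]; exact gen_shift i _)
    rw [e1] at k1
    rw [ev_map] at k1 k2
    have k3 := add_mem (neg_mem k1) k2
    convert k3 using 1
    rw [map_sub]
    abel
  have h1 := key (gpt W K) gen_gpt
  have h2 := key (-gpt W K) gen_gpt.neg
  have h3 := add_mem h1 (neg_mem h2)
  have h4 : KM.map m (b : Ω →+* FF W Ω) ((ev i (ptMap i t + gpt W K) β - ev i (gpt W K) β) -
      (ev i (ptMap i t + -gpt W K) β - ev i (-gpt W K) β)) ∈ tor 1024 _ := by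
    convert h3 using 1
    rw [map_sub (KM.map m (b : Ω →+* FF W Ω)) (ev i (ptMap i t + gpt W K) β - ev i (gpt W K) β)]
    abel
  have h5 := base_tor (W := W) h4
  have e2 : ev i (gpt W K) β = β := ev_self β
  have e3 : KM.map m (nu W K : FF W K →+* FF W K) (ev i (ptMap i t + gpt W K) β) =
      ev i (ptMap i t + -gpt W K) β := by
    have h6 : KM.map m (nu W K : FF W K →+* FF W K) (ev i (ptMap i t + gpt W K) β) =
        ev i (-gpt W K) (ev i (ptMap i t + gpt W K) β) := (ev_of_gen gen_gpt.neg _).symm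
    rw [h6, ev_ev gen_gpt.neg, map_add, liftPt_gpt, ← ptMap_comp, liftPt_base]
  have e4 : KM.map m (nu W K : FF W K →+* FF W K) β = ev i (-gpt W K) β :=
    (ev_of_gen gen_gpt.neg _).symm
  set δ := ev i (ptMap i t + gpt W K) β - β with hδ
  have hδu : Unr δ := Unr.ev hβ |>.sub hβ
  have h7 : δ - KM.map m (nu W K : FF W K →+* FF W K) δ ∈ tor 2048 _ := by
    rw [hδ, map_sub, e3, e4]
    rw [e2] at h5
    exact h5
  have h8 : EvenCl (2048 • δ) := by
    unfold EvenCl
    rw [map_nsmul]
    have h9 : 2048 • (δ - KM.map m (nu W K : FF W K →+* FF W K) δ) = 0 := h7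
    rw [smul_sub, sub_eq_zero] at h9
    exact h9.symm
  obtain ⟨c, hc, hcδ⟩ := h8.const (hδu.nsmul _)
  refine ⟨c, hc, ?_⟩
  rw [hcδ, smul_smul]
  norm_num

end UnrA
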