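import Pool.Agent.Lib.MP_859dd5_ag.EQ.Aff1
import Pool.Agent.Lib.MP_859dd5_ag.Mg.G066

/-!
# Points fixed by the automorphisms of a normal extension
-/

namespace UnrA

universe u v w z

open Polynomial WeierstrassCurve
open scoped Classical
open UnrH3 (Pt FF ptX ptY ptMap Gen gpt base liftPt nu GoodW frobEnd gen_gpt liftPt_gpt)
open UnrH3.Ell (EllW)

/-- An element fixed by the automorphisms of a normal extension of degree at most `p ^ r` becomes
rational when raised to the power `p ^ r`. -/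
lemma A3_field {K Ω : Type u} [Field K] [Field Ω] [Algebra K Ω] [FiniteDimensional K Ω]
    [Normal K Ω] {p r : ℕ} [hp : Fact p.Prime] [CharP K p] (hm : Module.finrank K Ω ≤ p ^ r)
    (x : Ω) (hx : ∀ σ : Ω ≃ₐ[K] Ω, σ x = x) : ∃ y : K, algebraMap K Ω y = x ^ p ^ r := by
  have hint : IsIntegral K x := Algebra.IsIntegral.isIntegral x
  have halg : IsAlgebraic K x := hint.isAlgebraic
  have : ExpChar K p := ExpChar.prime hp.out
  have h1 : (minpoly K x).natSepDegree = 1 := by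
    rw [Polynomial.natSepDegree_eq_of_splits (E := Ω) _ (Normal.splits inferInstance x)]
    rw [Finset.card_eq_one]
    refine ⟨x, ?_⟩
    ext y
    rw [Multiset.mem_toFinset, Finset.mem_singleton, mem_aroots]
    constructor
    · rintro ⟨-, h2⟩
      obtain ⟨σ, hσ⟩ := minpoly.exists_algEquiv_of_root' halg h2
      rw [← hσ, hx]
    · rintro rfl
      exact ⟨minpoly.ne_zero hint, minpoly.aeval K y⟩
  obtain ⟨n, y, hy⟩ := (minpoly.natSepDegree_eq_one_iff_eq_X_pow_sub_C p).1 h1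
  have h2 : (minpoly K x).natDegree = p ^ n := by
    rw [hy, natDegree_X_pow_sub_C]
  have h3 : (minpoly K x).natDegree ≤ Module.finrank K Ω := minpoly.natDegree_le x
  have h4 : n ≤ r := by
    rw [h2] at h3
    exact (Nat.pow_le_pow_iff_right hp.out.one_lt).1 (h3.trans hm)
  have h5 : x ^ p ^ n = algebraMap K Ω y := by
    have h6 := minpoly.aeval K x
    rw [hy, map_sub, map_pow, aeval_X, aeval_C, sub_eq_zero] at h6
    exact h6
  refine ⟨y ^ p ^ (r - n), ?_⟩
  rw [map_pow, ← h5, ← pow_mul, ← pow_add, Nat.add_sub_cancel' h4]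

section char

variable {S : Type v} [Field S] {W : WeierstrassCurve S} [hE : EllW W] {p : ℕ}
  [hp : Fact p.Prime] [hS : CharP S p] {s : ℕ}
  (hW : ∀ x ∈ ({W.a₁, W.a₂, W.a₃, W.a₄, W.a₆} : Set S), x ^ p ^ s = x)
  {Ω : Type u} [Field Ω] [Algebra S Ω]

/-- The characteristic equation of the Frobenius at all points. -/
lemma A3_char (hs : 0 < s) (P : Pt W Ω) :
    (frobEnd W p s hW).toFun Ω ((frobEnd W p s hW).toFun Ω P) -
      UnrH3.Ell.tr hW Ω • (frobEnd W p s hW).toFun Ω P + ((p : ℤ) ^ s) • P = 0 := by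
  obtain ⟨-, hchar⟩ := UnrH3.Ell.frob_char (K := Ω) hW hs
  have hgen : Gen (base W Ω) (ptMap (base W Ω) P + gpt W Ω) := by
    intro h
    have hpt : UnrH3.InCl (Set.range (base W Ω)) (ptMap (base W Ω) P) := by
      change ptX (ptMap (base W Ω) P) ∈ UnrH3.cl (Set.range (base W Ω))
      rw [UnrH3.ptX_map]
      exact UnrH3.subset_cl _ ⟨_, rfl⟩
    exact gen_gpt ((UnrH3.InCl_add_iff_right (UnrH3.range_in_cl (base W Ω)) hpt).mp h)
  have e1 : ptMap (liftPt (base W Ω) (ptMap (base W Ω) P + gpt W Ω) hgen) (gpt W Ω) =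
      ptMap (base W Ω) P + gpt W Ω := liftPt_gpt _ _ _
  have h2 := congrArg (ptMap (liftPt (base W Ω) (ptMap (base W Ω) P + gpt W Ω) hgen)) hchar
  rw [map_add, map_sub, map_zsmul, map_zsmul, map_zero, (frobEnd W p s hW).nat,
    (frobEnd W p s hW).nat, e1, map_add, map_add, smul_add, smul_add] at h2
  have h3 : ptMap (base W Ω) ((frobEnd W p s hW).toFun Ω ((frobEnd W p s hW).toFun Ω P) -
      UnrH3.Ell.tr hW Ω • (frobEnd W p s hW).toFun Ω P + ((p : ℤ) ^ s) • P) = 0 := by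
    rw [map_add, map_sub, map_zsmul, map_zsmul, (frobEnd W p s hW).nat, (frobEnd W p s hW).nat]
    have h4 := congrArg₂ (· - ·) h2 hchar
    rw [sub_zero] at h4
    rw [← h4]
    abel
  exact (map_eq_zero_iff _ (Affine.Point.map_injective (base W Ω))).1 h3

end char

/-- A point fixed by the automorphisms becomes rational when multiplied by a power of `q`. -/
theorem trace_point {κ K Ω : Type u} [Field κ] [Finite κ] [Field K] [Field Ω] [Algebra κ K]
    [Algebra κ Ω] [Algebra K Ω] [IsScalarTower κ K Ω] [FiniteDimensional K Ω] [Normal K Ω]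
    {E : WeierstrassCurve κ} [EllW E] {m : ℕ} (hm : Module.finrank K Ω ≤ Nat.card κ ^ m)
    (T : Pt E Ω) (hT : ∀ σ : Ω ≃ₐ[K] Ω, ptMap ((σ : Ω →ₐ[K] Ω).restrictScalars κ) T = T) :
    ∃ T₀ : Pt E K, ptMap (IsScalarTower.toAlgHom κ K Ω) T₀ = Nat.card κ ^ m • T := by
  obtain ⟨p, hpκ⟩ := CharP.exists κ
  have := Fintype.ofFinite κ
  obtain ⟨s, hp', hcard⟩ := FiniteField.card κ p
  have : Fact p.Prime := ⟨hp'⟩
  have hW : ∀ x ∈ ({E.a₁, E.a₂, E.a₃, E.a₄, E.a₆} : Set κ), x ^ p ^ (s : ℕ) = x := fun x _ => by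
    rw [← hcard]; exact FiniteField.pow_card x
  have hN : Nat.card κ = p ^ (s : ℕ) := by rw [Nat.card_eq_fintype_card, hcard]
  have hKp : CharP K p := charP_of_injective_algebraMap (algebraMap κ K).injective p
  obtain ⟨F, hF⟩ : ∃ F : Pt E Ω →+ Pt E Ω, F = (frobEnd E p s hW).toFun Ω := ⟨_, rfl⟩
  obtain ⟨a, ha⟩ : ∃ a : ℤ, a = UnrH3.Ell.tr hW Ω := ⟨_, rfl⟩
  have hR : ∀ P : Pt E Ω, Nat.card κ • P = F (a • P - F P) := by
    intro P
    have h := A3_char hW s.pos P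
    rw [← hF, ← ha] at h
    rw [map_sub, map_zsmul]
    have h1 : ((p : ℤ) ^ (s : ℕ)) • P = Nat.card κ • P := by
      rw [hN, ← natCast_zsmul]
      push_cast
      rfl
    rw [h1] at h
    have h2 : Nat.card κ • P - (a • F P - F (F P)) = 0 := by
      rw [← h]; abel
    exact sub_eq_zero.1 h2
  have hnat : ∀ (σ : Ω ≃ₐ[K] Ω) (P : Pt E Ω),
      ptMap ((σ : Ω →ₐ[K] Ω).restrictScalars κ) (F P) =
        F (ptMap ((σ : Ω →ₐ[K] Ω).restrictScalars κ) P) := fun σ P => by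
    rw [hF]; exact (frobEnd E p s hW).nat _ _ _ _
  have key : ∀ j : ℕ, ∀ P : Pt E Ω,
      (∀ σ : Ω ≃ₐ[K] Ω, ptMap ((σ : Ω →ₐ[K] Ω).restrictScalars κ) P = P) →
      ∃ U : Pt E Ω, (∀ σ : Ω ≃ₐ[K] Ω, ptMap ((σ : Ω →ₐ[K] Ω).restrictScalars κ) U = U) ∧
        Nat.card κ ^ j • P = F^[j] U := by
    intro j
    induction j with
    | zero => intro P hP; exact ⟨P, hP, by rw [pow_zero, one_smul]; rfl⟩
    | succ j ih =>
      intro P hP
      obtain ⟨U, hU, hjU⟩ := ih (a • P - F P) fun σ => by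
        rw [map_sub, map_zsmul, hnat, hP]
      refine ⟨U, hU, ?_⟩
      rw [pow_succ, mul_smul, hR, ← map_nsmul, hjU, Function.iterate_succ_apply']
  obtain ⟨U, hU, hmU⟩ := key m T hT
  have hX : ∀ (j : ℕ) (A : Pt E Ω), ptX (F^[j] A) = ptX A ^ p ^ ((s : ℕ) * j) ∧
      ptY (F^[j] A) = ptY A ^ p ^ ((s : ℕ) * j) := by
    intro j A
    induction j with
    | zero => simp
    | succ j ih =>
      rw [Function.iterate_succ_apply', hF, UnrH3.Ell.fr_ptX hW, UnrH3.Ell.fr_ptY hW, ← hF, ih.1,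
        ih.2, ← pow_mul, ← pow_mul, ← pow_add, mul_add, mul_one]
      exact ⟨rfl, rfl⟩
  have hm' : Module.finrank K Ω ≤ p ^ ((s : ℕ) * m) := by
    rw [pow_mul, ← hN]; exact hm
  obtain ⟨x₀, hx₀⟩ := A3_field hm' (ptX U) fun σ => by
    have h := congrArg ptX (hU σ)
    rw [UnrH3.ptX_map] at h
    exact h
  obtain ⟨y₀, hy₀⟩ := A3_field hm' (ptY U) fun σ => by
    have h := congrArg ptY (hU σ)
    rw [UnrH3.ptY_map] at h
    exact h
  rw [← (hX m U).1] at hx₀
  rw [← (hX m U).2] at hy₀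
  rw [hmU]
  generalize F^[m] U = V at hx₀ hy₀
  rcases V with _ | ⟨x, y, h⟩
  · exact ⟨0, map_zero _⟩
  · change algebraMap K Ω x₀ = x at hx₀
    change algebraMap K Ω y₀ = y at hy₀
    subst hx₀ hy₀
    have h0 : (E⁄K).toAffine.Nonsingular x₀ y₀ :=
      (Affine.baseChange_nonsingular E.toAffine (f := IsScalarTower.toAlgHom κ K Ω)
        (IsScalarTower.toAlgHom κ K Ω).injective x₀ y₀).1 h
    exact ⟨.some x₀ y₀ h0, rfl⟩

end UnrA
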