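import Pool.Agent.Lib.MP_859dd5_ag.EQ.Aff1
import Pool.Agent.Lib.MP_859dd5_ag.EQ.Base

/-!
# Constants of the function field of a power of an elliptic curve
-/

namespace UnrA

universe u v w z

open Polynomial WeierstrassCurve
open scoped Classical
open UnrH3 (cl subset_cl adj Pt FF ptX ptY ptMap Gen gpt base liftPt nu GoodW)
open UnrH3.Ell (EllW OnW Fam crv)

section step

open UnrH3 (le_adj subset_adj adj_le adj_adj adj_mono cl_le cl_mono mem_cl mem_cl_of_isAlg
  transc_sub algebraMap_ratFunc_eq isQuad_adj IsQuad isAlg_mono)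

variable {Λ : Type u} [Field Λ]

private lemma A4_isAlg {A : Subfield Λ} {z : Λ} (hz : z ∈ cl (A : Set Λ)) : IsAlgebraic A z := by
  have h := mem_cl.mp hz
  refine isAlg_mono ?_ h
  rw [Subfield.closure_eq]

/-- A rational function over a field whose square times a polynomial of odd degree is constant
is zero. -/
private lemma A4_deg {F : Type u} [Field F] {r : RatFunc F} {f : F[X]} (hf : f.natDegree = 3)
    {c : F} (h : r ^ 2 * algebraMap F[X] (RatFunc F) f = RatFunc.C c) : r = 0 := by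
  by_contra hr
  have hf0 : f ≠ 0 := by
    rintro rfl
    simp at hf
  have hf1 : algebraMap F[X] (RatFunc F) f ≠ 0 := by
    intro h0
    exact hf0 ((IsFractionRing.injective F[X] (RatFunc F)) (by rw [h0, map_zero]))
  have h1 := congrArg RatFunc.intDegree h
  rw [RatFunc.intDegree_mul (pow_ne_zero 2 hr) hf1, sq, RatFunc.intDegree_mul hr hr,
    RatFunc.intDegree_C, RatFunc.intDegree_polynomial, hf] at h1
  push_cast at h1
  omega

private lemma A4_const {F : Type u} [Field F] {r : RatFunc F} (h : IsAlgebraic F r) :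
    ∃ c, r = RatFunc.C c := by
  by_contra hc
  exact RatFunc.transcendental_of_ne_C r hc h

/-- The field of rational functions. -/
private lemma A4_psi {A : Subfield Λ} {x : Λ} (hx : x ∉ cl (A : Set Λ)) :
    ∃ ψ : RatFunc A →+* Λ, (∀ f : A[X], ψ (algebraMap A[X] (RatFunc A) f) = f.eval₂ A.subtype x) ∧
      (∀ c : A, ψ (RatFunc.C c) = c) ∧
      (∀ r : RatFunc A, ψ r ∈ cl (A : Set Λ) → ∃ c : A, r = RatFunc.C c) ∧
      adj A {x} = ψ.fieldRange := by
  let ψ : RatFunc A →+* Λ := IsFractionRing.lift (A := A[X]) (g := eval₂RingHom A.subtype x)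
    ((injective_iff_map_eq_zero _).mpr (transc_sub hx))
  have hψ : ∀ f : A[X], ψ (algebraMap A[X] (RatFunc A) f) = f.eval₂ A.subtype x := by
    intro f
    exact IsFractionRing.lift_algebraMap _ f
  have hψc : ∀ c : A, ψ (algebraMap A (RatFunc A) c) = c := by
    intro c
    rw [algebraMap_ratFunc_eq, hψ, eval₂_C]; rfl
  have hψC : ∀ c : A, ψ (RatFunc.C c) = c := fun c => by
    rw [← RatFunc.algebraMap_C, hψ, eval₂_C]; rfl
  let φ : RatFunc A →ₐ[A] Λ := { ψ with commutes' := fun c => hψc c }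
  have hcon : ∀ r : RatFunc A, ψ r ∈ cl (A : Set Λ) → ∃ c : A, r = RatFunc.C c := by
    intro r hr
    have h1 : IsAlgebraic A (φ r) := A4_isAlg hr
    have h3 : IsAlgebraic A r := (isAlgebraic_algHom_iff φ φ.toRingHom.injective).mp h1
    exact A4_const h3
  have hrange : adj A {x} = ψ.fieldRange := by
    apply le_antisymm
    · apply adj_le
      · intro c hc
        exact ⟨algebraMap A (RatFunc A) ⟨c, hc⟩, hψc _⟩
      · rintro c rfl
        exact ⟨RatFunc.X, by rw [← RatFunc.algebraMap_X, hψ, eval₂_X]⟩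
    · rintro _ ⟨z, rfl⟩
      have hA : ∀ c : A, (c : Λ) ∈ adj A {x} := fun c => le_adj _ _ c.2
      have ha' : x ∈ adj A {x} := subset_adj _ _ rfl
      have hf : ∀ f : A[X], f.eval₂ A.subtype x ∈ adj A {x} := by
        intro f
        rw [eval₂_eq_sum_range]
        exact sum_mem (fun k _ => mul_mem (hA _) (pow_mem ha' k))
      obtain ⟨f, g, -, rfl⟩ := IsFractionRing.div_surjective (A := A[X]) z
      rw [map_div₀, hψ, hψ]
      exact div_mem (hf f) (hf g)
  exact ⟨ψ, hψ, hψC, hcon, hrange⟩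

/-- The elements of a quadratic extension. -/
private lemma A4_span {B : Subfield Λ} {y : Λ} (hyK : y ^ 2 ∈ B) (hyK' : y ∉ B) {z : Λ}
    (hz : z ∈ adj B {y}) : ∃ p ∈ B, ∃ q ∈ B, z = p + q * y := by
  obtain ⟨p, q, hpq⟩ := (isQuad_adj hyK hyK').span ⟨z, hz⟩
  exact ⟨p, p.2, q, q.2, congrArg Subtype.val hpq⟩

/-- The conjugate of an algebraic element is algebraic. -/
private lemma A4_conj {A B : Subfield Λ} (hAB : A ≤ B) {y : Λ} (hyK : y ^ 2 ∈ B) (hyK' : y ∉ B)
    {p q : Λ} (hp : p ∈ B) (hq : q ∈ B) (hz : p + q * y ∈ cl (A : Set Λ)) :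
    p - q * y ∈ cl (A : Set Λ) := by
  obtain ⟨σ, hσ, hσy⟩ := (isQuad_adj hyK hyK').exists_conj (c := ⟨y ^ 2, hyK⟩) (by
    apply Subtype.ext
    rfl)
  have hzm : p + q * y ∈ adj B {y} :=
    add_mem (le_adj _ _ hp) (mul_mem (le_adj _ _ hq) (subset_adj _ _ rfl))
  obtain ⟨ζ, hζ⟩ : ∃ ζ : adj B {y}, ζ = ⟨p + q * y, hzm⟩ := ⟨_, rfl⟩
  have hle : A ≤ adj B {y} := hAB.trans (le_adj _ _)
  obtain ⟨ι, hι⟩ : ∃ ι : A →+* adj B {y}, ι = Subfield.inclusion hle := ⟨_, rfl⟩
  have hσA : σ.comp ι = ι := by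
    have h1 : ι = (Subfield.inclusion (le_adj B {y})).comp (Subfield.inclusion hAB) := hι
    rw [h1, ← RingHom.comp_assoc, hσ]
  have hιv : (adj B {y}).subtype.comp ι = A.subtype := by rw [hι]; rfl
  have hσz : ((σ ζ : adj B {y}) : Λ) = p - q * y := by
    have h0 : ζ = Subfield.inclusion (le_adj B {y}) ⟨p, hp⟩ +
        Subfield.inclusion (le_adj B {y}) ⟨q, hq⟩ * ⟨y, subset_adj _ _ rfl⟩ := by
      rw [hζ]
      rfl
    have h1 : ∀ w, σ (Subfield.inclusion (le_adj B {y}) w) =
        Subfield.inclusion (le_adj B {y}) w := fun w => RingHom.congr_fun hσ w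
    rw [h0, map_add, map_mul, hσy, h1, h1]
    change p + q * -y = p - q * y
    ring
  have hconj : ((σ ζ : adj B {y}) : Λ) ∈ cl (A : Set Λ) := by
    obtain ⟨P, hP0, hP⟩ := A4_isAlg hz
    refine mem_cl_of_isAlg (F := A) (subset_cl _) ⟨P, hP0, ?_⟩
    have h1 : P.eval₂ ι ζ = 0 := by
      apply Subtype.ext
      have h3 := hom_eval₂ P ι (adj B {y}).subtype ζ
      have h8 : (adj B {y}).subtype ζ = p + q * y := by rw [hζ]; rfl
      rw [hιv, h8] at h3
      exact h3.trans hP
    have h4 : P.eval₂ ι (σ ζ) = 0 := by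
      have h5 := hom_eval₂ P ι σ ζ
      rw [hσA, h1, map_zero] at h5
      exact h5.symm
    have h7 := hom_eval₂ P ι (adj B {y}).subtype (σ ζ)
    rw [h4, hιv, map_zero] at h7
    exact h7.symm
  rwa [hσz] at hconj

/-- A field is algebraically closed in the function field of an elliptic curve over it. -/
private lemma A4_step {A : Subfield Λ} (h2 : (2 : Λ) ≠ 0) {x y : Λ} (hx : x ∉ cl (A : Set Λ))
    {a b c : Λ} (ha : a ∈ A) (hb : b ∈ A) (hc : c ∈ A)
    (hy : y ^ 2 = x ^ 3 + a * x ^ 2 + b * x + c) {z : Λ} (hz : z ∈ adj A {x, y})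
    (hzA : z ∈ cl (A : Set Λ)) : z ∈ A := by
  obtain ⟨ψ, hψ, hψC, hcon, hrange⟩ := A4_psi hx
  -- the cubic polynomial
  obtain ⟨f, hf⟩ : ∃ f : A[X], f = X ^ 3 + C (⟨a, ha⟩ : A) * X ^ 2 + C (⟨b, hb⟩ : A) * X +
    C (⟨c, hc⟩ : A) := ⟨_, rfl⟩
  have hf3 : f.natDegree = 3 := by
    rw [hf]
    compute_degree!
  have hfy : ψ (algebraMap A[X] (RatFunc A) f) = y ^ 2 := by
    rw [hψ, hy, hf]
    simp
  have hyK : y ^ 2 ∈ adj A {x} := by
    rw [hrange, ← hfy]
    exact ⟨_, rfl⟩
  have hyK' : y ∉ adj A {x} := by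
    intro h
    rw [hrange] at h
    obtain ⟨r, hr⟩ := h
    have h1 : ψ (r⁻¹ ^ 2 * algebraMap A[X] (RatFunc A) f) = ψ (RatFunc.C 1) := by
      rw [map_mul, map_pow, map_inv₀, hfy, hr, hψC]
      have hy0 : y ≠ 0 := by
        rintro rfl
        have h3 : ψ (algebraMap A[X] (RatFunc A) f) = ψ 0 := by
          rw [hfy, map_zero]; ring
        have h4 := (IsFractionRing.injective A[X] (RatFunc A))
          ((ψ.injective h3).trans (map_zero _).symm)
        rw [h4] at hf3
        simp at hf3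
      field_simp
      simp
    have h5 := A4_deg hf3 (ψ.injective h1)
    rw [h5] at h1
    simp at h1
  have hadj : adj A {x, y} = adj (adj A {x}) {y} := by
    rw [adj_adj]
    rfl
  rw [hadj] at hz
  obtain ⟨p, hp, q, hq, hzpq⟩ := A4_span hyK hyK' hz
  have hconj := A4_conj (le_adj A {x}) hyK hyK' hp hq (hzpq ▸ hzA)
  have h2A : (2 : Λ) ∈ cl (A : Set Λ) := by
    have : (1 : Λ) + 1 ∈ cl (A : Set Λ) := add_mem (one_mem _) (one_mem _)
    rwa [one_add_one_eq_two] at this
  have hpA : p ∈ cl (A : Set Λ) := by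
    have h1 := div_mem (add_mem hzA hconj) h2A
    rw [hzpq] at h1
    have h3 : (p + q * y + (p - q * y)) / 2 = p := by
      field_simp
      ring
    rwa [h3] at h1
  have hqA : q * y ∈ cl (A : Set Λ) := by
    have h1 := sub_mem hzA hpA
    rw [hzpq, add_sub_cancel_left] at h1
    exact h1
  obtain ⟨r, hr⟩ : ∃ r, ψ r = p := hrange.le hp
  obtain ⟨s, hs⟩ : ∃ s, ψ s = q := hrange.le hq
  obtain ⟨c₁, hc₁⟩ := hcon r (by rw [hr]; exact hpA)
  have hsq : ψ (s ^ 2 * algebraMap A[X] (RatFunc A) f) ∈ cl (A : Set Λ) := by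
    rw [map_mul, map_pow, hfy, hs, ← mul_pow]
    exact pow_mem hqA 2
  obtain ⟨c₂, hc₂⟩ := hcon _ hsq
  have hs0 := A4_deg hf3 hc₂
  rw [hs0, map_zero] at hs
  rw [hzpq, ← hs, zero_mul, add_zero, ← hr, hc₁, hψC]
  exact c₁.2

end step

/-- The field `k` is algebraically closed in the function field of `E ^ n`. -/
theorem prod_alg {κ k L : Type u} [Field κ] [Field k] [Field L] [Algebra κ k] [Algebra κ L]
    [Algebra k L] [IsScalarTower κ k L] {E : WeierstrassCurve κ} [EllW E] {n : ℕ}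
    {x y : Fin n → L} (h : IsProd (fun _ : Fin 1 => E) k (fun _ : Fin n => 0) x y) {z : L}
    (hz : IsAlgebraic k z) : ∃ a : k, algebraMap k L a = z := by
  have h2 : (2 : L) ≠ 0 := by
    have h3 : algebraMap κ L 2 ≠ 0 := by
      rw [Ne, map_eq_zero]
      exact EllW.two E
    rwa [map_ofNat] at h3
  set A : Subfield L := (algebraMap k L).fieldRange with hA
  have hκ : ∀ s : κ, algebraMap κ L s ∈ A := fun s =>
    ⟨algebraMap κ k s, (IsScalarTower.algebraMap_apply κ k L s).symm⟩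
  have hy : ∀ i, y i ^ 2 = x i ^ 3 + algebraMap κ L E.a₂ * x i ^ 2 + algebraMap κ L E.a₄ * x i +
      algebraMap κ L E.a₆ := by
    intro i
    have h3 := ((Affine.nonsingular_iff _ _).mp (h.point i)).1
    rw [Affine.equation_iff] at h3
    have h4 : (E⁄L).toAffine.a₁ = 0 := by
      change algebraMap κ L E.a₁ = 0
      rw [EllW.a1, map_zero]
    have h5 : (E⁄L).toAffine.a₃ = 0 := by
      change algebraMap κ L E.a₃ = 0
      rw [EllW.a3, map_zero]
    rw [h4, h5] at h3
    change y i ^ 2 + 0 * x i * y i + 0 * y i = x i ^ 3 + algebraMap κ L E.a₂ * x i ^ 2 +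
      algebraMap κ L E.a₄ * x i + algebraMap κ L E.a₆ at h3
    linear_combination h3
  have hzA : z ∈ cl (A : Set L) := by
    obtain ⟨P, hP0, hP⟩ := hz
    refine UnrH3.mem_cl_of_isAlg (F := A) (subset_cl _)
      ⟨P.map (algebraMap k L).rangeRestrictField, ?_, ?_⟩
    · rw [Ne, Polynomial.map_eq_zero]
      exact hP0
    · rw [aeval_def, eval₂_map]
      exact hP
  have key : ∀ s : Finset (Fin n), z ∈ adj A (x '' s ∪ y '' s) → z ∈ A := by
    intro s
    induction s using Finset.induction_on with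
    | empty =>
      intro h3
      rw [Finset.coe_empty, Set.image_empty, Set.image_empty, Set.union_empty,
        UnrH3.adj_empty] at h3
      exact h3
    | insert i s hi ih =>
      intro h3
      apply ih
      have hle : adj A (x '' s ∪ y '' s) ≤ cl ((A : Set L) ∪ x '' {i}ᶜ) := by
        have hxs : ∀ j ∈ s, x j ∈ cl ((A : Set L) ∪ x '' {i}ᶜ) := fun j hj =>
          subset_cl _ (Or.inr ⟨j, fun he => hi (he ▸ hj), rfl⟩)
        have hAc : ∀ c ∈ A, c ∈ cl ((A : Set L) ∪ x '' {i}ᶜ) := fun c hc =>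
          subset_cl _ (Or.inl hc)
        apply UnrH3.adj_le
        · exact hAc
        · rintro _ (⟨j, hj, rfl⟩ | ⟨j, hj, rfl⟩)
          · exact hxs j hj
          · apply UnrH3.mem_cl_of_pow (n := 2) (by norm_num)
            rw [hy j]
            exact add_mem (add_mem (add_mem (pow_mem (hxs j hj) 3)
              (mul_mem (hAc _ (hκ _)) (pow_mem (hxs j hj) 2)))
              (mul_mem (hAc _ (hκ _)) (hxs j hj))) (hAc _ (hκ _))
      have hxi : x i ∉ cl (adj A (x '' s ∪ y '' s) : Set L) := fun h4 =>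
        UnrH3.not_mem_cl_of_algInd h.ind i (UnrH3.cl_le hle h4)
      have hAs := UnrH3.le_adj A (x '' s ∪ y '' s)
      refine A4_step h2 hxi (hAs (hκ _)) (hAs (hκ _)) (hAs (hκ _)) (hy i) ?_
        (UnrH3.cl_mono hAs hzA)
      rw [UnrH3.adj_adj]
      refine UnrH3.adj_mono le_rfl ?_ h3
      rintro _ (⟨j, hj, rfl⟩ | ⟨j, hj, rfl⟩)
      · rcases Finset.mem_insert.mp hj with rfl | hj
        · exact Or.inr (Or.inl rfl)
        · exact Or.inl (Or.inl ⟨j, hj, rfl⟩)
      · rcases Finset.mem_insert.mp hj with rfl | hj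
        · exact Or.inr (Or.inr rfl)
        · exact Or.inl (Or.inr ⟨j, hj, rfl⟩)
  have hall : z ∈ adj A (x '' (Finset.univ : Finset (Fin n)) ∪ y '' (Finset.univ : Finset (Fin n))) := by
    have h3 : z ∈ IntermediateField.adjoin k (Set.range x ∪ Set.range y) := by
      rw [h.gen]; trivial
    rw [Finset.coe_univ, Set.image_univ, Set.image_univ]
    have h4 : (IntermediateField.adjoin k (Set.range x ∪ Set.range y)).toSubfield ≤
        adj A (Set.range x ∪ Set.range y) := by
      apply IntermediateField.adjoin_le_subfield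
      · rintro _ ⟨c, rfl⟩
        exact UnrH3.le_adj _ _ ⟨c, rfl⟩
      · exact UnrH3.subset_adj _ _
    exact h4 h3
  exact key Finset.univ hall

end UnrA
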