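import Pool.Agent.Lib.MP_859dd5_ag.SD.A2
import Pool.Agent.Lib.MP_859dd5_ag.EQ.Aff1

/-!
# The sum of the values of an odd class at conjugate points
-/

namespace UnrA

universe u v w z

open Polynomial WeierstrassCurve
open scoped Classical
open UnrH3 (GoodW Pt FF ptX ptY ptMap Gen InCl liftPt base gpt gx gy gen_gpt range_in_cl subset_cl
  cl_mono cl Gen_map_iff liftPt_gpt ptMap_comp nu liftPt_base FF_range_le liftPt_gx liftPt_gy)

/-- The class `δ` of `K` comes from an unramified class of the field generated over `k` by the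
coordinates of `T`. -/
def FromPt {κ k K : Type u} [Field κ] [Field k] [Field K] [Algebra κ K] [Algebra k K]
    {W : WeierstrassCurve κ} (m : UFun.{u, z}) (T : Pt W K) (δ : KM m K) : Prop :=
  ∃ β : KM m (IntermediateField.adjoin k {ptX T, ptY T}), Unr β ∧
    KM.map m (algebraMap (IntermediateField.adjoin k {ptX T, ptY T}) K) β = δ

section

variable {κ k K : Type u} [Field κ] [Field k] [Field K] [Algebra κ k] [Algebra κ K] [Algebra k K]
  [IsScalarTower κ k K] {W : WeierstrassCurve κ} {m : UFun.{u, z}} {T : Pt W K}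

omit [Algebra κ k] [IsScalarTower κ k K] in
lemma FromPt.nsmul {δ : KM m K} (h : FromPt (k := k) m T δ) (n : ℕ) :
    FromPt (k := k) m T (n • δ) := by
  obtain ⟨β, hβ, h⟩ := h
  exact ⟨n • β, hβ.nsmul _, by rw [map_nsmul, h]⟩

omit [Algebra κ k] [IsScalarTower κ k K] in
lemma FromPt.const (c : KM m k) (hc : Unr c) :
    FromPt (k := k) m T (KM.map m (algebraMap k K) c) := by
  refine ⟨KM.map m (algebraMap k _) c, hc.map _, ?_⟩
  rw [KM.map_map]
  rfl

lemma FromPt.of_gen (hT : Gen (IsScalarTower.toAlgHom κ k K) T) {γ : KM m (FF W k)}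
    (hγ : Unr γ) : FromPt (k := k) m T (ev (IsScalarTower.toAlgHom κ k K) T γ) := by
  obtain ⟨F, hF⟩ : ∃ F, F = IntermediateField.adjoin k {ptX T, ptY T} := ⟨_, rfl⟩
  have h1 : ∀ z : FF W k, liftPt (IsScalarTower.toAlgHom κ k K) T hT z ∈ F.toSubfield := by
    apply FF_range_le
    · intro a
      have h2 := congrArg (fun g : k →ₐ[κ] K => g a)
        (liftPt_base (IsScalarTower.toAlgHom κ k K) T hT)
      change liftPt (IsScalarTower.toAlgHom κ k K) T hT (base W k a) = algebraMap k K a at h2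
      rw [h2]
      exact F.algebraMap_mem a
    · rw [liftPt_gx, hF]
      exact IntermediateField.subset_adjoin _ _ (by simp)
    · rw [liftPt_gy, hF]
      exact IntermediateField.subset_adjoin _ _ (by simp)
  subst hF
  refine ⟨KM.map m ((liftPt (IsScalarTower.toAlgHom κ k K) T hT : FF W k →+* K).codRestrict
    (IntermediateField.adjoin k {ptX T, ptY T}).toSubfield h1) γ, hγ.map _, ?_⟩
  rw [ev_of_gen hT]
  exact KM.map_map _ _ _

end

variable {κ : Type u} [Field κ] {W : WeierstrassCurve κ} [hG : GoodW W] {m : UFun.{u, z}}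

/-- The sum of the values of an odd class at generic points `P t` over `Ω`, if the sum of the points
is a point over `K`. -/
theorem exists_delta {k K Ω : Type u} [Field k] [Field K] [Field Ω] [Algebra κ k] [Algebra κ K]
    [Algebra κ Ω] [Algebra k K] [Algebra k Ω] [Algebra K Ω] [IsScalarTower κ k K]
    [IsScalarTower κ k Ω] [IsScalarTower κ K Ω] [IsScalarTower k K Ω] {γ : KM m (FF W k)}
    (hγ : Unr γ) (hodd : OddCl γ) {ι : Type*} (s : Finset ι) (P : ι → Pt W Ω)
    (hP : ∀ t ∈ s, Gen (IsScalarTower.toAlgHom κ k Ω) (P t)) (T : Pt W K)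
    (hT : ptMap (IsScalarTower.toAlgHom κ K Ω) T = ∑ t ∈ s, P t)
    (hc : ¬ Gen (IsScalarTower.toAlgHom κ k K) T →
      ∃ t : Pt W k, ptMap (IsScalarTower.toAlgHom κ k K) t = T) :
    ∃ δ : KM m K, Unr δ ∧ FromPt (k := k) m T δ ∧
      8192 • ∑ t ∈ s, ev (IsScalarTower.toAlgHom κ k Ω) (P t) γ -
        KM.map m (algebraMap K Ω) δ ∈ tor 2048 _ := by
  have hcomp : (IsScalarTower.toAlgHom κ K Ω).comp (IsScalarTower.toAlgHom κ k K) =
      IsScalarTower.toAlgHom κ k Ω := by
    ext a
    exact (IsScalarTower.algebraMap_apply k K Ω a).symm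
  by_cases hg : Gen (IsScalarTower.toAlgHom κ k K) T
  · have hg' : Gen (IsScalarTower.toAlgHom κ k Ω) (∑ t ∈ s, P t) := by
      rw [← hT, ← hcomp]
      exact (Gen_map_iff _ _ _).mpr hg
    have k1 := hodd.sum_gen hγ s P hP hg'
    refine ⟨8192 • ev (IsScalarTower.toAlgHom κ k K) T γ, (Unr.ev hγ).nsmul _,
      (FromPt.of_gen hg hγ).nsmul _, ?_⟩
    have e1 : KM.map m (algebraMap K Ω) (ev (IsScalarTower.toAlgHom κ k K) T γ) =
        ev (IsScalarTower.toAlgHom κ k Ω) (∑ t ∈ s, P t) γ := by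
      rw [← hT, ← hcomp, ev_map]
      rfl
    rw [map_nsmul, e1, ← smul_sub]
    exact tor_smul _ k1
  · obtain ⟨t, ht⟩ := hc hg
    obtain ⟨c, hc, hcγ⟩ := hodd.translate hγ t
    refine ⟨KM.map m (algebraMap k K) c, hc.map _, FromPt.const c hc, ?_⟩
    set iΩ := IsScalarTower.toAlgHom κ k Ω with hi
    have hQ : Gen ((base W Ω).comp iΩ) (gpt W Ω) := by
      have := gen_shift iΩ (0 : Pt W Ω)
      rwa [map_zero, zero_add] at this
    have k1 := hodd.sum_shift hγ iΩ s P hP
    have hT' : ∑ t ∈ s, P t = ptMap iΩ t := by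
      rw [← hT, ← ht, ← ptMap_comp, hcomp]
    rw [hT', ← ptMap_comp] at k1
    have e1 := congrArg (ev ((base W Ω).comp iΩ) (gpt W Ω)) hcγ
    rw [ev_const hQ, ev_nsmul, ev_sub, ev_ev hQ, map_add, ← ptMap_comp, liftPt_base,
      liftPt_gpt] at e1
    have e2 : KM.map m (((base W Ω).comp iΩ : k →ₐ[κ] FF W Ω) : k →+* FF W Ω) c =
        KM.map m (base W Ω : Ω →+* FF W Ω) (KM.map m (algebraMap K Ω)
          (KM.map m (algebraMap k K) c)) := by
      rw [KM.map_map, KM.map_map]
      congr 2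
      ext a
      have h3 := IsScalarTower.algebraMap_apply k K Ω a
      exact congrArg (base W Ω) h3
    rw [e2] at e1
    apply base_tor (W := W) (N := 1024)
    rw [map_sub, e1, map_nsmul, ← smul_sub]
    apply tor_smul
    have k2 := neg_mem k1
    convert k2 using 1
    abel

end UnrA
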