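import Mathlib

/-!
# Finite normal extensions of bounded degree
-/

namespace UnrA

universe u v w z

open Polynomial

section

open Module IntermediateField

variable (K : Type u) (L : Type v) (M : Type w) [Field K] [Field L] [Field M]
  [Algebra K L] [Algebra K M] [FiniteDimensional K L]

/-- The degree of a compositum of finitely many subfields. -/
lemma C1_finrank_finset_sup {ι : Type*} (s : Finset ι) (F : ι → IntermediateField K M)
    (d : ℕ) (hd : ∀ i, finrank K (F i) ≤ d) :
    finrank K (s.sup F : IntermediateField K M) ≤ d ^ s.card := by
  classical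
  induction s using Finset.induction_on with
  | empty =>
    rw [Finset.sup_empty, Finset.card_empty, pow_zero]
    exact (IntermediateField.finrank_bot).le
  | insert a s ha ih =>
    rw [Finset.sup_insert, Finset.card_insert_of_notMem ha, pow_succ, mul_comm]
    exact (finrank_sup_le (F a) (s.sup F)).trans (Nat.mul_le_mul (hd a) ih)

/-- `[N : K] ≤ d ^ d` for the normal closure `N` of `L / K` in `M`, `d = [L : K]`. -/
theorem C1_finrank_normalClosure_le :
    finrank K (normalClosure K L M) ≤ finrank K L ^ finrank K L := by
  classical
  have hfin : Finite (L →ₐ[K] M) := inferInstance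
  have : Fintype (L →ₐ[K] M) := Fintype.ofFinite _
  have h1 : normalClosure K L M = (Finset.univ : Finset (L →ₐ[K] M)).sup
      (fun f => f.fieldRange) := by
    rw [normalClosure_def, Finset.sup_univ_eq_iSup]
  have hd : ∀ f : L →ₐ[K] M, finrank K f.fieldRange = finrank K L := by
    intro f
    exact (LinearEquiv.finrank_eq (AlgEquiv.ofInjectiveField f).toLinearEquiv).symm
  rw [h1]
  refine (C1_finrank_finset_sup K M Finset.univ _ (finrank K L) (fun f => (hd f).le)).trans ?_
  refine Nat.pow_le_pow_right finrank_pos ?_
  rw [Finset.card_univ, ← Nat.card_eq_fintype_card]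
  exact card_algHom_le_finrank K L M

end

/-- A finite extension of degree `d` is contained in a normal one whose degree divides `B d`. -/
theorem exists_normal (d : ℕ) : ∃ B : ℕ, 0 < B ∧ ∀ (K L : Type u) [Field K] [Field L]
    [Algebra K L] [FiniteDimensional K L], Module.finrank K L = d →
    ∃ (Ω : Type u) (_ : Field Ω) (_ : Algebra K Ω) (_ : Algebra L Ω) (_ : IsScalarTower K L Ω),
      FiniteDimensional K Ω ∧ Normal K Ω ∧ Module.finrank K Ω ∣ B := by
  refine ⟨(d ^ d).factorial, Nat.factorial_pos _, ?_⟩
  intro K L _ _ _ _ hd
  have h1 := C1_finrank_normalClosure_le K L (AlgebraicClosure L)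
  rw [hd] at h1
  refine ⟨IntermediateField.normalClosure K L (AlgebraicClosure L), inferInstance, inferInstance, inferInstance,
    inferInstance, inferInstance, inferInstance, ?_⟩
  exact Nat.dvd_factorial Module.finrank_pos h1

end UnrA
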