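import Pool.Agent.Lib.MP_859dd5_ag.SD.A1
import Pool.Agent.Lib.MP_859dd5_ag.SD.A3
import Pool.Agent.Lib.MP_859dd5_ag.SD.A4
import Pool.Agent.Lib.MP_859dd5_ag.SD.A5
import Pool.Agent.Lib.MP_859dd5_ag.SD.C1

/-!
# The structure theorem for finite extensions
-/

namespace UnrA

universe u v w z

open Polynomial WeierstrassCurve
open scoped Classical
open UnrH3 (GoodW Pt FF ptX ptY ptMap Gen InCl liftPt base gpt gx gy gen_gpt range_in_cl subset_cl
  cl_mono cl Gen_map_iff liftPt_gpt ptMap_comp nu liftPt_base FF_range_le liftPt_gx liftPt_gy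
  mem_cl_range_iff)
open UnrH3.Ell (EllW)

section

variable {κ k L : Type u} [Field κ] [Field k] [Field L] [Algebra κ k] [Algebra κ L] [Algebra k L]
  [IsScalarTower κ k L] {E : WeierstrassCurve κ}

lemma isAlgebraic_of_mem_cl {z : L} (hz : z ∈ cl (Set.range (IsScalarTower.toAlgHom κ k L))) :
    IsAlgebraic k z := by
  obtain ⟨p, hp, hpz⟩ := (mem_cl_range_iff _ _).mp hz
  exact ⟨p, hp, hpz⟩

lemma gen_pt' {n : ℕ} {x y : Fin n → L}
    (h : IsProd (fun _ : Fin 1 => E) k (fun _ : Fin n => 0) x y) (i : Fin n) :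
    Gen (IsScalarTower.toAlgHom κ k L) (pt E (x i) (y i)) := by
  rw [pt_some (h.point i)]
  intro h1
  exact h.ind.transcendental i (isAlgebraic_of_mem_cl h1)

/-- Points which are not generic are constant. -/
lemma const_of_not_gen [EllW E] {K : Type u} [Field K] [Algebra κ K] [Algebra k K] [Algebra K L]
    [IsScalarTower κ k K] [IsScalarTower κ K L] [IsScalarTower k K L] {n : ℕ} {x y : Fin n → L}
    (h : IsProd (fun _ : Fin 1 => E) k (fun _ : Fin n => 0) x y) (T : Pt E K)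
    (hT : ¬ Gen (IsScalarTower.toAlgHom κ k K) T) :
    ∃ t : Pt E k, ptMap (IsScalarTower.toAlgHom κ k K) t = T := by
  have hin : InCl (Set.range (IsScalarTower.toAlgHom κ k K)) T := not_not.mp hT
  have hpt := hin.ptIn (range_in_cl _)
  have key : ∀ z : K, z ∈ cl (Set.range (IsScalarTower.toAlgHom κ k K)) →
      ∃ a : k, IsScalarTower.toAlgHom κ k K a = z := by
    intro z hz
    have h1 : IsAlgebraic k (algebraMap K L z) := (isAlgebraic_of_mem_cl hz).algebraMap
    obtain ⟨a, ha⟩ := prod_alg h h1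
    refine ⟨a, (algebraMap K L).injective ?_⟩
    rw [← ha]
    exact (IsScalarTower.algebraMap_apply k K L a).symm
  rcases T with _ | ⟨a, b, hab⟩
  · exact ⟨0, map_zero _⟩
  · obtain ⟨a', ha'⟩ := key a hpt.1
    obtain ⟨b', hb'⟩ := key b hpt.2
    subst ha' hb'
    have h1 : (E⁄k).toAffine.Nonsingular a' b' :=
      (E.toAffine.baseChange_nonsingular (f := IsScalarTower.toAlgHom κ k K)
        (IsScalarTower.toAlgHom κ k K : k →+* K).injective a' b').mp hab
    exact ⟨.some _ _ h1, rfl⟩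

end

open Nat in
/-- The structure theorem for finite extensions. -/
theorem fin_struct {κ : Type u} [Field κ] [Finite κ] (E : WeierstrassCurve κ) [EllW E] {N₀ : ℕ}
    (hN : IsNoncomm.{u} E N₀) (n d : ℕ) :
    ∃ N : ℕ, 0 < N ∧ ∀ {k K L : Type u} [Field k] [Field K] [Field L] [Algebra κ k] [Algebra κ K]
      [Algebra κ L] [Algebra k K] [Algebra k L] [Algebra K L] [IsScalarTower κ k K]
      [IsScalarTower κ k L] [IsScalarTower κ K L] [IsScalarTower k K L] [FiniteDimensional K L]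
      (x y : Fin n → L), IsProd (fun _ : Fin 1 => E) k (fun _ => 0) x y →
      Module.finrank K L = d → ∃ T : Fin n → Pt E K, ∀ (m : UFun.{u, z}) (a : KM m K), Unr a →
        ∃ (c : KM m k) (δ : Fin n → KM m K), Unr c ∧
          (∀ i, Unr (δ i) ∧ FromPt (k := k) m (T i) (δ i)) ∧
          N • a = KM.map m (algebraMap k K) c + ∑ i, δ i := by
  obtain ⟨D, hD, hdec⟩ := decomp.{u, z} n N₀
  obtain ⟨B, hB, hnorm⟩ := exists_normal.{u} d
  have hq : 1 < Nat.card κ := Finite.one_lt_card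
  refine ⟨2048 * (B * (8192 * (Nat.card κ ^ B * (d ! * D)))), by positivity, ?_⟩
  intro k K L _ _ _ _ _ _ _ _ _ _ _ _ _ _ x y hL hdeg
  obtain ⟨Ω, _, _, _, _, hfin, hnormal, hdiv⟩ := hnorm K L hdeg
  let _ : Algebra κ Ω := ((algebraMap K Ω).comp (algebraMap κ K)).toAlgebra
  let _ : Algebra k Ω := ((algebraMap K Ω).comp (algebraMap k K)).toAlgebra
  have t1 : IsScalarTower κ K Ω := IsScalarTower.of_algebraMap_eq fun _ => rfl
  have t2 : IsScalarTower k K Ω := IsScalarTower.of_algebraMap_eq fun _ => rfl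
  have t3 : IsScalarTower κ k Ω := IsScalarTower.of_algebraMap_eq fun z => by
    change algebraMap K Ω (algebraMap κ K z) = algebraMap K Ω (algebraMap k K (algebraMap κ k z))
    rw [← IsScalarTower.algebraMap_apply κ k K]
  obtain ⟨iL, hiL⟩ : ∃ i, i = IsScalarTower.toAlgHom κ k L := ⟨_, rfl⟩
  obtain ⟨iΩ, hiΩ⟩ : ∃ i, i = IsScalarTower.toAlgHom κ k Ω := ⟨_, rfl⟩
  have hσ : ∀ σ : L →ₐ[K] Ω, (σ.restrictScalars κ).comp iL = iΩ := by
    intro σ
    ext z
    rw [hiL, hiΩ]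
    change σ (algebraMap k L z) = algebraMap K Ω (algebraMap k K z)
    rw [IsScalarTower.algebraMap_apply k K L, σ.commutes]
  obtain ⟨P, hP⟩ : ∃ P : Fin n → Pt E L, P = fun i => pt E (x i) (y i) := ⟨_, rfl⟩
  have hPg : ∀ i, Gen iL (P i) := by
    intro i
    rw [hiL, hP]
    exact gen_pt' hL i
  obtain ⟨Q, hQ⟩ : ∃ Q : (L →ₐ[K] Ω) → Fin n → Pt E Ω,
    Q = fun σ i => ptMap (σ.restrictScalars κ) (P i) := ⟨_, rfl⟩
  have hQg : ∀ σ i, Gen iΩ (Q σ i) := by
    intro σ i
    rw [hQ, ← hσ σ]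
    exact (Gen_map_iff _ _ _).mpr (hPg i)
  let _ : Fintype (L →ₐ[K] Ω) := Fintype.ofFinite _
  obtain ⟨h, hh⟩ : ∃ h, h = Fintype.card (L →ₐ[K] Ω) := ⟨_, rfl⟩
  have hh0 : 0 < h := by
    rw [hh]
    exact Fintype.card_pos_iff.mpr ⟨IsScalarTower.toAlgHom K L Ω⟩
  have hhd : h ∣ d ! := by
    apply Nat.dvd_factorial hh0
    rw [hh, ← hdeg, ← Nat.card_eq_fintype_card]
    exact card_algHom_le_finrank K L Ω
  have hm : Module.finrank K Ω ≤ Nat.card κ ^ B :=
    (Nat.le_of_dvd hB hdiv).trans (Nat.lt_pow_self hq).le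
  have hfix : ∀ i, ∀ τ : Ω ≃ₐ[K] Ω, ptMap ((τ : Ω →ₐ[K] Ω).restrictScalars κ) (∑ σ, Q σ i) =
      ∑ σ, Q σ i := by
    intro i τ
    rw [map_sum]
    refine Fintype.sum_bijective (fun σ : L →ₐ[K] Ω => (τ : Ω →ₐ[K] Ω).comp σ) ?_ _ _ ?_
    · constructor
      · intro σ σ' h1
        ext z
        have h2 := congrArg (fun g : L →ₐ[K] Ω => g z) h1
        exact τ.injective h2
      · intro σ
        refine ⟨((τ.symm : Ω ≃ₐ[K] Ω) : Ω →ₐ[K] Ω).comp σ, ?_⟩
        ext z
        exact τ.apply_symm_apply _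
    · intro σ
      rw [hQ]
      exact (ptMap_comp _ _ _).symm
  choose T hT using fun i => trace_point (E := E) (m := B) hm (∑ σ, Q σ i) (hfix i)
  refine ⟨T, fun m a ha => ?_⟩
  obtain ⟨c, γ, hc, hγ, hodd, hcγ⟩ := hdec hL hN m (KM.map m (algebraMap K L) a) (ha.map _)
  have hΩ : ∀ σ : L →ₐ[K] Ω, D • KM.map m (algebraMap K Ω) a =
      KM.map m (algebraMap K Ω) (KM.map m (algebraMap k K) c) + ∑ i, ev iΩ (Q σ i) (γ i) := by
    intro σ
    have h1 := congrArg (KM.map m (σ : L →+* Ω)) hcγ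
    have h2 : (σ : L →+* Ω).comp (algebraMap K L) = algebraMap K Ω := by
      ext z
      exact σ.commutes z
    have h3 : (σ : L →+* Ω).comp (algebraMap k L) = (algebraMap K Ω).comp (algebraMap k K) := by
      ext z
      change σ (algebraMap k L z) = algebraMap K Ω (algebraMap k K z)
      rw [IsScalarTower.algebraMap_apply k K L, σ.commutes]
    rw [map_nsmul, map_add, map_sum, KM.map_map, KM.map_map, h2, h3] at h1
    rw [h1, KM.map_map]
    congr 1
    refine Finset.sum_congr rfl fun i _ => ?_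
    have h4 := ev_map (m := m) iL (σ.restrictScalars κ) (P i) (γ i)
    rw [hσ σ] at h4
    rw [← hiL, ← congrFun hP i] 
    rw [hQ]
    exact h4.symm
  have hsum : ∀ i, (∑ t : Fin (Nat.card κ ^ B) × (L →ₐ[K] Ω), Q t.2 i) =
      Nat.card κ ^ B • ∑ σ, Q σ i := by
    intro i
    rw [Fintype.sum_prod_type]
    change ∑ _x : Fin (Nat.card κ ^ B), ∑ σ, Q σ i = _
    rw [Finset.sum_const, Finset.card_univ, Fintype.card_fin]
  have hδ : ∀ i, ∃ δ : KM m K, Unr δ ∧ FromPt (k := k) m (T i) δ ∧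
      8192 • ∑ t : Fin (Nat.card κ ^ B) × (L →ₐ[K] Ω), ev iΩ (Q t.2 i) (γ i) -
        KM.map m (algebraMap K Ω) δ ∈ tor 2048 _ := by
    intro i
    rw [hiΩ]
    refine exists_delta (ι := Fin (Nat.card κ ^ B) × (L →ₐ[K] Ω)) (hγ i) (hodd i) Finset.univ
      (fun t => Q t.2 i) (fun t _ => ?_) (T i) ?_ ?_
    · rw [← hiΩ]; exact hQg _ _
    · rw [hsum]; exact hT i
    · exact const_of_not_gen hL (T i)
  choose δ hδu hδf hδt using hδ
  have hS : (Nat.card κ ^ B * (h * D)) • KM.map m (algebraMap K Ω) a =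
      (Nat.card κ ^ B * h) • KM.map m (algebraMap K Ω) (KM.map m (algebraMap k K) c) +
        ∑ i, ∑ t : Fin (Nat.card κ ^ B) × (L →ₐ[K] Ω), ev iΩ (Q t.2 i) (γ i) := by
    rw [Finset.sum_comm]
    have h1 : ∑ t : Fin (Nat.card κ ^ B) × (L →ₐ[K] Ω), D • KM.map m (algebraMap K Ω) a =
        ∑ t : Fin (Nat.card κ ^ B) × (L →ₐ[K] Ω),
          (KM.map m (algebraMap K Ω) (KM.map m (algebraMap k K) c) +
            ∑ i, ev iΩ (Q t.2 i) (γ i)) := Finset.sum_congr rfl fun t _ => hΩ t.2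
    rw [Finset.sum_add_distrib, Finset.sum_const, Finset.sum_const, Finset.card_univ,
      Fintype.card_prod, Fintype.card_fin, ← hh, smul_smul, mul_assoc] at h1
    exact h1
  have htor : KM.map m (algebraMap K Ω) ((8192 * (Nat.card κ ^ B * (h * D))) • a -
      ((8192 * (Nat.card κ ^ B * h)) • KM.map m (algebraMap k K) c + ∑ i, δ i)) ∈ tor 2048 _ := by
    have h1 := AddSubgroup.sum_mem _ fun i (_ : i ∈ Finset.univ) => hδt i
    rw [Finset.sum_sub_distrib, ← Finset.smul_sum] at h1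
    rw [map_sub, map_add, map_nsmul, map_nsmul, map_sum, mul_smul, hS, smul_add, smul_smul]
    convert h1 using 1
    abel
  have hker : (2048 * Module.finrank K Ω) • ((8192 * (Nat.card κ ^ B * (h * D))) • a -
      ((8192 * (Nat.card κ ^ B * h)) • KM.map m (algebraMap k K) c + ∑ i, δ i)) = 0 := by
    rw [mul_comm, mul_smul]
    apply finrank_smul_eq_zero _ rfl
    rw [map_nsmul]
    exact htor
  obtain ⟨b, hb⟩ := hdiv
  obtain ⟨e, he⟩ := hhd
  refine ⟨(2048 * B * e * (8192 * (Nat.card κ ^ B * h))) • c, fun i => (2048 * B * e) • δ i,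
    hc.nsmul _, fun i => ⟨(hδu i).nsmul _, (hδf i).nsmul _⟩, ?_⟩
  have h2 := congrArg (fun z => (b * e) • z) hker
  simp only [smul_zero] at h2
  rw [smul_smul, smul_sub, sub_eq_zero, smul_add, smul_smul, smul_smul, Finset.smul_sum] at h2
  rw [map_nsmul]
  have e1 : 2048 * (B * (8192 * (Nat.card κ ^ B * (d ! * D)))) =
      b * e * (2048 * Module.finrank K Ω) * (8192 * (Nat.card κ ^ B * (h * D))) := by
    rw [he]
    have e2 : ∀ f : ℕ, 2048 * (B * (8192 * (f * (h * e * D)))) =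
        B * (2048 * (8192 * (f * (h * e * D)))) := fun f => by ring
    rw [e2, hb]
    ring
  have e3 : 2048 * B * e = b * e * (2048 * Module.finrank K Ω) := by
    rw [hb]
    ring
  rw [e1, h2]
  simp only [e3]

end UnrA
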