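import Pool.Agent.Lib.MP_859dd5_ag.SD.B1
import Pool.Agent.Lib.MP_859dd5_ag.Mg.G003

/-!
# Points and classes over purely transcendental extensions
-/

namespace UnrA

universe u v w z

open Polynomial WeierstrassCurve
open scoped Classical
open UnrH3 (Pt FF ptX ptY ptMap Gen gpt base liftPt nu GoodW)
open UnrH3.Ell (EllW)

theorem B3_point_transc {κ K T : Type u} [Field κ] [Field K] [Field T] [Algebra κ K] [Algebra κ T]
    [Algebra K T] [IsScalarTower κ K T] {E : WeierstrassCurve κ} [EllW E] {t : T}
    (ht : ∀ f : K[X], f ≠ 0 → f.eval₂ (algebraMap K T) t ≠ 0)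
    (hT : Subfield.closure (Set.range (algebraMap K T) ∪ {t}) = ⊤) (P : Pt E T) :
    ∃ P₀ : Pt E K, ptMap (IsScalarTower.toAlgHom κ K T) P₀ = P := by
  obtain ⟨e, he, _⟩ := UnrG.exists_ratFunc_equiv (algebraMap K T) ht hT
  have hc : ∀ a : κ, e (algebraMap κ (RatFunc K) a) = algebraMap κ T a := by
    intro a
    have h1 := congrArg (fun f : K →+* T => f (algebraMap κ K a)) he
    simp only [RingHom.comp_apply, RingHom.coe_coe] at h1
    rw [IsScalarTower.algebraMap_apply κ K (RatFunc K), h1,
      ← IsScalarTower.algebraMap_apply κ K T]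
  let e' : RatFunc K ≃ₐ[κ] T := AlgEquiv.ofRingEquiv (f := e) hc
  obtain ⟨P₀, hP₀⟩ := rat_point (κ := κ) (E := E) (ptMap (e'.symm : T →ₐ[κ] RatFunc K) P)
  refine ⟨P₀, ?_⟩
  have h2 : IsScalarTower.toAlgHom κ K T =
      (e' : RatFunc K →ₐ[κ] T).comp (IsScalarTower.toAlgHom κ K (RatFunc K)) := by
    ext a
    have h1 := congrArg (fun f : K →+* T => f a) he
    simp only [RingHom.comp_apply, RingHom.coe_coe] at h1
    exact h1.symm
  rw [h2, UnrH3.ptMap_comp, hP₀, ← UnrH3.ptMap_comp]
  have h3 : (e' : RatFunc K →ₐ[κ] T).comp (e'.symm : T →ₐ[κ] RatFunc K) = AlgHom.id κ T := by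
    ext a
    exact e'.apply_symm_apply a
  rw [h3, UnrH3.ptMap_id]

theorem B3_map_transc_injective {m : UFun.{u, z}} {K T : Type u} [Field K] [Field T] (j : K →+* T)
    {t : T} (ht : ∀ f : K[X], f ≠ 0 → f.eval₂ j t ≠ 0)
    (hT : Subfield.closure (Set.range j ∪ {t}) = ⊤) : Function.Injective (KM.map m j) := by
  obtain ⟨e, he, _⟩ := UnrG.exists_ratFunc_equiv j ht hT
  intro x y hxy
  have h1 : (e.symm : T →+* RatFunc K).comp j = algebraMap K (RatFunc K) := by
    ext a
    have h1 := congrArg (fun f : K →+* T => f a) he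
    simp only [RingHom.comp_apply, RingHom.coe_coe] at h1
    change e.symm (j a) = _
    rw [← h1, e.symm_apply_apply]
  apply map_ratFunc_injective (m := m) (K := K)
  rw [← h1, ← KM.map_map, ← KM.map_map, hxy]

/-- The last variable is transcendental over the field of the others, and generates. -/
theorem B3_step {F T : Type u} [Field F] [Field T] [Algebra F T] {n : ℕ}
    (v : Fin (n + 1) → T) (hv : AlgebraicIndependent F v)
    (hT : IntermediateField.adjoin F (Set.range v) = ⊤) :
    ∃ (T' : IntermediateField F T) (hmem : ∀ i : Fin n, v i.castSucc ∈ T'),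
      (∀ f : T'[X], f ≠ 0 → f.eval₂ (algebraMap T' T) (v (Fin.last n)) ≠ 0) ∧
      Subfield.closure (Set.range (algebraMap T' T) ∪ {v (Fin.last n)}) = ⊤ ∧
      AlgebraicIndependent F (fun i : Fin n => (⟨v i.castSucc, hmem i⟩ : T')) ∧
      IntermediateField.adjoin F
        (Set.range (fun i : Fin n => (⟨v i.castSucc, hmem i⟩ : T'))) = ⊤ := by
  obtain ⟨T', hT'⟩ : ∃ T' : IntermediateField F T, T' =
    IntermediateField.adjoin F (v '' Set.range Fin.castSucc) := ⟨_, rfl⟩
  have hmem : ∀ i : Fin n, v i.castSucc ∈ T' := by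
    intro i
    rw [hT']
    exact IntermediateField.subset_adjoin _ _ ⟨_, ⟨i, rfl⟩, rfl⟩
  have htr : Transcendental T' (v (Fin.last n)) := by
    subst hT'
    rw [IntermediateField.transcendental_adjoin_iff]
    refine hv.transcendental_adjoin (s := Set.range Fin.castSucc) ?_
    rintro ⟨i, hi⟩
    exact (Fin.castSucc_lt_last i).ne hi
  have hgen : Subfield.closure (Set.range (algebraMap T' T) ∪ {v (Fin.last n)}) = ⊤ := by
    have h1 := congrArg IntermediateField.toSubfield hT
    rw [IntermediateField.adjoin_toSubfield, IntermediateField.top_toSubfield] at h1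
    rw [eq_top_iff, ← h1, Subfield.closure_le]
    rintro z (⟨a, rfl⟩ | ⟨i, rfl⟩)
    · exact Subfield.subset_closure (Or.inl ⟨⟨_, T'.algebraMap_mem a⟩, rfl⟩)
    · refine Fin.lastCases ?_ (fun i => ?_) i
      · exact Subfield.subset_closure (Or.inr rfl)
      · exact Subfield.subset_closure (Or.inl ⟨⟨_, hmem i⟩, rfl⟩)
  refine ⟨T', hmem, ?_, hgen, ?_, ?_⟩
  · intro f hf h0
    exact htr ⟨f, hf, by rw [aeval_def]; exact h0⟩
  · apply AlgebraicIndependent.of_comp T'.val
    exact hv.comp _ (Fin.castSucc_injective n)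
  · apply IntermediateField.map_injective T'.val
    rw [IntermediateField.adjoin_map, ← AlgHom.fieldRange_eq_map, IntermediateField.fieldRange_val,
      ← Set.range_comp]
    have h1 : Set.range (⇑T'.val ∘ fun i : Fin n => (⟨v i.castSucc, hmem i⟩ : T')) =
        v '' Set.range Fin.castSucc := by
      rw [← Set.range_comp]
      rfl
    rw [h1]
    exact hT'.symm

theorem B3_zero {F T : Type u} [Field F] [Field T] [Algebra F T] (v : Fin 0 → T)
    (hT : IntermediateField.adjoin F (Set.range v) = ⊤) :
    Function.Surjective (algebraMap F T) := by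
  rw [Set.range_eq_empty, IntermediateField.adjoin_empty] at hT
  intro z
  have h2 : z ∈ (⊥ : IntermediateField F T) := by rw [hT]; trivial
  exact IntermediateField.mem_bot.mp h2

/-- An elliptic curve has only constant points over purely transcendental extensions. -/
theorem point_purely {κ F T : Type u} [Field κ] [Field F] [Field T] [Algebra κ F] [Algebra κ T]
    [Algebra F T] [IsScalarTower κ F T] {E : WeierstrassCurve κ} [EllW E] {n : ℕ}
    (v : Fin n → T) (hv : AlgebraicIndependent F v)
    (hT : IntermediateField.adjoin F (Set.range v) = ⊤) (P : Pt E T) :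
    ∃ P₀ : Pt E F, ptMap (IsScalarTower.toAlgHom κ F T) P₀ = P := by
  induction n generalizing T with
  | zero =>
    have h1 := B3_zero v hT
    let e : F ≃ₐ[κ] T := AlgEquiv.ofBijective (IsScalarTower.toAlgHom κ F T)
      ⟨(algebraMap F T).injective, h1⟩
    refine ⟨ptMap (e.symm : T →ₐ[κ] F) P, ?_⟩
    rw [← UnrH3.ptMap_comp]
    have h3 : (IsScalarTower.toAlgHom κ F T).comp (e.symm : T →ₐ[κ] F) = AlgHom.id κ T := by
      ext a
      exact e.apply_symm_apply a
    rw [h3, UnrH3.ptMap_id]
  | succ n ih =>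
    obtain ⟨T', hmem, htr, hgen, hv', hgen'⟩ := B3_step v hv hT
    let _ : Algebra κ T' := ((algebraMap F T').comp (algebraMap κ F)).toAlgebra
    have h1 : IsScalarTower κ F T' := IsScalarTower.of_algebraMap_eq fun _ => rfl
    have h2 : IsScalarTower κ T' T := by
      refine IsScalarTower.of_algebraMap_eq fun a => ?_
      change algebraMap κ T a = algebraMap T' T (algebraMap F T' (algebraMap κ F a))
      rw [← IsScalarTower.algebraMap_apply F T' T, ← IsScalarTower.algebraMap_apply κ F T]
    obtain ⟨P₁, hP₁⟩ := B3_point_transc (κ := κ) (K := T') (T := T) (E := E) htr hgen P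
    obtain ⟨P₀, hP₀⟩ := ih (T := T') (fun i => ⟨v i.castSucc, hmem i⟩) hv' hgen' P₁
    refine ⟨P₀, ?_⟩
    rw [← hP₁, ← hP₀, ← UnrH3.ptMap_comp]
    rfl

/-- The group of `F` injects in that of a purely transcendental extension. -/
theorem map_purely_injective {m : UFun.{u, z}} {F T : Type u} [Field F] [Field T] [Algebra F T]
    {n : ℕ} (v : Fin n → T) (hv : AlgebraicIndependent F v)
    (hT : IntermediateField.adjoin F (Set.range v) = ⊤) :
    Function.Injective (KM.map m (algebraMap F T)) := by
  induction n generalizing T with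
  | zero =>
    have h1 := B3_zero v hT
    let e : F ≃+* T := RingEquiv.ofBijective (algebraMap F T) ⟨(algebraMap F T).injective, h1⟩
    have h3 : (e.symm : T →+* F).comp (algebraMap F T) = RingHom.id F := by
      ext z
      exact e.symm_apply_apply z
    intro x y hxy
    have h4 := congrArg (KM.map m (e.symm : T →+* F)) hxy
    rw [KM.map_map, KM.map_map, h3, KM.map_id] at h4
    exact h4
  | succ n ih =>
    obtain ⟨T', hmem, htr, hgen, hv', hgen'⟩ := B3_step v hv hT
    have h1 := B3_map_transc_injective (m := m) (algebraMap T' T) htr hgen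
    have h2 := ih (T := T') (fun i => ⟨v i.castSucc, hmem i⟩) hv' hgen'
    intro x y hxy
    apply h2
    apply h1
    rw [KM.map_map, KM.map_map]
    exact hxy

end UnrA
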