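import Pool.Agent.Lib.MP_859dd5_ag.SD.A6
import Pool.Agent.Lib.MP_859dd5_ag.SD.B3

/-!
# The structure theorem
-/

namespace UnrA

universe u v w z

open Polynomial WeierstrassCurve
open scoped Classical
open UnrH3 (GoodW Pt FF ptX ptY ptMap Gen InCl liftPt base gpt gx gy gen_gpt range_in_cl subset_cl
  cl_mono cl Gen_map_iff liftPt_gpt ptMap_comp nu liftPt_base FF_range_le liftPt_gx liftPt_gy
  mem_cl_range_iff exists_factor ptX_map ptY_map)
open UnrH3.Ell (EllW)

section

variable {κ k K K₁ : Type u} [Field κ] [Field k] [Field K] [Field K₁] [Algebra κ k] [Algebra κ K]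
  [Algebra κ K₁] [Algebra k K] [Algebra k K₁] [Algebra K K₁] [IsScalarTower κ k K]
  [IsScalarTower κ K K₁] [IsScalarTower k K K₁] {W : WeierstrassCurve κ} {m : UFun.{u, z}}

omit [Algebra κ k] [IsScalarTower κ k K] in
/-- A class which comes from the field generated by the coordinates of a point over `K` comes from
`K`. -/
lemma FromPt.descend {T : Pt W K} {δ₁ : KM m K₁}
    (h : FromPt (k := k) m (ptMap (IsScalarTower.toAlgHom κ K K₁) T) δ₁) :
    ∃ δ : KM m K, Unr δ ∧ FromPt (k := k) m T δ ∧ KM.map m (algebraMap K K₁) δ = δ₁ := by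
  obtain ⟨β, hβ, hβδ⟩ := h
  obtain ⟨e, he⟩ := exists_factor
    (algebraMap (IntermediateField.adjoin k
      {ptX (ptMap (IsScalarTower.toAlgHom κ K K₁) T),
        ptY (ptMap (IsScalarTower.toAlgHom κ K K₁) T)}) K₁)
    ((algebraMap K K₁).comp (algebraMap (IntermediateField.adjoin k {ptX T, ptY T}) K)) (by
      intro z
      have h1 : IntermediateField.adjoin k {ptX (ptMap (IsScalarTower.toAlgHom κ K K₁) T),
          ptY (ptMap (IsScalarTower.toAlgHom κ K K₁) T)} ≤
          (IntermediateField.adjoin k {ptX T, ptY T}).map (IsScalarTower.toAlgHom k K K₁) := by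
        rw [IntermediateField.adjoin_le_iff]
        rintro w (hw | hw)
        · rw [hw, ptX_map]
          exact ⟨ptX T, IntermediateField.subset_adjoin _ _ (by simp), rfl⟩
        · rw [Set.mem_singleton_iff.mp hw, ptY_map]
          exact ⟨ptY T, IntermediateField.subset_adjoin _ _ (by simp), rfl⟩
      obtain ⟨w, hw, hwz⟩ := h1 z.2
      exact ⟨⟨w, hw⟩, hwz⟩)
  refine ⟨KM.map m (algebraMap _ K) (KM.map m e β), (hβ.map _).map _, ⟨_, hβ.map _, rfl⟩, ?_⟩
  rw [KM.map_map, KM.map_map, he, hβδ]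

omit [IsScalarTower κ k K] in
/-- The field generated by the coordinates of a constant point. -/
lemma FromPt.of_const [IsScalarTower κ k K] {t : Pt W k} {δ : KM m K}
    (h : FromPt (k := k) m (ptMap (IsScalarTower.toAlgHom κ k K) t) δ) :
    ∃ c : KM m k, Unr c ∧ KM.map m (algebraMap k K) c = δ := by
  obtain ⟨β, hβ, hβδ⟩ := h
  obtain ⟨e, he⟩ := exists_factor
    (algebraMap (IntermediateField.adjoin k
      {ptX (ptMap (IsScalarTower.toAlgHom κ k K) t),
        ptY (ptMap (IsScalarTower.toAlgHom κ k K) t)}) K) (algebraMap k K) (by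
      intro z
      have h1 : IntermediateField.adjoin k {ptX (ptMap (IsScalarTower.toAlgHom κ k K) t),
          ptY (ptMap (IsScalarTower.toAlgHom κ k K) t)} ≤ ⊥ := by
        rw [IntermediateField.adjoin_le_iff]
        rintro w (hw | hw)
        · rw [hw, ptX_map]
          exact IntermediateField.mem_bot.mpr ⟨_, rfl⟩
        · rw [Set.mem_singleton_iff.mp hw, ptY_map]
          exact IntermediateField.mem_bot.mpr ⟨_, rfl⟩
      obtain ⟨w, hw⟩ := IntermediateField.mem_bot.mp (h1 z.2)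
      exact ⟨w, hw⟩)
  refine ⟨KM.map m e β, hβ.map _, ?_⟩
  rw [KM.map_map, he, hβδ]

end

/-- The structure theorem. -/
theorem gen_struct {κ : Type u} [Field κ] [Finite κ] (E : WeierstrassCurve κ) [EllW E] {N₀ : ℕ}
    (hN : IsNoncomm.{u} E N₀) (n d : ℕ) :
    ∃ N : ℕ, 0 < N ∧ ∀ {k K L : Type u} [Field k] [Field K] [Field L] [Algebra κ k] [Algebra κ K]
      [Algebra κ L] [Algebra k K] [Algebra k L] [Algebra K L] [IsScalarTower κ k K]
      [IsScalarTower κ k L] [IsScalarTower κ K L] [IsScalarTower k K L]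
      (x y : Fin n → L), IsProd (fun _ : Fin 1 => E) k (fun _ => 0) x y →
      ∀ (r : ℕ) (u : Fin r → L), AlgebraicIndependent K u →
      FiniteDimensional (IntermediateField.adjoin K (Set.range u)) L →
      Module.finrank (IntermediateField.adjoin K (Set.range u)) L = d →
      ∃ T : Fin n → Pt E K, ∀ (m : UFun.{u, z}) (a : KM m K), Unr a →
        ∃ (c : KM m k) (δ : Fin n → KM m K), Unr c ∧
          (∀ i, Unr (δ i) ∧ FromPt (k := k) m (T i) (δ i)) ∧
          N • a = KM.map m (algebraMap k K) c + ∑ i, δ i := by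
  obtain ⟨N, hN0, hfin⟩ := fin_struct.{u, z} E hN n d
  refine ⟨N, hN0, ?_⟩
  intro k K L _ _ _ _ _ _ _ _ _ _ _ _ _ x y hL r u hu hfd hdeg
  obtain ⟨K₁, hK₁⟩ : ∃ K₁, K₁ = IntermediateField.adjoin K (Set.range u) := ⟨_, rfl⟩
  rw [← hK₁] at hfd hdeg
  have t1 : IsScalarTower κ K K₁ := IsScalarTower.of_algebraMap_eq fun z =>
    Subtype.ext (IsScalarTower.algebraMap_apply κ K L z)
  have t2 : IsScalarTower k K K₁ := IsScalarTower.of_algebraMap_eq fun z =>
    Subtype.ext (IsScalarTower.algebraMap_apply k K L z)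
  have t3 : IsScalarTower κ k K₁ := IsScalarTower.of_algebraMap_eq fun z =>
    Subtype.ext (IsScalarTower.algebraMap_apply κ k L z)
  have t4 : IsScalarTower κ K₁ L := IsScalarTower.of_algebraMap_eq fun z => rfl
  have t5 : IsScalarTower k K₁ L := IsScalarTower.of_algebraMap_eq fun z => rfl
  obtain ⟨T₁, hT₁⟩ := hfin (k := k) (K := K₁) (L := L) x y hL hdeg
  have hmem : ∀ i, u i ∈ K₁ := fun i => by
    rw [hK₁]; exact IntermediateField.subset_adjoin _ _ ⟨i, rfl⟩
  obtain ⟨v, hv⟩ : ∃ v : Fin r → K₁, v = fun i => ⟨u i, hmem i⟩ := ⟨_, rfl⟩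
  have hvi : AlgebraicIndependent K v := by
    apply AlgebraicIndependent.of_comp K₁.val
    rw [hv]
    exact hu
  have hvt : IntermediateField.adjoin K (Set.range v) = ⊤ := by
    apply IntermediateField.map_injective K₁.val
    rw [IntermediateField.adjoin_map, ← AlgHom.fieldRange_eq_map, IntermediateField.fieldRange_val,
      ← Set.range_comp, hv]
    exact hK₁.symm
  choose T hT using fun i => point_purely (κ := κ) (E := E) v hvi hvt (T₁ i)
  refine ⟨T, fun m a ha => ?_⟩
  obtain ⟨c, δ₁, hc, hδ₁, h1⟩ := hT₁ m (KM.map m (algebraMap K K₁) a) (ha.map _)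
  have h2 : ∀ i, ∃ δ : KM m K, Unr δ ∧ FromPt (k := k) m (T i) δ ∧
      KM.map m (algebraMap K K₁) δ = δ₁ i := by
    intro i
    apply FromPt.descend
    rw [hT i]
    exact (hδ₁ i).2
  choose δ hδu hδf hδ using h2
  refine ⟨c, δ, hc, fun i => ⟨hδu i, hδf i⟩, map_purely_injective v hvi hvt ?_⟩
  rw [map_nsmul, h1, map_add, map_sum, KM.map_map, Finset.sum_congr rfl fun i _ => hδ i]
  congr 3
  ext z
  exact (IsScalarTower.algebraMap_apply k K K₁ z ▸ rfl)

section dichotomy

variable {κ : Type u} [Field κ] {E : WeierstrassCurve κ} [EllW E] {k K L : Type u} [Field k]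
  [Field K] [Field L] [Algebra κ k] [Algebra κ K] [Algebra κ L] [Algebra k K] [Algebra k L]
  [Algebra K L] [IsScalarTower κ k K] [IsScalarTower κ k L] [IsScalarTower κ K L]
  [IsScalarTower k K L]

/-- No multiple of a point over `K` which is not a point over `k` is a point over `k`. -/
lemma not_const_nsmul {n : ℕ} {x y : Fin n → L}
    (h : IsProd (fun _ : Fin 1 => E) k (fun _ : Fin n => 0) x y) {T : Pt E K}
    (hT : ¬ ∃ t : Pt E k, ptMap (IsScalarTower.toAlgHom κ k K) t = T) {N : ℕ} (hN : 0 < N) :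
    ¬ ∃ t : Pt E k, ptMap (IsScalarTower.toAlgHom κ k K) t = N • T := by
  have hg : Gen (IsScalarTower.toAlgHom κ k K) T := by
    by_contra h1
    exact hT (const_of_not_gen h T h1)
  have h2 := gen_nsmul_add hg hN.ne' 0
  rw [map_zero, add_zero] at h2
  rintro ⟨t, ht⟩
  rw [← ht] at h2
  apply h2
  change ptX _ ∈ cl _
  rw [ptX_map]
  exact subset_cl _ ⟨_, rfl⟩

end dichotomy

end UnrA
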