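import Pool.Agent.Lib.MP_859dd5_ag.EQ.Aff1

/-!
# Points of an elliptic curve over a field of rational functions
-/

namespace UnrA

universe u v w z

open Polynomial WeierstrassCurve
open scoped Classical
open UnrH3 (Pt FF ptX ptY ptMap Gen gpt base liftPt nu GoodW)
open UnrH3.Ell (EllW)

section core


variable {K : Type*} [Field K]

lemma B1_sq_of_coprime_mul [IsAlgClosed K] {a b c : K[X]} (hab : IsCoprime a b)
    (h : a * b = c ^ 2) : ∃ w : K[X], a = w ^ 2 := by
  obtain ⟨d, hd⟩ := exists_associated_pow_of_mul_eq_pow' hab h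
  obtain ⟨u, hu⟩ := hd
  obtain ⟨r, hr, hru⟩ := Polynomial.isUnit_iff.1 u.isUnit
  obtain ⟨e, he⟩ := IsAlgClosed.exists_pow_nat_eq r (n := 2) (by norm_num)
  refine ⟨d * C e, ?_⟩
  rw [← hu, mul_pow, ← C_pow, he, hru]

theorem B1_four_squares [IsAlgClosed K] (h2 : (2 : K) ≠ 0) (n : ℕ) : ∀ (A B : K[X]),
    IsCoprime A B → A.natDegree ≤ n → B.natDegree ≤ n → ∀ (l m : Fin 4 → K),
    (∀ i j, i ≠ j → l i * m j - l j * m i ≠ 0) →
    (∀ i, ∃ w : K[X], C (l i) * A + C (m i) * B = w ^ 2) →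
    A.natDegree = 0 ∧ B.natDegree = 0 := by
  induction n using Nat.strong_induction_on with
  | _ n ih =>
  intro A B hAB hA hB l m hlm hw
  rcases Nat.eq_zero_or_pos n with hn | hn
  · subst hn
    exact ⟨Nat.le_zero.1 hA, Nat.le_zero.1 hB⟩
  have hdet : l 0 * m 1 - l 1 * m 0 ≠ 0 := hlm 0 1 (by decide)
  obtain ⟨w0, hw0⟩ := hw 0
  obtain ⟨w1, hw1⟩ := hw 1
  obtain ⟨w2, hw2⟩ := hw 2
  obtain ⟨w3, hw3⟩ := hw 3
  set D := l 0 * m 1 - l 1 * m 0 with hD
  -- A and B in terms of the squares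
  have hA' : C D * A = C (m 1) * w0 ^ 2 - C (m 0) * w1 ^ 2 := by
    rw [← hw0, ← hw1, hD, C_sub, C_mul, C_mul]; ring
  have hB' : C D * B = C (l 0) * w1 ^ 2 - C (l 1) * w0 ^ 2 := by
    rw [← hw0, ← hw1, hD, C_sub, C_mul, C_mul]; ring
  have hDu : IsUnit (C D : K[X]) := Polynomial.isUnit_C.2 (isUnit_iff_ne_zero.2 hdet)
  -- coprimality of w0 and w1
  have hcop : IsCoprime w0 w1 := by
    obtain ⟨a, b, hab⟩ := hAB
    have h1 : IsCoprime (w0 ^ 2) (w1 ^ 2) := by
      refine ⟨(a * C (m 1) - b * C (l 1)) * C D⁻¹, (b * C (l 0) - a * C (m 0)) * C D⁻¹, ?_⟩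
      have h3 : (a * C (m 1) - b * C (l 1)) * w0 ^ 2 + (b * C (l 0) - a * C (m 0)) * w1 ^ 2
          = C D := by
        calc _ = a * (C (m 1) * w0 ^ 2 - C (m 0) * w1 ^ 2)
              + b * (C (l 0) * w1 ^ 2 - C (l 1) * w0 ^ 2) := by ring
          _ = C D * (a * A + b * B) := by rw [← hA', ← hB']; ring
          _ = C D := by rw [hab, mul_one]
      calc _ = ((a * C (m 1) - b * C (l 1)) * w0 ^ 2
            + (b * C (l 0) - a * C (m 0)) * w1 ^ 2) * C D⁻¹ := by ring
        _ = 1 := by rw [h3, ← C_mul, mul_inv_cancel₀ hdet, C_1]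
    exact (IsCoprime.pow_iff (by norm_num) (by norm_num)).1 h1
  -- degrees of w0 and w1
  have hdeg : ∀ (w : K[X]) (i : Fin 4), C (l i) * A + C (m i) * B = w ^ 2 →
      w.natDegree ≤ n / 2 := by
    intro w i h
    have h1 : (w ^ 2).natDegree ≤ n := by
      rw [← h]
      refine (natDegree_add_le _ _).trans (max_le ?_ ?_)
      · exact (natDegree_C_mul_le _ _).trans hA
      · exact (natDegree_C_mul_le _ _).trans hB
    rw [natDegree_pow] at h1
    omega
  -- a third combination gives two squares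
  have key : ∀ (i : Fin 4), i ≠ 0 → i ≠ 1 → ∀ w : K[X], C (l i) * A + C (m i) * B = w ^ 2 →
      ∃ a b : K, a ≠ 0 ∧ b ≠ 0 ∧ D * a ^ 2 = l i * m 1 - l 1 * m i ∧
        D * b ^ 2 = -(l 0 * m i - l i * m 0) ∧
        (∃ v, C a * w0 + C b * w1 = v ^ 2) ∧ (∃ v, C a * w0 + C (-b) * w1 = v ^ 2) := by
    intro i hi0 hi1 w hw
    obtain ⟨a, ha⟩ := IsAlgClosed.exists_pow_nat_eq ((l i * m 1 - l 1 * m i) / D)
      (n := 2) (by norm_num)
    obtain ⟨b, hb⟩ := IsAlgClosed.exists_pow_nat_eq (-(l 0 * m i - l i * m 0) / D)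
      (n := 2) (by norm_num)
    have ha' : D * a ^ 2 = l i * m 1 - l 1 * m i := by rw [ha]; field_simp
    have hb' : D * b ^ 2 = -(l 0 * m i - l i * m 0) := by rw [hb]; field_simp
    have ha0 : a ≠ 0 := by
      rintro rfl
      apply hlm i 1 hi1
      rw [← ha']; ring
    have hb0 : b ≠ 0 := by
      rintro rfl
      apply hlm 0 i (Ne.symm hi0)
      have : -(l 0 * m i - l i * m 0) = 0 := by rw [← hb']; ring
      exact neg_eq_zero.1 this
    have hfac : (C a * w0 + C b * w1) * (C a * w0 + C (-b) * w1) = w ^ 2 := by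
      have h1 : C D * ((C a * w0 + C b * w1) * (C a * w0 + C (-b) * w1)) = C D * w ^ 2 := by
        calc _ = C (D * a ^ 2) * w0 ^ 2 - C (D * b ^ 2) * w1 ^ 2 := by
              simp only [C_neg, C_mul, C_pow]; ring
          _ = C (l i) * (C (m 1) * w0 ^ 2 - C (m 0) * w1 ^ 2)
              + C (m i) * (C (l 0) * w1 ^ 2 - C (l 1) * w0 ^ 2) := by
              rw [ha', hb']; simp only [C_neg, C_mul, C_sub]; ring
          _ = C D * (C (l i) * A + C (m i) * B) := by rw [← hA', ← hB']; ring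
          _ = _ := by rw [hw]
      exact hDu.mul_left_cancel h1
    have hc : IsCoprime (C a * w0 + C b * w1) (C a * w0 + C (-b) * w1) := by
      obtain ⟨p, q, hpq⟩ := hcop
      have hu : ∀ r : K, r ≠ 0 → C r * C r⁻¹ = (1 : K[X]) := by
        intro r hr; rw [← C_mul, mul_inv_cancel₀ hr, C_1]
      refine ⟨C 2⁻¹ * (p * C a⁻¹ + q * C b⁻¹), C 2⁻¹ * (p * C a⁻¹ - q * C b⁻¹), ?_⟩
      have h22 : (C (2⁻¹ : K)) * 2 = 1 := by
        have : (2 : K[X]) = C 2 := (map_ofNat C 2).symm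
        rw [this, ← C_mul, inv_mul_cancel₀ h2, C_1]
      rw [C_neg]
      linear_combination (C (2⁻¹ : K) * 2 * p * w0) * hu a ha0
        + (C (2⁻¹ : K) * 2 * q * w1) * hu b hb0 + (p * w0 + q * w1) * h22 + hpq
    refine ⟨a, b, ha0, hb0, ha', hb', B1_sq_of_coprime_mul hc hfac, ?_⟩
    exact B1_sq_of_coprime_mul hc.symm (by rw [mul_comm]; exact hfac)
  obtain ⟨a, b, ha0, hb0, ha, hb, hab1, hab2⟩ := key 2 (by decide) (by decide) w2 hw2
  obtain ⟨c, d, hc0, hd0, hc, hd, hcd1, hcd2⟩ := key 3 (by decide) (by decide) w3 hw3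
  have hne : ∀ s : K, s ^ 2 = 1 → a * d - s * (b * c) ≠ 0 := by
    intro s hs h
    have h1 : a * d = s * (b * c) := sub_eq_zero.1 h
    have h2' : a ^ 2 * d ^ 2 = b ^ 2 * c ^ 2 := by
      calc _ = (a * d) ^ 2 := by ring
        _ = s ^ 2 * (b ^ 2 * c ^ 2) := by rw [h1]; ring
        _ = _ := by rw [hs, one_mul]
    have h3 : (D * a ^ 2) * (D * d ^ 2) = (D * b ^ 2) * (D * c ^ 2) := by
      linear_combination D ^ 2 * h2'
    rw [ha, hd, hb, hc] at h3
    have h4 : D * (l 2 * m 3 - l 3 * m 2) = 0 := by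
      rw [hD]; linear_combination (-1 : K) * h3
    rcases mul_eq_zero.1 h4 with h5 | h5
    · exact hdet h5
    · exact hlm 2 3 (by decide) h5
  have h5 : w0.natDegree = 0 ∧ w1.natDegree = 0 := by
    refine ih (n / 2) (Nat.div_lt_self hn (by norm_num)) w0 w1 hcop (hdeg w0 0 hw0)
      (hdeg w1 1 hw1) ![a, a, c, c] ![b, -b, d, -d] ?_ ?_
    · have e1 : a * d - b * c ≠ 0 := by have := hne 1 (by ring); rwa [one_mul] at this
      have e2 : a * d + b * c ≠ 0 := by
        have := hne (-1) (by ring)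
        intro h; apply this; linear_combination h
      have e3 : a * b ≠ 0 := mul_ne_zero ha0 hb0
      have e4 : c * d ≠ 0 := mul_ne_zero hc0 hd0
      have e5 : (2 : K) * (a * b) ≠ 0 := mul_ne_zero h2 e3
      have e6 : (2 : K) * (c * d) ≠ 0 := mul_ne_zero h2 e4
      intro i j hij
      fin_cases i <;> fin_cases j <;> simp at hij ⊢ <;> intro h0
      · exact e5 (by linear_combination (-1 : K) * h0)
      · exact e1 (by linear_combination h0)
      · exact e2 (by linear_combination (-1 : K) * h0)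
      · exact e5 (by linear_combination h0)
      · exact e2 (by linear_combination h0)
      · exact e1 (by linear_combination (-1 : K) * h0)
      · exact e1 (by linear_combination (-1 : K) * h0)
      · exact e2 (by linear_combination (-1 : K) * h0)
      · exact e6 (by linear_combination (-1 : K) * h0)
      · exact e2 (by linear_combination h0)
      · exact e1 (by linear_combination h0)
      · exact e6 (by linear_combination h0)
    · intro i
      fin_cases i
      · exact hab1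
      · exact hab2
      · exact hcd1
      · exact hcd2
  have hc0' : ∀ w : K[X], w.natDegree = 0 → (w ^ 2).natDegree = 0 := by
    intro w hw; rw [natDegree_pow, hw]
  have hfin : ∀ (P Q : K[X]) (r s : K), P.natDegree = 0 → Q.natDegree = 0 →
      (C r * P - C s * Q).natDegree = 0 := by
    intro P Q r s hP hQ
    have := (natDegree_sub_le (C r * P) (C s * Q)).trans
      (max_le_max (natDegree_C_mul_le r P) (natDegree_C_mul_le s Q))
    rw [hP, hQ] at this
    simpa using this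
  have hA0 : (C D * A).natDegree = 0 := by
    rw [hA']; exact hfin _ _ _ _ (hc0' _ h5.1) (hc0' _ h5.2)
  have hB0 : (C D * B).natDegree = 0 := by
    rw [hB']; exact hfin _ _ _ _ (hc0' _ h5.2) (hc0' _ h5.1)
  rw [natDegree_C_mul hdet] at hA0 hB0
  exact ⟨hA0, hB0⟩

theorem B1_cubic_square_const [IsAlgClosed K] (h2 : (2 : K) ≠ 0) {e1 e2 e3 : K} (h12 : e1 ≠ e2)
    (h13 : e1 ≠ e3) (h23 : e2 ≠ e3) {A B Z : K[X]} (hAB : IsCoprime A B)
    (h : Z ^ 2 = B * ((A - C e1 * B) * (A - C e2 * B) * (A - C e3 * B))) :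
    A.natDegree = 0 ∧ B.natDegree = 0 := by
  have hB : ∀ e : K, IsCoprime B (A - C e * B) := by
    intro e
    obtain ⟨p, q, hpq⟩ := hAB
    exact ⟨q + p * C e, p, by linear_combination hpq⟩
  have hE : ∀ e e' : K, e ≠ e' → IsCoprime (A - C e * B) (A - C e' * B) := by
    intro e e' he
    obtain ⟨p, q, hpq⟩ := hAB
    have hd : e - e' ≠ 0 := sub_ne_zero.2 he
    have hu : C (e - e')⁻¹ * (C e - C e') = (1 : K[X]) := by
      rw [← C_sub, ← C_mul, inv_mul_cancel₀ hd, C_1]
    refine ⟨C (e - e')⁻¹ * (-(p * C e') - q), C (e - e')⁻¹ * (p * C e + q), ?_⟩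
    linear_combination (p * A + q * B) * hu + hpq
  have s0 : ∃ w : K[X], B = w ^ 2 :=
    B1_sq_of_coprime_mul (((hB e1).mul_right (hB e2)).mul_right (hB e3)) h.symm
  have s1 : ∃ w : K[X], A - C e1 * B = w ^ 2 := by
    refine B1_sq_of_coprime_mul (b := B * ((A - C e2 * B) * (A - C e3 * B))) (c := Z) ?_ ?_
    · exact (hB e1).symm.mul_right ((hE e1 e2 h12).mul_right (hE e1 e3 h13))
    · rw [h]; ring
  have s2 : ∃ w : K[X], A - C e2 * B = w ^ 2 := by
    refine B1_sq_of_coprime_mul (b := B * ((A - C e1 * B) * (A - C e3 * B))) (c := Z) ?_ ?_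
    · exact (hB e2).symm.mul_right ((hE e2 e1 h12.symm).mul_right (hE e2 e3 h23))
    · rw [h]; ring
  have s3 : ∃ w : K[X], A - C e3 * B = w ^ 2 := by
    refine B1_sq_of_coprime_mul (b := B * ((A - C e1 * B) * (A - C e2 * B))) (c := Z) ?_ ?_
    · exact (hB e3).symm.mul_right ((hE e3 e1 h13.symm).mul_right (hE e3 e2 h23.symm))
    · rw [h]; ring
  refine B1_four_squares h2 (max A.natDegree B.natDegree) A B hAB (le_max_left _ _)
    (le_max_right _ _) ![0, 1, 1, 1] ![1, -e1, -e2, -e3] ?_ ?_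
  · have d12 : e1 - e2 ≠ 0 := sub_ne_zero.2 h12
    have d13 : e1 - e3 ≠ 0 := sub_ne_zero.2 h13
    have d23 : e2 - e3 ≠ 0 := sub_ne_zero.2 h23
    intro i j hij
    fin_cases i <;> fin_cases j <;> simp at hij ⊢ <;> intro h0
    · exact d12 (by linear_combination h0)
    · exact d13 (by linear_combination h0)
    · exact d12 (by linear_combination (-1 : K) * h0)
    · exact d23 (by linear_combination h0)
    · exact d13 (by linear_combination (-1 : K) * h0)
    · exact d23 (by linear_combination (-1 : K) * h0)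
  · intro i
    fin_cases i
    · obtain ⟨w, hw⟩ := s0
      exact ⟨w, by simp [← hw]⟩
    · obtain ⟨w, hw⟩ := s1
      exact ⟨w, by rw [← hw]; simp; ring⟩
    · obtain ⟨w, hw⟩ := s2
      exact ⟨w, by rw [← hw]; simp; ring⟩
    · obtain ⟨w, hw⟩ := s3
      exact ⟨w, by rw [← hw]; simp; ring⟩

/-- Coprime polynomials `A`, `B` over any field of characteristic not 2 for which
`B (A³ + a A² B + b A B² + c B³)` is a square are constant, if the cubic is separable. -/
theorem B1_poly_const (h2 : (2 : K) ≠ 0) {a b c : K}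
    (hsep : (X ^ 3 + C a * X ^ 2 + C b * X + C c : K[X]).Separable) {A B Z : K[X]}
    (hAB : IsCoprime A B)
    (h : Z ^ 2 = B * (A ^ 3 + C a * A ^ 2 * B + C b * A * B ^ 2 + C c * B ^ 3)) :
    A.natDegree = 0 ∧ B.natDegree = 0 := by
  set L := AlgebraicClosure K
  set φ : K →+* L := algebraMap K L with hφ
  have hsep' := hsep.map (f := φ)
  set g : L[X] := (X ^ 3 + C a * X ^ 2 + C b * X + C c : K[X]).map φ with hg
  have hg' : g = X ^ 3 + C (φ a) * X ^ 2 + C (φ b) * X + C (φ c) := by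
    rw [hg]; simp
  have hdeg : g.natDegree = 3 := by rw [hg']; compute_degree!
  have hmon : g.Monic := by rw [hg']; monicity!
  have hsplit : g.Splits := IsAlgClosed.splits g
  have hcard : g.roots.card = 3 := by
    rw [← hdeg]; exact hsplit.natDegree_eq_card_roots.symm
  have hnd : g.roots.Nodup := nodup_roots hsep'
  obtain ⟨e1, e2, e3, he⟩ := Multiset.card_eq_three.1 hcard
  have hgf : g = (X - C e1) * (X - C e2) * (X - C e3) := by
    have := hsplit.eq_prod_roots_of_monic hmon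
    rw [he] at this
    rw [this]
    simp [mul_assoc]
  rw [he] at hnd
  have hne : e1 ≠ e2 ∧ e1 ≠ e3 ∧ e2 ≠ e3 := by
    simp at hnd
    tauto
  have hh2 : (2 : L) ≠ 0 := by
    have := (_root_.map_ne_zero φ).2 h2
    rwa [map_ofNat] at this
  have hco : IsCoprime (A.map φ) (B.map φ) := hAB.map (mapRingHom φ)
  -- the homogeneous identity
  have hcoef : X ^ 3 + C (φ a) * X ^ 2 + C (φ b) * X + C (φ c)
      = (X - C e1) * (X - C e2) * (X - C e3) := by rw [← hg', hgf]
  have hexp : (X - C e1) * (X - C e2) * (X - C e3) = X ^ 3 + C (-(e1 + e2 + e3)) * X ^ 2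
      + C (e1 * e2 + e1 * e3 + e2 * e3) * X + C (-(e1 * e2 * e3)) := by
    simp only [C_neg, C_add, C_mul]; ring
  rw [hexp] at hcoef
  have c2 := congrArg (fun p => coeff p 2) hcoef
  have c1 := congrArg (fun p => coeff p 1) hcoef
  have c0 := congrArg (fun p => coeff p 0) hcoef
  simp only [coeff_add, coeff_C_mul, coeff_X_pow, coeff_X, coeff_C] at c2 c1 c0
  norm_num at c2 c1 c0
  have hm : (Z.map φ) ^ 2 = B.map φ * ((A.map φ - C e1 * B.map φ) * (A.map φ - C e2 * B.map φ)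
      * (A.map φ - C e3 * B.map φ)) := by
    have := congrArg (Polynomial.map φ) h
    simp only [Polynomial.map_pow, Polynomial.map_mul, Polynomial.map_add, map_C] at this
    rw [this, c2, c1, c0]
    simp only [C_neg, C_add, C_mul]
    ring
  have := B1_cubic_square_const hh2 hne.1 hne.2.1 hne.2.2 hco hm
  rwa [natDegree_map, natDegree_map] at this

/-- A point of `y² = x³ + a x² + b x + c` with coordinates in `K(t)` is constant. -/
theorem B1_ratFunc_const (h2 : (2 : K) ≠ 0) {a b c : K}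
    (hsep : (X ^ 3 + C a * X ^ 2 + C b * X + C c : K[X]).Separable) {x y : RatFunc K}
    (h : y ^ 2 = x ^ 3 + RatFunc.C a * x ^ 2 + RatFunc.C b * x + RatFunc.C c) :
    ∃ x0 y0 : K, x = RatFunc.C x0 ∧ y = RatFunc.C y0 := by
  have hden : x.denom ≠ 0 := x.denom_ne_zero
  set A := x.num with hA
  set B := x.denom with hB
  have hxB : x * algebraMap K[X] (RatFunc K) B = algebraMap K[X] (RatFunc K) A := by
    have h1 : algebraMap K[X] (RatFunc K) B ≠ 0 := RatFunc.algebraMap_ne_zero hden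
    have h3 := x.num_div_denom
    field_simp at h3
    rw [hA, hB]
    rw [div_eq_iff h1] at h3
    exact h3.symm
  have hC : ∀ r : K, (RatFunc.C r : RatFunc K) = algebraMap K[X] (RatFunc K) (C r) := by
    intro r; exact (RatFunc.algebraMap_C r).symm
  have hz : (y * algebraMap K[X] (RatFunc K) B ^ 2) ^ 2 = algebraMap K[X] (RatFunc K)
      (B * (A ^ 3 + C a * A ^ 2 * B + C b * A * B ^ 2 + C c * B ^ 3)) := by
    rw [mul_pow, h]
    simp only [map_mul, map_add, map_pow, hC, ← hxB]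
    ring
  have hint : _root_.IsIntegral K[X] (y * algebraMap K[X] (RatFunc K) B ^ 2) := by
    refine ⟨X ^ 2 - C (B * (A ^ 3 + C a * A ^ 2 * B + C b * A * B ^ 2 + C c * B ^ 3)),
      monic_X_pow_sub_C _ (by norm_num), ?_⟩
    rw [eval₂_sub, eval₂_X_pow, eval₂_C, hz, sub_self]
  obtain ⟨Z, hZ⟩ := IsIntegrallyClosed.isIntegral_iff.1 hint
  have hZ2 : Z ^ 2 = B * (A ^ 3 + C a * A ^ 2 * B + C b * A * B ^ 2 + C c * B ^ 3) := by
    apply RatFunc.algebraMap_injective K
    rw [map_pow, hZ, hz]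
  obtain ⟨dA, dB⟩ := B1_poly_const h2 hsep x.isCoprime_num_denom hZ2
  obtain ⟨A0, hA0⟩ : ∃ r, A = C r := ⟨_, eq_C_of_natDegree_eq_zero dA⟩
  obtain ⟨B0, hB0⟩ : ∃ r, B = C r := ⟨_, eq_C_of_natDegree_eq_zero dB⟩
  have hB00 : B0 ≠ 0 := by
    rintro rfl
    exact hden (by rw [hB0, C_0])
  have hx : x = RatFunc.C (A0 / B0) := by
    rw [hA0, hB0, ← hC, ← hC] at hxB
    rw [map_div₀, eq_div_iff ((_root_.map_ne_zero _).2 hB00), hxB]
  have hint' : _root_.IsIntegral K[X] y := by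
    have h7 : y ^ 2 = RatFunc.C ((A0 / B0) ^ 3 + a * (A0 / B0) ^ 2 + b * (A0 / B0) + c) := by
      rw [h, hx]; simp only [map_add, map_mul, map_pow]
    generalize ((A0 / B0) ^ 3 + a * (A0 / B0) ^ 2 + b * (A0 / B0) + c) = r at h7
    refine ⟨X ^ 2 - C (C r), monic_X_pow_sub_C _ (by norm_num), ?_⟩
    rw [eval₂_sub, eval₂_X_pow, eval₂_C, h7, hC, sub_self]
  obtain ⟨P, hP⟩ := IsIntegrallyClosed.isIntegral_iff.1 hint'
  have hP2 : P ^ 2 = C ((A0 / B0) ^ 3 + a * (A0 / B0) ^ 2 + b * (A0 / B0) + c) := by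
    apply RatFunc.algebraMap_injective K
    rw [map_pow, hP, h, hx, ← hC]; simp only [map_add, map_mul, map_pow]
  have dP : P.natDegree = 0 := by
    have := congrArg natDegree hP2
    rw [natDegree_pow, natDegree_C] at this
    omega
  obtain ⟨P0, hP0⟩ : ∃ r, P = C r := ⟨_, eq_C_of_natDegree_eq_zero dP⟩
  exact ⟨_, P0, hx, by rw [← hP, hP0, hC]⟩


end core

/-- An elliptic curve has only constant points over `K(t)`. -/
theorem rat_point {κ K : Type u} [Field κ] [Field K] [Algebra κ K] {E : WeierstrassCurve κ}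
    [EllW E] (T : Pt E (RatFunc K)) :
    ∃ T₀ : Pt E K, ptMap (IsScalarTower.toAlgHom κ K (RatFunc K)) T₀ = T := by
  rcases T with _ | ⟨x, y, hxy⟩
  · exact ⟨0, map_zero _⟩
  have hal : ∀ r : κ, algebraMap κ (RatFunc K) r = RatFunc.C (algebraMap κ K r) := by
    intro r
    rw [IsScalarTower.algebraMap_apply κ K (RatFunc K), RatFunc.algebraMap_eq_C]
  have heq := ((E⁄(RatFunc K)).toAffine.equation_iff x y).mp hxy.1
  have a1 : (E⁄(RatFunc K)).a₁ = 0 := by
    change algebraMap κ (RatFunc K) E.a₁ = 0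
    rw [EllW.a1, map_zero]
  have a3 : (E⁄(RatFunc K)).a₃ = 0 := by
    change algebraMap κ (RatFunc K) E.a₃ = 0
    rw [EllW.a3, map_zero]
  have a2 : (E⁄(RatFunc K)).a₂ = RatFunc.C (algebraMap κ K E.a₂) := hal _
  have a4 : (E⁄(RatFunc K)).a₄ = RatFunc.C (algebraMap κ K E.a₄) := hal _
  have a6 : (E⁄(RatFunc K)).a₆ = RatFunc.C (algebraMap κ K E.a₆) := hal _
  change y ^ 2 + (E⁄(RatFunc K)).a₁ * x * y + (E⁄(RatFunc K)).a₃ * y = x ^ 3 +
    (E⁄(RatFunc K)).a₂ * x ^ 2 + (E⁄(RatFunc K)).a₄ * x + (E⁄(RatFunc K)).a₆ at heq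
  rw [a1, a3, a2, a4, a6, zero_mul, zero_mul, add_zero, add_zero] at heq
  have h2 : (2 : K) ≠ 0 := by
    have := (_root_.map_ne_zero (algebraMap κ K)).2 (EllW.two (W := E))
    rwa [map_ofNat] at this
  have hd := (_root_.map_ne_zero (algebraMap κ K)).2 (EllW.disc (W := E))
  simp only [map_sub, map_add, map_mul, map_pow, map_ofNat] at hd
  set a := algebraMap κ K E.a₂
  set b := algebraMap κ K E.a₄
  set c := algebraMap κ K E.a₆
  have hsep : (X ^ 3 + C a * X ^ 2 + C b * X + C c : K[X]).Separable := by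
    set d := a ^ 2 * b ^ 2 - 4 * b ^ 3 - 4 * a ^ 3 * c + 18 * a * b * c - 27 * c ^ 2 with hdd
    have hder : derivative (X ^ 3 + C a * X ^ 2 + C b * X + C c : K[X]) =
        3 * X ^ 2 + 2 * C a * X + C b := by
      have h3 : (C (3 : K) : K[X]) = 3 := map_ofNat C 3
      have h2' : (C (2 : K) : K[X]) = 2 := map_ofNat C 2
      simp only [derivative_add, derivative_X_pow, derivative_C_mul, derivative_X, derivative_C]
      norm_num [h3, h2']
      ring
    have hCd : (C d : K[X]) = C a ^ 2 * C b ^ 2 - 4 * C b ^ 3 - 4 * C a ^ 3 * C c +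
        18 * C a * C b * C c - 27 * C c ^ 2 := by
      rw [hdd]
      simp only [C_sub, C_add, C_mul, C_pow, map_ofNat]
    have hu : C d⁻¹ * C d = (1 : K[X]) := by rw [← C_mul, inv_mul_cancel₀ hd, C_1]
    refine ⟨C d⁻¹ * (-((6 * C a ^ 2 - 18 * C b) * X + (4 * C a ^ 3 - 15 * C a * C b + 27 * C c))),
      C d⁻¹ * (-((-2 * C a ^ 2 + 6 * C b) * X ^ 2 + (7 * C a * C b - 2 * C a ^ 3 - 9 * C c) * X +
      (4 * C b ^ 2 - C a ^ 2 * C b - 3 * C a * C c))), ?_⟩
    rw [hder, ← hu, hCd]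
    ring
  obtain ⟨x0, y0, hx, hy⟩ := B1_ratFunc_const h2 hsep heq
  have hns : (E⁄K).toAffine.Nonsingular x0 y0 := by
    have h1 : (IsScalarTower.toAlgHom κ K (RatFunc K)) x0 = x := by
      rw [hx, IsScalarTower.coe_toAlgHom', RatFunc.algebraMap_eq_C]
    have h3 : (IsScalarTower.toAlgHom κ K (RatFunc K)) y0 = y := by
      rw [hy, IsScalarTower.coe_toAlgHom', RatFunc.algebraMap_eq_C]
    refine (Affine.baseChange_nonsingular E.toAffine
      (f := IsScalarTower.toAlgHom κ K (RatFunc K))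
      (RingHom.injective _) x0 y0).1 ?_
    rw [h1, h3]
    exact hxy
  refine ⟨.some x0 y0 hns, ?_⟩
  subst hx hy
  rfl

end UnrA
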