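import Pool.Agent.Lib.MP_859dd5_ag.SD.B1
import Pool.Agent.Lib.MP_859dd5_ag.EQ.Fun

/-!
# The points of an elliptic curve as a functor of fields
-/

namespace UnrA

universe u v w z

open Polynomial WeierstrassCurve
open scoped Classical
open UnrH3 (Pt FF ptX ptY ptMap Gen gpt base liftPt nu GoodW)
open UnrH3.Ell (EllW)

/-- A separably closed extension of the field `F`, with a structure of extension of `κ`. -/
structure B2Ext (κ : Type u) [Field κ] (F : Type u) [Field F] where
  /-- the field -/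
  Ω : Type u
  /-- it is a field -/
  [fld : Field Ω]
  /-- it contains `κ` -/
  [alg : Algebra κ Ω]
  /-- it is separably closed -/
  [sep : IsSepClosed Ω]
  /-- it contains `F` -/
  i : F →+* Ω

attribute [instance] B2Ext.fld B2Ext.alg B2Ext.sep

section

variable {κ : Type u} [Field κ] (E : WeierstrassCurve κ) [EllW E]

/-- Restriction to a smaller field. -/
def B2Ext.comp {F F₂ : Type u} [Field F] [Field F₂] (e : B2Ext κ F₂) (f : F →+* F₂) :
    B2Ext κ F where
  Ω := e.Ω
  i := e.i.comp f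

/-- The group of the natural families of points over the separably closed extensions of `F`. -/
def b2Fam (F : Type u) [Field F] : AddSubgroup (∀ e : B2Ext κ F, Pt E e.Ω) where
  carrier := {P | ∀ (e e' : B2Ext κ F) (g : e.Ω →ₐ[κ] e'.Ω), (∀ z : F, g (e.i z) = e'.i z) →
    ptMap g (P e) = P e'}
  add_mem' := by
    intro P Q hP hQ e e' g hg
    rw [Pi.add_apply, Pi.add_apply, map_add, hP e e' g hg, hQ e e' g hg]
  zero_mem' := by
    intro e e' g hg
    rw [Pi.zero_apply, Pi.zero_apply, map_zero]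
  neg_mem' := by
    intro P hP e e' g hg
    rw [Pi.neg_apply, Pi.neg_apply, map_neg, hP e e' g hg]

/-- Functoriality. -/
noncomputable def b2Map {F F₂ : Type u} [Field F] [Field F₂] (f : F →+* F₂) : b2Fam E F →+ b2Fam E F₂ where
  toFun P := ⟨fun e => P.1 (e.comp f), fun e e' g hg =>
    P.2 (e.comp f) (e'.comp f) g fun z => hg (f z)⟩
  map_zero' := rfl
  map_add' _ _ := rfl

/-- The groups of natural families with all classes unramified. -/
noncomputable def b2Groups : FieldGroups.{u, u + 1} where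
  obj F _ := b2Fam E F
  nr _ _ := ⊤
  map f := b2Map E f

end


section lemmas


/-- Homomorphisms of the field of rational functions. -/
private lemma b2_ratHom {F Ω : Type u} [Field F] [Field Ω] (i : F →+* Ω) (τ : Ω)
    (hτ : ∀ p : F[X], p.eval₂ i τ = 0 → p = 0) :
    ∃ h : RatFunc F →+* Ω, (∀ z, h (algebraMap F (RatFunc F) z) = i z) ∧ h RatFunc.X = τ := by
  have hinj : Function.Injective (eval₂RingHom i τ) :=
    (injective_iff_map_eq_zero _).mpr fun p hp => hτ p hp
  refine ⟨IsFractionRing.lift (A := F[X]) (K := RatFunc F) hinj, fun z => ?_, ?_⟩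
  · rw [IsScalarTower.algebraMap_apply F F[X] (RatFunc F), IsFractionRing.lift_algebraMap]
    simp
  · rw [← RatFunc.algebraMap_X, IsFractionRing.lift_algebraMap]
    simp

private lemma b2_hom_ext {F Ω : Type u} [Field F] [Field Ω] {h h' : RatFunc F →+* Ω}
    (h1 : ∀ z, h (algebraMap F (RatFunc F) z) = h' (algebraMap F (RatFunc F) z))
    (h2 : h RatFunc.X = h' RatFunc.X) : h = h' := by
  apply IsLocalization.ringHom_ext (nonZeroDivisors F[X])
  apply Polynomial.ringHom_ext
  · intro a
    have := h1 a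
    rw [IsScalarTower.algebraMap_apply F F[X] (RatFunc F)] at this
    simpa using this
  · have := h2
    rw [← RatFunc.algebraMap_X] at this
    simpa using this

/-- The kernel of a homomorphism of the field of rational functions. -/
private lemma b2_transc {F Ω : Type u} [Field F] [Field Ω] (h : RatFunc F →+* Ω) (p : F[X])
    (hp : p.eval₂ (h.comp (algebraMap F (RatFunc F))) (h RatFunc.X) = 0) : p = 0 := by
  have h1 : h (algebraMap F[X] (RatFunc F) p) = 0 := by
    rw [← hp]
    have : (h.comp (algebraMap F[X] (RatFunc F))) =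
        eval₂RingHom (h.comp (algebraMap F (RatFunc F))) (h RatFunc.X) := by
      apply Polynomial.ringHom_ext
      · intro a
        rw [RingHom.comp_apply, coe_eval₂RingHom, eval₂_C, RingHom.comp_apply,
          IsScalarTower.algebraMap_apply F F[X] (RatFunc F)]
        rfl
      · rw [RingHom.comp_apply, coe_eval₂RingHom, eval₂_X, RatFunc.algebraMap_X]
    exact DFunLike.congr_fun this p
  rw [map_eq_zero] at h1
  exact (map_eq_zero_iff _ (RatFunc.algebraMap_injective F)).mp h1

/-- A point whose coordinates come from a smaller field. -/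
private lemma b2_descend {κ : Type u} [Field κ] {E : WeierstrassCurve κ} {F Ω : Type u} [Field F]
    [Field Ω] [Algebra κ F] [Algebra κ Ω] (g : F →ₐ[κ] Ω) (P : Pt E Ω)
    (hx : ∀ x y h, P = Affine.Point.some x y h → x ∈ Set.range g ∧ y ∈ Set.range g) :
    ∃ Q : Pt E F, ptMap g Q = P := by
  rcases P with _ | ⟨x, y, h⟩
  · exact ⟨0, map_zero _⟩
  · obtain ⟨⟨x', rfl⟩, ⟨y', rfl⟩⟩ := hx x y h rfl
    exact ⟨Affine.Point.some x' y' ((E.toAffine.baseChange_nonsingular g.injective ..).mp h), rfl⟩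


end lemmas


section props

variable {κ : Type u} [Field κ] (E : WeierstrassCurve κ) [EllW E]

omit [EllW E] in
private lemma b2_inj {F F₂ : Type u} [Field F] [Field F₂] {e : B2Ext κ F} {e' : B2Ext κ F₂}
    (g : e.Ω →ₐ[κ] e'.Ω) {P Q : Pt E e.Ω} (h : ptMap g P = ptMap g Q) : P = Q :=
  Affine.Point.map_injective (f := g) h

omit [EllW E] in
private lemma b2_inj_field {K : Type u} [Field K] [Algebra κ K] {F₂ : Type u} [Field F₂]
    {e' : B2Ext κ F₂} (g : K →ₐ[κ] e'.Ω) {P Q : Pt E K} (h : ptMap g P = ptMap g Q) : P = Q :=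
  Affine.Point.map_injective (f := g) h

omit [EllW E] in
private lemma b2_isFunctor : (b2Groups E).IsFunctor :=
  ⟨fun _ => rfl, fun _ _ _ => rfl⟩

omit [EllW E] in
private lemma b2_mapsUnramified : (b2Groups E).MapsUnramified := fun _ _ _ => trivial

/-- The algebraic closure of the rational functions over an extension. -/
private noncomputable def b2Big {F : Type u} [Field F] (e : B2Ext κ F)
    (h : RatFunc F →+* AlgebraicClosure (RatFunc e.Ω)) : B2Ext κ (RatFunc F) where
  Ω := AlgebraicClosure (RatFunc e.Ω)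
  alg := (((algebraMap (RatFunc e.Ω) (AlgebraicClosure (RatFunc e.Ω))).comp
    (algebraMap e.Ω (RatFunc e.Ω))).comp (algebraMap κ e.Ω)).toAlgebra
  sep := inferInstance
  i := h

/-- The embedding in it. -/
private noncomputable def b2BigHom {F : Type u} [Field F] (e : B2Ext κ F)
    (h : RatFunc F →+* AlgebraicClosure (RatFunc e.Ω)) : e.Ω →ₐ[κ] (b2Big e h).Ω where
  toRingHom := (algebraMap (RatFunc e.Ω) (AlgebraicClosure (RatFunc e.Ω))).comp
    (algebraMap e.Ω (RatFunc e.Ω))
  commutes' _ := rfl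

private lemma b2_exists_big {F : Type u} [Field F] (e : B2Ext κ F) :
    ∃ h : RatFunc F →+* AlgebraicClosure (RatFunc e.Ω),
      ∀ z : F, b2BigHom e h (e.i z) = h (algebraMap F (RatFunc F) z) := by
  let g : e.Ω →+* AlgebraicClosure (RatFunc e.Ω) :=
    (algebraMap (RatFunc e.Ω) (AlgebraicClosure (RatFunc e.Ω))).comp
    (algebraMap e.Ω (RatFunc e.Ω))
  obtain ⟨h, h1, -⟩ := b2_ratHom (F := F) (g.comp e.i)
    (algebraMap (RatFunc e.Ω) (AlgebraicClosure (RatFunc e.Ω)) RatFunc.X) (fun p hp => by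
      have h2 : (p.map e.i).eval₂ ((algebraMap (RatFunc e.Ω)
          (AlgebraicClosure (RatFunc e.Ω))).comp (algebraMap e.Ω (RatFunc e.Ω)))
          (algebraMap (RatFunc e.Ω) (AlgebraicClosure (RatFunc e.Ω)) RatFunc.X) = 0 := by
        rw [eval₂_map]; exact hp
      have h3 := b2_transc _ _ h2
      exact (Polynomial.map_eq_zero_iff e.i.injective).mp h3)
  exact ⟨h, fun z => (h1 z).symm⟩

omit [EllW E] in
private lemma b2_ratInjective : (b2Groups E).RatInjective := by
  intro F _ x hx
  apply Subtype.ext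
  funext e
  obtain ⟨h, hh⟩ := b2_exists_big e
  have h1 := x.2 e ((b2Big e h).comp (algebraMap F (RatFunc F))) (b2BigHom e h) hh
  have h2 : x.1 ((b2Big e h).comp (algebraMap F (RatFunc F))) = 0 :=
    congr_fun (congr_arg Subtype.val hx) (b2Big e h)
  rw [h2] at h1
  exact b2_inj E (b2BigHom e h) (h1.trans (map_zero _).symm)

/-- The algebraic closure of an extension. -/
private noncomputable def b2Clos {K L : Type u} [Field K] [Field L] (e : B2Ext κ K)
    (l : L →+* AlgebraicClosure e.Ω) : B2Ext κ L where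
  Ω := AlgebraicClosure e.Ω
  alg := ((algebraMap e.Ω (AlgebraicClosure e.Ω)).comp (algebraMap κ e.Ω)).toAlgebra
  sep := inferInstance
  i := l

/-- The embedding in it. -/
private noncomputable def b2ClosHom {K L : Type u} [Field K] [Field L] (e : B2Ext κ K)
    (l : L →+* AlgebraicClosure e.Ω) : e.Ω →ₐ[κ] (b2Clos e l).Ω where
  toRingHom := algebraMap e.Ω (AlgebraicClosure e.Ω)
  commutes' _ := rfl

omit [EllW E] in
private lemma b2_finiteKernel : (b2Groups E).FiniteKernel := by
  intro K L _ _ _ _ x hx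
  have hx0 : x = 0 := by
    apply Subtype.ext
    funext e
    let _ : Algebra K (AlgebraicClosure e.Ω) :=
      ((algebraMap e.Ω (AlgebraicClosure e.Ω)).comp e.i).toAlgebra
    let l : L →ₐ[K] AlgebraicClosure e.Ω := IsAlgClosed.lift
    have h1 := x.2 e ((b2Clos e (l : L →+* AlgebraicClosure e.Ω)).comp (algebraMap K L))
      (b2ClosHom e (l : L →+* AlgebraicClosure e.Ω)) fun z => (l.commutes z).symm
    have h2 : x.1 ((b2Clos e (l : L →+* AlgebraicClosure e.Ω)).comp (algebraMap K L)) = 0 :=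
      congr_fun (congr_arg Subtype.val hx) (b2Clos e (l : L →+* AlgebraicClosure e.Ω))
    rw [h2] at h1
    exact b2_inj E (b2ClosHom e (l : L →+* AlgebraicClosure e.Ω)) (h1.trans (map_zero _).symm)
  rw [hx0, smul_zero]

omit [EllW E] in
private lemma b2_galoisUnramified : (b2Groups E).GaloisUnramified :=
  fun _ _ _ _ _ _ _ _ _ => trivial

/-- The same field with an embedding of an extension. -/
private def b2With {K L : Type u} [Field K] [Field L] (e : B2Ext κ K) (h : L →+* e.Ω) :
    B2Ext κ L where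
  Ω := e.Ω
  i := h

/-- The value of a family at it. -/
private def b2Val {K L : Type u} [Field K] [Field L] (x : b2Fam E L) (e : B2Ext κ K)
    (h : L →+* e.Ω) : Pt E e.Ω := x.1 (b2With e h)

private lemma b2_torsor {K L Ω : Type u} [Field K] [Field L] [Field Ω] [Algebra K L] [Normal K L]
    (h h' : L →+* Ω) (hh : ∀ z : K, h (algebraMap K L z) = h' (algebraMap K L z)) :
    ∃ τ : L ≃ₐ[K] L, h' = h.comp (τ : L →+* L) := by
  let _ : Algebra L Ω := h.toAlgebra
  let _ : Algebra K Ω := (h.comp (algebraMap K L)).toAlgebra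
  have _ : IsScalarTower K L Ω := .of_algebraMap_eq fun _ => rfl
  let f : L →ₐ[K] Ω := { toRingHom := h', commutes' := fun z => (hh z).symm }
  refine ⟨Normal.algHomEquivAut K Ω L f, ?_⟩
  have h1 := (Normal.algHomEquivAut K Ω L).symm_apply_apply f
  ext z
  have h2 := DFunLike.congr_fun h1 z
  exact h2.symm

private lemma b2_exists_emb {K L : Type u} [Field K] [Field L] [Algebra K L] [IsGalois K L]
    (e : B2Ext κ K) : ∃ h : L →+* e.Ω, ∀ z : K, h (algebraMap K L z) = e.i z := by
  let _ : Algebra K e.Ω := e.i.toAlgebra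
  exact ⟨(IsSepClosed.lift : L →ₐ[K] e.Ω), fun z => AlgHom.commutes _ z⟩

omit [EllW E] in
private lemma b2_key {K L : Type u} [Field K] [Field L] [Algebra K L] [FiniteDimensional K L]
    [IsGalois K L] (x : b2Fam E L) (e : B2Ext κ K) (h h' : L →+* e.Ω)
    (hh : ∀ z : K, h (algebraMap K L z) = e.i z) (hh' : ∀ z : K, h' (algebraMap K L z) = e.i z) :
    ∑ σ : L ≃ₐ[K] L, b2Val E x e (h'.comp (σ : L →+* L)) =
      ∑ σ : L ≃ₐ[K] L, b2Val E x e (h.comp (σ : L →+* L)) := by
  obtain ⟨τ, hτ⟩ := b2_torsor h h' fun z => by rw [hh, hh']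
  rw [← Equiv.sum_comp (Equiv.mulLeft τ)
    (fun σ : L ≃ₐ[K] L => b2Val E x e (h.comp (σ : L →+* L)))]
  refine Finset.sum_congr rfl fun σ _ => ?_
  rw [hτ]
  rfl

omit [EllW E] in
private lemma b2_trace {K L : Type u} [Field K] [Field L] [Algebra K L] [FiniteDimensional K L]
    [IsGalois K L] (x : b2Fam E L) : ∃ y : b2Fam E K,
      b2Map E (algebraMap K L) y = ∑ σ : L ≃ₐ[K] L, b2Map E (σ : L →+* L) x := by
  choose h0 hh0 using fun e : B2Ext κ K => b2_exists_emb (L := L) e
  refine ⟨⟨fun e => ∑ σ : L ≃ₐ[K] L, b2Val E x e ((h0 e).comp (σ : L →+* L)), ?_⟩, ?_⟩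
  · intro e e' g hg
    refine (map_sum (ptMap g) _ _).trans (Eq.trans ?_ (b2_key E x e'
      ((g : e.Ω →+* e'.Ω).comp (h0 e)) (h0 e') (fun z => by
        rw [RingHom.comp_apply, hh0]; exact hg z) (hh0 e')).symm)
    refine Finset.sum_congr rfl fun σ _ => ?_
    exact x.2 (b2With e ((h0 e).comp (σ : L →+* L)))
      (b2With e' (((g : e.Ω →+* e'.Ω).comp (h0 e)).comp (σ : L →+* L))) g fun z => rfl
  · apply Subtype.ext
    funext e
    have h1 := b2_key E x (e.comp (algebraMap K L)) e.i (h0 (e.comp (algebraMap K L)))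
      (fun z => rfl) (hh0 _)
    refine h1.trans ?_
    let φ : b2Fam E L →+ Pt E e.Ω :=
      (Pi.evalAddMonoidHom (fun e : B2Ext κ L => Pt E e.Ω) e).comp (b2Fam E L).subtype
    exact (map_sum φ (fun σ : L ≃ₐ[K] L => b2Map E (σ : L →+* L) x) Finset.univ).symm

omit [EllW E] in
private lemma b2_galoisTrace : (b2Groups E).GaloisTrace := by
  intro K L _ _ _ _ _ x
  exact b2_trace E x

/-- The values of a family over the field of rational functions are `Y`. -/
private def B2Rep {F : Type u} [Field F] (x : b2Fam E (RatFunc F)) (e : B2Ext κ F)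
    (Y : Pt E e.Ω) : Prop :=
  ∀ (e' : B2Ext κ (RatFunc F)) (g : e.Ω →ₐ[κ] e'.Ω),
    (∀ z : F, e'.i (algebraMap F (RatFunc F) z) = g (e.i z)) → x.1 e' = ptMap g Y

omit [EllW E] in
private lemma b2_rep_unique {F : Type u} [Field F] {x : b2Fam E (RatFunc F)} {e : B2Ext κ F}
    {Y Y' : Pt E e.Ω} (h : B2Rep E x e Y) (h' : B2Rep E x e Y') : Y = Y' := by
  obtain ⟨f, hf⟩ := b2_exists_big e
  have h1 := h (b2Big e f) (b2BigHom e f) fun z => (hf z).symm
  have h2 := h' (b2Big e f) (b2BigHom e f) fun z => (hf z).symm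
  exact b2_inj E (b2BigHom e f) (h1.symm.trans h2)

omit [EllW E] in
private lemma b2_rep_map {F : Type u} [Field F] {x : b2Fam E (RatFunc F)} {e e' : B2Ext κ F}
    {Y : Pt E e.Ω} (h : B2Rep E x e Y) (g : e.Ω →ₐ[κ] e'.Ω) (hg : ∀ z : F, g (e.i z) = e'.i z) :
    B2Rep E x e' (ptMap g Y) := by
  intro e'' g' hg'
  rw [h e'' (g'.comp g) fun z => by rw [hg', AlgHom.comp_apply, hg]]
  exact (Affine.Point.map_map g g' Y).symm

/-- The separable closure of a field of rational functions. -/
private noncomputable def b2Sep {F F₀ : Type u} [Field F] [Field F₀] [Algebra κ F₀]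
    (h : RatFunc F →+* RatFunc F₀) : B2Ext κ (RatFunc F) where
  Ω := SeparableClosure (RatFunc F₀)
  alg := ((algebraMap (RatFunc F₀) (SeparableClosure (RatFunc F₀))).comp
    (algebraMap κ (RatFunc F₀))).toAlgebra
  sep := inferInstance
  i := (algebraMap (RatFunc F₀) (SeparableClosure (RatFunc F₀))).comp h

/-- The embedding in it. -/
private noncomputable def b2SepHom {F F₀ : Type u} [Field F] [Field F₀] [Algebra κ F₀]
    (h : RatFunc F →+* RatFunc F₀) : RatFunc F₀ →ₐ[κ] (b2Sep (κ := κ) h).Ω where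
  toRingHom := algebraMap (RatFunc F₀) (SeparableClosure (RatFunc F₀))
  commutes' _ := rfl

private lemma b2_core {F F₀ : Type u} [Field F] [Field F₀] [Algebra κ F₀] (ι : F →+* F₀)
    (x : b2Fam E (RatFunc F)) : ∃ Y₀ : Pt E F₀, ∀ (e' : B2Ext κ (RatFunc F))
      (g : F₀ →ₐ[κ] e'.Ω), (∀ z : F, e'.i (algebraMap F (RatFunc F) z) = g (ι z)) →
      (∀ p : F₀[X], p.eval₂ (g : F₀ →+* e'.Ω) (e'.i RatFunc.X) = 0 → p = 0) →
      x.1 e' = ptMap g Y₀ := by
  obtain ⟨h, ha, hX⟩ := b2_ratHom (F := F) ((algebraMap F₀ (RatFunc F₀)).comp ι)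
    RatFunc.X fun p hp => by
      have h1 : (p.map ι).eval₂ ((RingHom.id (RatFunc F₀)).comp (algebraMap F₀ (RatFunc F₀)))
          ((RingHom.id (RatFunc F₀)) RatFunc.X) = 0 := by
        rw [eval₂_map]; exact hp
      exact (Polynomial.map_eq_zero_iff ι.injective).mp (b2_transc _ _ h1)
  obtain ⟨R, hR⟩ : ∃ R : Pt E (RatFunc F₀), ptMap (b2SepHom (κ := κ) h) R = x.1 (b2Sep h) := by
    apply b2_descend
    intro a b hab hP
    have hσ : ∀ σ : SeparableClosure (RatFunc F₀) ≃ₐ[RatFunc F₀] SeparableClosure (RatFunc F₀),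
        σ a = a ∧ σ b = b := by
      intro σ
      let g : (b2Sep (κ := κ) h).Ω →ₐ[κ] (b2Sep (κ := κ) h).Ω :=
        { toRingHom := (σ : SeparableClosure (RatFunc F₀) →+* SeparableClosure (RatFunc F₀))
          commutes' := fun c => σ.commutes (algebraMap κ (RatFunc F₀) c) }
      have h1 := x.2 (b2Sep h) (b2Sep h) g fun z => σ.commutes (h z)
      rw [hP] at h1
      have h2 := Affine.Point.some.inj h1
      exact ⟨h2.1, h2.2⟩
    exact ⟨(InfiniteGalois.mem_range_algebraMap_iff_fixed (k := RatFunc F₀)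
      (K := SeparableClosure (RatFunc F₀)) a).mpr
      fun σ => (hσ σ).1,
      (InfiniteGalois.mem_range_algebraMap_iff_fixed (k := RatFunc F₀)
      (K := SeparableClosure (RatFunc F₀)) b).mpr
      fun σ => (hσ σ).2⟩
  obtain ⟨Y₀, hY₀⟩ := rat_point R
  refine ⟨Y₀, fun e' g hg hp => ?_⟩
  obtain ⟨G₀, hG, hGX⟩ := b2_ratHom (F := F₀) (g : F₀ →+* e'.Ω) (e'.i RatFunc.X) hp
  let _ : Algebra (RatFunc F₀) e'.Ω := G₀.toAlgebra
  let l : SeparableClosure (RatFunc F₀) →ₐ[RatFunc F₀] e'.Ω := IsSepClosed.lift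
  let G : (b2Sep (κ := κ) h).Ω →ₐ[κ] e'.Ω :=
    { toRingHom := (l : SeparableClosure (RatFunc F₀) →+* e'.Ω)
      commutes' := fun c => by
        have h1 : l (algebraMap (RatFunc F₀) _ (algebraMap κ (RatFunc F₀) c)) =
          G₀ (algebraMap κ (RatFunc F₀) c) := l.commutes _
        refine h1.trans ?_
        rw [IsScalarTower.algebraMap_apply κ F₀ (RatFunc F₀), hG]
        exact g.commutes c }
  have h2 : G₀.comp h = e'.i := by
    apply b2_hom_ext
    · intro z
      rw [RingHom.comp_apply, ha, RingHom.comp_apply, hG, hg]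
      rfl
    · rw [RingHom.comp_apply, hX, hGX]
  have h3 := x.2 (b2Sep h) e' G fun z => by
    have h4 : l (algebraMap (RatFunc F₀) _ (h z)) = G₀ (h z) := l.commutes _
    exact h4.trans (DFunLike.congr_fun h2 z)
  rw [← h3, ← hR, ← hY₀]
  have h6 : ((G.comp (b2SepHom h)).comp (IsScalarTower.toAlgHom κ F₀ (RatFunc F₀))) = g := by
    refine AlgHom.ext fun z => ?_
    have h5 : l (algebraMap (RatFunc F₀) _ (algebraMap F₀ (RatFunc F₀) z)) =
      G₀ (algebraMap F₀ (RatFunc F₀) z) := l.commutes _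
    exact h5.trans (hG z)
  rw [← h6]
  exact (Affine.Point.map_map _ _ _).trans (Affine.Point.map_map _ _ _)

private lemma b2_rep_of_alg {F F₀ : Type u} [Field F] [Field F₀] [Algebra κ F₀] [Algebra F F₀]
    [Algebra.IsAlgebraic F F₀] (x : b2Fam E (RatFunc F)) (e : B2Ext κ F) (incl : F₀ →ₐ[κ] e.Ω)
    (hi : ∀ z : F, incl (algebraMap F F₀ z) = e.i z) : ∃ Y, B2Rep E x e Y := by
  obtain ⟨Y₀, hY₀⟩ := b2_core E (algebraMap F F₀) x
  refine ⟨ptMap incl Y₀, fun e' g hg => ?_⟩
  rw [hY₀ e' (g.comp incl) (fun z => by rw [hg, AlgHom.comp_apply, hi]) ?_]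
  · exact (Affine.Point.map_map _ _ _).symm
  · intro p hp
    by_contra hp0
    let _ : Algebra F₀ e'.Ω := ((g.comp incl : F₀ →ₐ[κ] e'.Ω) : F₀ →+* e'.Ω).toAlgebra
    let _ : Algebra F e'.Ω := ((g : e.Ω →+* e'.Ω).comp e.i).toAlgebra
    have _ : IsScalarTower F F₀ e'.Ω := .of_algebraMap_eq fun z => by
      change g (e.i z) = g (incl (algebraMap F F₀ z))
      rw [hi]
    have h1 : IsAlgebraic F₀ (e'.i RatFunc.X) := ⟨p, hp0, hp⟩
    obtain ⟨q, hq0, hq⟩ := h1.restrictScalars F
    apply hq0
    apply b2_transc e'.i q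
    have h2 : e'.i.comp (algebraMap F (RatFunc F)) = algebraMap F e'.Ω :=
      RingHom.ext fun z => hg z
    rw [h2]
    exact hq

private lemma b2_rep_exists [Finite κ] {F : Type u} [Field F] (x : b2Fam E (RatFunc F))
    (e : B2Ext κ F) : ∃ Y, B2Rep E x e Y := by
  let _ : Algebra F e.Ω := e.i.toAlgebra
  have hκ : ∀ c : κ, algebraMap κ e.Ω c ∈ algebraicClosure F e.Ω := by
    intro c
    have _ := Fintype.ofFinite κ
    rw [mem_algebraicClosure_iff]
    refine ⟨X ^ Fintype.card κ - X, ?_, ?_⟩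
    · exact FiniteField.X_pow_card_sub_X_ne_zero F Fintype.one_lt_card
    · rw [map_sub, map_pow, aeval_X, ← map_pow, FiniteField.pow_card, sub_self]
  let j₀ : κ →+* algebraicClosure F e.Ω := (algebraMap κ e.Ω).codRestrict _ hκ
  let _ : Algebra κ (algebraicClosure F e.Ω) := j₀.toAlgebra
  let incl : algebraicClosure F e.Ω →ₐ[κ] e.Ω :=
    { toRingHom := algebraMap (algebraicClosure F e.Ω) e.Ω
      commutes' := fun _ => rfl }
  exact b2_rep_of_alg E x e incl fun _ => rfl

private lemma b2_ratUnramified [Finite κ] : (b2Groups E).RatUnramified := by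
  intro F _ x _
  choose Y hY using fun e : B2Ext κ F => b2_rep_exists E (show b2Fam E (RatFunc F) from x) e
  refine ⟨⟨fun e => Y e, ?_⟩, trivial, ?_⟩
  · intro e e' g hg
    exact b2_rep_unique E (b2_rep_map E (hY e) g hg) (hY e')
  · apply Subtype.ext
    funext e
    have h1 := hY (e.comp (algebraMap F (RatFunc F))) e (AlgHom.id κ e.Ω) fun z => rfl
    refine Eq.trans ?_ h1.symm
    change Y (e.comp (algebraMap F (RatFunc F))) = ptMap (AlgHom.id κ e.Ω) _
    generalize Y (e.comp (algebraMap F (RatFunc F))) = T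
    rcases T with _ | ⟨a, b, h⟩ <;> rfl

/-- The functor of natural families of points. -/
noncomputable def b2Fun [Finite κ] : UFun.{u, u + 1} where
  toFieldGroups := b2Groups E
  isFunctor := b2_isFunctor E
  mapsUnramified := b2_mapsUnramified E
  ratInjective := b2_ratInjective E
  ratUnramified := b2_ratUnramified E
  finiteKernel := b2_finiteKernel E
  galoisUnramified := b2_galoisUnramified E
  galoisTrace := b2_galoisTrace E

/-- The separable closure of an extension of `κ`. -/
private noncomputable def b2SepK (k : Type u) [Field k] [Algebra κ k] : B2Ext κ k where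
  Ω := SeparableClosure k
  alg := ((algebraMap k (SeparableClosure k)).comp (algebraMap κ k)).toAlgebra
  sep := inferInstance
  i := algebraMap k (SeparableClosure k)

/-- The embedding in it. -/
private noncomputable def b2SepKHom (k : Type u) [Field k] [Algebra κ k] :
    k →ₐ[κ] (b2SepK (κ := κ) k).Ω where
  toRingHom := algebraMap k (SeparableClosure k)
  commutes' _ := rfl

omit [EllW E] in
/-- The point of a family over an extension of `κ`. -/
private lemma b2_desc {k : Type u} [Field k] [Algebra κ k] (c : b2Fam E k) :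
    ∃ R : Pt E k, ∀ (e : B2Ext κ k) (g : k →ₐ[κ] e.Ω), (∀ z : k, g z = e.i z) →
      c.1 e = ptMap g R := by
  obtain ⟨R, hR⟩ : ∃ R : Pt E k, ptMap (b2SepKHom (κ := κ) k) R = c.1 (b2SepK k) := by
    apply b2_descend
    intro a b hab hP
    have hσ : ∀ σ : SeparableClosure k ≃ₐ[k] SeparableClosure k, σ a = a ∧ σ b = b := by
      intro σ
      let g : (b2SepK (κ := κ) k).Ω →ₐ[κ] (b2SepK (κ := κ) k).Ω :=
        { toRingHom := (σ : SeparableClosure k →+* SeparableClosure k)
          commutes' := fun c => σ.commutes (algebraMap κ k c) }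
      have h1 := c.2 (b2SepK k) (b2SepK k) g fun z => σ.commutes z
      rw [hP] at h1
      have h2 := Affine.Point.some.inj h1
      exact ⟨h2.1, h2.2⟩
    exact ⟨(InfiniteGalois.mem_range_algebraMap_iff_fixed (k := k)
      (K := SeparableClosure k) a).mpr fun σ => (hσ σ).1,
      (InfiniteGalois.mem_range_algebraMap_iff_fixed (k := k)
      (K := SeparableClosure k) b).mpr fun σ => (hσ σ).2⟩
  refine ⟨R, fun e g hg => ?_⟩
  let _ : Algebra k e.Ω := e.i.toAlgebra
  let l : SeparableClosure k →ₐ[k] e.Ω := IsSepClosed.lift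
  let G : (b2SepK (κ := κ) k).Ω →ₐ[κ] e.Ω :=
    { toRingHom := (l : SeparableClosure k →+* e.Ω)
      commutes' := fun c => by
        have h1 : l (algebraMap k _ (algebraMap κ k c)) = e.i (algebraMap κ k c) :=
          l.commutes _
        refine h1.trans ?_
        rw [← hg]
        exact g.commutes c }
  have h3 := c.2 (b2SepK k) e G fun z => l.commutes z
  have h4 : G.comp (b2SepKHom k) = g := AlgHom.ext fun z => (l.commutes z).trans (hg z).symm
  rw [← h3, ← hR, ← h4]
  exact Affine.Point.map_map _ _ _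

/-- The value of the family of a point. -/
private noncomputable def b2PtVal {K : Type u} [Field K] [Algebra κ K] (P : Pt E K)
    (e : B2Ext κ K) : Pt E e.Ω :=
  if h : ∀ c : κ, e.i (algebraMap κ K c) = algebraMap κ e.Ω c then
    ptMap (⟨e.i, h⟩ : K →ₐ[κ] e.Ω) P else 0

omit [EllW E] in
private lemma b2_pt_val {K : Type u} [Field K] [Algebra κ K] (P : Pt E K) (e : B2Ext κ K)
    (g : K →ₐ[κ] e.Ω) (hg : ∀ z : K, g z = e.i z) : b2PtVal E P e = ptMap g P := by
  have h : ∀ c : κ, e.i (algebraMap κ K c) = algebraMap κ e.Ω c := fun c => by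
    rw [← hg, g.commutes]
  have h1 : (⟨e.i, h⟩ : K →ₐ[κ] e.Ω) = g := AlgHom.ext fun z => (hg z).symm
  refine (dif_pos h).trans ?_
  rw [h1]

/-- The family of a point over an extension of `κ`. -/
private noncomputable def b2Pt {K : Type u} [Field K] [Algebra κ K] (P : Pt E K) : b2Fam E K :=
  ⟨b2PtVal E P, by
    intro e e' g hg
    by_cases h : ∀ c : κ, e.i (algebraMap κ K c) = algebraMap κ e.Ω c
    · have h1 : ∀ z : K, (⟨e.i, h⟩ : K →ₐ[κ] e.Ω) z = e.i z := fun _ => rfl
      rw [b2_pt_val E P e ⟨e.i, h⟩ h1, b2_pt_val E P e' (g.comp ⟨e.i, h⟩) fun z => hg z]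
      exact Affine.Point.map_map _ _ _
    · have h' : ¬ ∀ c : κ, e'.i (algebraMap κ K c) = algebraMap κ e'.Ω c := fun h' =>
        h fun c => g.injective (by
          change g (e.i (algebraMap κ K c)) = g (algebraMap κ e.Ω c)
          rw [hg, h', g.commutes])
      have h2 : b2PtVal E P e = 0 := dif_neg h
      have h3 : b2PtVal E P e' = 0 := dif_neg h'
      rw [h2, h3]
      exact map_zero _⟩

end props

/-- For a finite field `κ` and a curve `E`: a functor `A` of fields and, for each extension `K` of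
`κ` and each point over `K`, an element of the group of `K`, such that, if a multiple of the
element of `P` comes from an extension `k` of `κ` in `K`, then this multiple of `P` is a point over
`k`. -/
theorem exists_ptFun {κ : Type u} [Field κ] [Finite κ] (E : WeierstrassCurve κ) [EllW E] :
    ∃ A : UFun.{u, u + 1}, ∀ (k K : Type u) [Field k] [Field K] [Algebra κ k] [Algebra κ K]
      [Algebra k K] [IsScalarTower κ k K] (P : Pt E K), ∃ ξ ∈ A.nr K, ∀ (N : ℕ) (c : A.obj k),
        N • ξ = A.map (algebraMap k K) c → ∃ R : Pt E k,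
          ptMap (IsScalarTower.toAlgHom κ k K) R = N • P := by
  refine ⟨b2Fun E, fun k K _ _ _ _ _ _ P => ⟨b2Pt E P, trivial, fun N c hc => ?_⟩⟩
  obtain ⟨R, hR⟩ := b2_desc E (show b2Fam E k from c)
  refine ⟨R, ?_⟩
  have h1 := hR ((b2SepK (κ := κ) K).comp (algebraMap k K))
    ((b2SepKHom K).comp (IsScalarTower.toAlgHom κ k K)) fun z => rfl
  have h2 := b2_pt_val E P (b2SepK K) (b2SepKHom K) fun z => rfl
  have h3 : (N • b2Pt E P).1 (b2SepK K) = c.1 ((b2SepK (κ := κ) K).comp (algebraMap k K)) :=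
    congr_fun (congr_arg Subtype.val hc) (b2SepK K)
  have h4 : (N • b2Pt E P).1 (b2SepK K) = N • b2PtVal E P (b2SepK K) := rfl
  apply b2_inj_field E (b2SepKHom K)
  rw [map_nsmul, ← h2]
  refine Eq.trans ?_ (h1.symm.trans (h3.symm.trans h4))
  exact Affine.Point.map_map _ _ _

end UnrA
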