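import Pool.Agent.Lib.MP_859dd5_ag.SD.A6

/-!
# The field generated by a generic point
-/

namespace UnrA

universe u v w z

open Polynomial WeierstrassCurve
open scoped Classical
open UnrH3 (Pt ptX ptY Gen InCl cl mem_cl_range_iff)
open UnrH3.Ell (EllW)

/-- The field generated by the coordinates of a generic point is the function field of the
curve. -/
theorem isProd_of_gen {κ k K : Type u} [Field κ] [Field k] [Field K] [Algebra κ k] [Algebra κ K]
    [Algebra k K] [IsScalarTower κ k K] {E : WeierstrassCurve κ} {T : Pt E K}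
    (hT : Gen (IsScalarTower.toAlgHom κ k K) T) :
    ∃ X Y : Fin 1 → IntermediateField.adjoin k {ptX T, ptY T},
      IsProd (fun _ : Fin 1 => E) k (fun _ : Fin 1 => 0) X Y := by
  obtain ⟨a, ha⟩ : ∃ a, a = ptX T := ⟨_, rfl⟩
  obtain ⟨b, hb⟩ : ∃ b, b = ptY T := ⟨_, rfl⟩
  have htr : Transcendental k a := by
    intro h1
    apply hT
    change ptX T ∈ cl _
    rw [← ha]
    obtain ⟨P, hP, hPz⟩ := h1
    exact (mem_cl_range_iff _ _).mpr ⟨P, hP, hPz⟩
  have hns : (E⁄K).toAffine.Nonsingular a b := by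
    rcases T with _ | ⟨a', b', hab⟩
    · have h0 : a = 0 := ha
      rw [h0] at htr
      exact absurd isAlgebraic_zero htr
    · rw [ha, hb]
      exact hab
  rw [← ha, ← hb]
  obtain ⟨F, hF⟩ : ∃ F, F = IntermediateField.adjoin k {a, b} := ⟨_, rfl⟩
  rw [← hF]
  have h1 : a ∈ F := by
    rw [hF]; exact IntermediateField.subset_adjoin _ _ (by simp)
  have h2 : b ∈ F := by
    rw [hF]; exact IntermediateField.subset_adjoin _ _ (by simp)
  refine ⟨fun _ => ⟨a, h1⟩, fun _ => ⟨b, h2⟩, fun _ => ?_, ?_, ?_⟩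
  · let g : F →ₐ[κ] K := F.val.restrictScalars κ
    exact (E.toAffine.baseChange_nonsingular (f := g) (g : F →+* K).injective _ _).mp hns
  · apply AlgebraicIndependent.of_comp F.val
    have h3 : AlgebraicIndependent k (fun _ : Fin 1 => a) :=
      (algebraicIndependent_unique_type_iff (ι := Fin 1)).mpr htr
    exact h3
  · apply IntermediateField.map_injective F.val
    rw [IntermediateField.adjoin_map, ← AlgHom.fieldRange_eq_map,
      IntermediateField.fieldRange_val]
    refine Eq.trans ?_ hF.symm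
    congr 1
    ext z
    simp only [Set.mem_image, Set.mem_union, Set.mem_range, Set.mem_insert_iff,
      Set.mem_singleton_iff]
    constructor
    · rintro ⟨w, ⟨_, rfl⟩ | ⟨_, rfl⟩, rfl⟩
      · exact Or.inl rfl
      · exact Or.inr rfl
    · rintro (rfl | rfl)
      · exact ⟨⟨z, h1⟩, Or.inl ⟨0, rfl⟩, rfl⟩
      · exact ⟨⟨z, h2⟩, Or.inr ⟨0, rfl⟩, rfl⟩

end UnrA
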