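import Mathlib

/-!
# Transcendence bases of finitely generated extensions
-/

namespace UnrA

universe u

/-- A finitely generated extension is finite over a purely transcendental extension. -/
theorem exists_finite_over {F L : Type u} [Field F] [Field L] [Algebra F L] {S : Set L}
    (hS : S.Finite) (h : IntermediateField.adjoin F S = ⊤) :
    ∃ (s : ℕ) (v : Fin s → L), AlgebraicIndependent F v ∧
      FiniteDimensional (IntermediateField.adjoin F (Set.range v)) L := by
  have ha : Algebra.IsAlgebraic (Algebra.adjoin F S) L := by
    refine ⟨fun x => ?_⟩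
    have hx : x ∈ IntermediateField.adjoin F S := by
      rw [h]
      exact IntermediateField.mem_top
    obtain ⟨a, ha, b, hb, rfl⟩ := IntermediateField.mem_adjoin_iff_div.1 hx
    have h1 : IsAlgebraic (Algebra.adjoin F S) a :=
      isAlgebraic_algebraMap (⟨a, ha⟩ : Algebra.adjoin F S)
    have h2 : IsAlgebraic (Algebra.adjoin F S) b :=
      isAlgebraic_algebraMap (⟨b, hb⟩ : Algebra.adjoin F S)
    rw [div_eq_mul_inv]
    exact h1.mul h2.inv
  obtain ⟨t, htS, ht⟩ := exists_isTranscendenceBasis_subset (R := F) S
  have hfin : Finite t := (hS.subset htS).to_subtype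
  obtain ⟨n, ⟨e⟩⟩ := Finite.exists_equiv_fin t
  have hr : Set.range (fun i : Fin n => ((e.symm i : t) : L)) = t := by
    ext x
    constructor
    · rintro ⟨i, rfl⟩
      exact (e.symm i).2
    · intro hx
      exact ⟨e ⟨x, hx⟩, by simp⟩
  refine ⟨n, fun i => ((e.symm i : t) : L), ?_, ?_⟩
  · exact ht.1.comp e.symm e.symm.injective
  · rw [hr]
    have h3 : Algebra.IsAlgebraic (IntermediateField.adjoin F t) L := by
      have := ht.isAlgebraic_field
      rwa [Subtype.range_coe] at this
    have hSf : Finite S := hS.to_subtype
    have h4 : FiniteDimensional (IntermediateField.adjoin F t)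
        (IntermediateField.adjoin (IntermediateField.adjoin F t) S) :=
      IntermediateField.finiteDimensional_adjoin fun x _ =>
        (Algebra.IsAlgebraic.isAlgebraic x).isIntegral
    have h5 : IntermediateField.adjoin (IntermediateField.adjoin F t) S = ⊤ := by
      refine eq_top_iff.2 fun x _ => ?_
      have h6 : IntermediateField.adjoin F S ≤
          (IntermediateField.adjoin (IntermediateField.adjoin F t) S).restrictScalars F :=
        IntermediateField.adjoin_le_iff.2 (IntermediateField.subset_adjoin _ _)
      exact h6 (h ▸ IntermediateField.mem_top)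
    rw [h5] at h4
    exact Module.Finite.equiv IntermediateField.topEquiv.toLinearEquiv

end UnrA

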