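import Pool.Agent.Lib.MP_859dd5_ag.SD.Stm
import Pool.Agent.Lib.MP_859dd5_ag.GC.S1

/-!
# The structure theorem for Galois cohomology
-/

namespace GC

open UnrA UnrA.Fer UnrGal WeierstrassCurve

universe u v

section

variable {l : ℕ} [Fact l.Prime] {w i : ℕ} {K : Type u} [Field K]

lemma cls_sum {ι : Type*} (s : Finset ι) (c : ι → (Fin (i + 1) → AbsGal K) → Tw l w)
    (hc : ∀ j, c j ∈ Cocyc (AbsGal K) (Tw l w) i) :
    cls (∑ j ∈ s, c j) (sum_mem fun j _ => hc j) = ∑ j ∈ s, cls (c j) (hc j) := by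
  classical
  induction s using Finset.induction_on with
  | empty =>
    rw [Finset.sum_empty (f := fun j => cls (c j) (hc j)), cls_eq_zero_iff, Finset.sum_empty]
    exact zero_mem _
  | insert a s ha ih =>
    rw [Finset.sum_insert ha (f := fun j => cls (c j) (hc j)), ← ih, ← cls_add, cls_eq_iff,
      Finset.sum_insert ha, sub_self]
    exact zero_mem _

/-- The restriction of a class by cocycles. -/
lemma exists_res {F : Type u} [Field F] [Algebra F K] {n : ℕ} (hl : (l : F) ≠ 0)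
    {x : GalH l w (n + 1) F} (hx : x ∈ UnrH F (Tw l w) (n + 1)) :
    ∃ (b : (Fin (n + 2) → AbsGal F) → Tw l w) (b' : (Fin (n + 2) → AbsGal K) → Tw l w)
      (hb' : b' ∈ Cocyc (AbsGal K) (Tw l w) (n + 1)), IsUnrCocycle (l := l) w b ∧
        IsRes (l := l) b b' ∧ Hmap l w (n + 1) (algebraMap F K) x = cls b' hb' := by
  obtain ⟨c, hc, rfl⟩ := exists_cls x
  rw [cls_mem_unr] at hx
  refine ⟨(((twist l (emb (algebraMap F K))) ^ w : ℤ_[l]ˣ) : ℤ_[l]) • c,
    pullC l w (ext_emb (algebraMap F K)) (n + 1) c, pullC_cocyc hl (ext_emb (algebraMap F K)) hc,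
    isUnrCocycle_iff.mpr ⟨scal_cocyc _ hc, scal_unr _ hx⟩,
    isRes_iff.mpr ⟨_, ext_emb (algebraMap F K), ?_⟩, Hmap_cls hl _ hc⟩
  rw [pullC_eq]
  rfl

end

/-- The structure theorem for Galois cohomology follows from the one for functors. -/
theorem fromPoints_of {p : ℕ} [Fact p.Prime] {w n N : ℕ} {κ : Type u} [Field κ]
    {E : WeierstrassCurve κ} {k K : Type u} [Field k] [Field K] [Algebra κ K] [Algebra k K]
    [CharP k p] [CharP K p] {r : ℕ} (T : Fin r → (E⁄K).toAffine.Point)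
    (h : ∀ (l : ℕ) [Fact l.Prime] (hpl : p ≠ l),
      UnrA.FromPoints (GalU.{u} hpl w n) N k T) : UnrGal.FromPoints p w (n + 2) N k T := by
  intro l _ hl (c : (Fin (n + 3) → AbsGal K) → Tw l w) hc
  have hlk : (l : k) ≠ 0 := l_ne_zero hl.symm
  obtain ⟨hc1, hc2⟩ := isUnrCocycle_iff.mp hc
  obtain ⟨y, hy, z, hz, hyz⟩ := h l hl.symm ⟨cls c hc1, mem_gobj _⟩ (cls_mem_unr.mpr hc2)
  have hchar : ∀ j, CharP (coordField k (T j)) p := fun j =>
    charP_of_injective_ringHom (algebraMap k (coordField k (T j))).injective p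
  have hlj : ∀ j, (l : coordField k (T j)) ≠ 0 := fun j => by
    have := hchar j
    exact l_ne_zero hl.symm
  obtain ⟨b, b', hb', hb1, hb2, hb3⟩ := exists_res (K := K) hlk (x := y.1) hy
  choose β β' hβ' hβ1 hβ2 hβ3 using fun j => exists_res (K := K) (hlj j) (x := (z j).1) (hz j)
  refine ⟨b, b', β, β', hb1, hb2, hβ1, hβ2, isCoboundary_iff.mpr ?_⟩
  have h1 : N • cls c hc1 = cls b' hb' + ∑ j, cls (β' j) (hβ' j) := by
    have h2 := congrArg (galU_equiv hl.symm K) hyz
    rw [map_nsmul, map_add, map_sum] at h2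
    rw [← hb3, ← Finset.sum_congr rfl fun j _ => hβ3 j]
    exact h2
  rw [← cls_sum, ← cls_nsmul, ← cls_add, cls_eq_iff, ← sub_sub] at h1
  convert h1 using 1
  funext x
  rw [Pi.sub_apply, Pi.sub_apply, Finset.sum_apply]
  rfl

end GC
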