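import Pool.Agent.Lib.MP_859dd5_ag.EQ.Fun

/-!
# Functors with values in a larger universe
-/

namespace UnrA

universe u v w z

/-- Each functor of fields is isomorphic to one with values in a larger universe. -/
theorem exists_lift (A : UFun.{u, z}) : ∃ (B : UFun.{u, max z w})
    (e : ∀ (K : Type u) [Field K], A.obj K ≃+ B.obj K),
    (∀ (K : Type u) [Field K] (ξ : A.obj K), e K ξ ∈ B.nr K ↔ ξ ∈ A.nr K) ∧
    ∀ (K L : Type u) [Field K] [Field L] (f : K →+* L) (ξ : A.obj K),
      e L (A.map f ξ) = B.map f (e K ξ) := by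
  let B : UFun.{u, max z w} :=
    { obj := fun K _ => ULift.{w} (A.obj K)
      grp := fun K _ => inferInstance
      nr := fun K _ => (A.nr K).comap (AddEquiv.ulift : ULift.{w} (A.obj K) ≃+ A.obj K).toAddMonoidHom
      map := fun {K L} _ _ f =>
        ((AddEquiv.ulift : ULift.{w} (A.obj L) ≃+ A.obj L).symm.toAddMonoidHom.comp
          (A.map f)).comp (AddEquiv.ulift : ULift.{w} (A.obj K) ≃+ A.obj K).toAddMonoidHom
      isFunctor := by
        refine ⟨fun {K} _ x => ?_, fun {K L E} _ _ _ f g x => ?_⟩
        · exact congrArg ULift.up (A.isFunctor.1 x.down)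
        · exact congrArg ULift.up (A.isFunctor.2 f g x.down)
      mapsUnramified := fun {K L} _ _ f x hx => A.mapsUnramified f x.down hx
      ratInjective := fun K _ x hx =>
        congrArg ULift.up (A.ratInjective K x.down (congrArg ULift.down hx))
      ratUnramified := fun K _ x hx => by
        obtain ⟨y, hy, hyx⟩ := A.ratUnramified K x.down hx
        exact ⟨ULift.up y, hy, congrArg ULift.up hyx⟩
      finiteKernel := fun K L _ _ _ _ x hx =>
        congrArg ULift.up (A.finiteKernel K L x.down (congrArg ULift.down hx))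
      galoisUnramified := fun K L _ _ _ _ _ x hx => A.galoisUnramified K L x.down hx
      galoisTrace := fun K L _ _ _ _ _ x => by
        obtain ⟨y, hy⟩ := A.galoisTrace K L x.down
        refine ⟨ULift.up y, ?_⟩
        apply (AddEquiv.ulift : ULift.{w} (A.obj L) ≃+ A.obj L).injective
        rw [map_sum]
        exact hy }
  refine ⟨B, fun K _ => AddEquiv.ulift.symm, fun K _ ξ => Iff.rfl, fun K L _ _ f ξ => rfl⟩

end UnrA
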