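import Pool.Agent.Lib.MP_859dd5_ag.SD.A7
import Pool.Agent.Lib.MP_859dd5_ag.SD.B2
import Pool.Agent.Lib.MP_859dd5_ag.SD.L1
import Pool.Agent.Lib.MP_859dd5_ag.SD.G1
import Pool.Agent.Lib.MP_859dd5_ag.SD.E1
import Pool.Agent.Lib.MP_859dd5_ag.SD.E2
import Pool.Agent.Lib.MP_859dd5_ag.GC.ResA1

/-!
# The theorem on powers of supersingular elliptic curves
-/

namespace UnrA

universe u v w z

open Polynomial WeierstrassCurve UnrA.Fer
open scoped Classical
open UnrH3 (Pt FF ptX ptY ptMap Gen gpt base gx gy liftPt liftPt_base liftPt_gx liftPt_gy)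
open UnrH3.Ell (EllW)

lemma IsPower.isProd {κ k L : Type u} [Field κ] [Field k] [Field L] [Algebra κ L] [Algebra k L]
    {E : WeierstrassCurve κ} {n : ℕ} {x y : Fin n → L} (h : IsPower E k x y) :
    IsProd (fun _ : Fin 1 => E) k (fun _ : Fin n => 0) x y :=
  ⟨h.point, h.independent, h.generate⟩

/-- The field generated by the coordinates of a point. -/
lemma coordField_eq {κ k K : Type u} [Field κ] [Field k] [Field K] [Algebra κ K] [Algebra k K]
    {E : WeierstrassCurve κ} (T : Pt E K) :
    coordField k T = IntermediateField.adjoin k {ptX T, ptY T} := by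
  unfold coordField
  apply le_antisymm
  · rw [IntermediateField.adjoin_le_iff]
    rintro z ⟨x, y, h, rfl, rfl | rfl⟩
    · exact IntermediateField.subset_adjoin _ _ (Or.inl rfl)
    · exact IntermediateField.subset_adjoin _ _ (Or.inr rfl)
  · rw [IntermediateField.adjoin_le_iff]
    rcases T with _ | ⟨x, y, h⟩
    · rintro z (rfl | rfl)
      · exact zero_mem _
      · exact zero_mem _
    · rintro z (rfl | rfl)
      · exact IntermediateField.subset_adjoin _ _ ⟨_, _, h, rfl, Or.inl rfl⟩
      · exact IntermediateField.subset_adjoin _ _ ⟨_, _, h, rfl, Or.inr rfl⟩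

/-- Classes of equal subfields. -/
lemma exists_eq_field {k K : Type u} [Field k] [Field K] [Algebra k K] {A : UFun.{u, z}}
    {F F' : IntermediateField k K} (h : F' = F) {β : A.obj F} (hβ : β ∈ A.nr F) :
    ∃ β' ∈ A.nr F', A.map (algebraMap F' K) β' = A.map (algebraMap F K) β := by
  subst h
  exact ⟨β, hβ, rfl⟩

section

variable {k K K₀ : Type u} [Field k] [Field K] [Field K₀] [Algebra k K] [Algebra K₀ K]

lemma isBoundedBy_of_killsRel {A : UFun.{u, z}} {N : ℕ} (h : KillsRel A N k K) :
    IsBoundedBy A N k K₀ K :=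
  isBoundedBy_of_cst fun ξ hξ => by
    obtain ⟨y, hy, hyx⟩ := h _ (A.mapsUnramified (algebraMap K₀ K) ξ hξ)
    exact mem_cst.mpr ⟨y, hy, hyx⟩

end

section

variable {κ k K : Type u} [Field κ] [Field k] [Field K] [Algebra κ k] [Algebra κ K] [Algebra k K]
  [IsScalarTower κ k K] {E : WeierstrassCurve κ} {n N : ℕ} {T : Fin n → (E⁄K).toAffine.Point}

omit [Algebra κ k] [IsScalarTower κ k K] in
lemma FromPoints.lift (h : ∀ A : UFun.{u, max z w}, FromPoints A N k T) (A : UFun.{u, z}) :
    FromPoints A N k T := by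
  obtain ⟨B, e, he, hmap⟩ := exists_lift.{u, w, z} A
  intro ξ hξ
  obtain ⟨c, hc, β, hβ, h1⟩ := h B (e K ξ) ((he K ξ).mpr hξ)
  refine ⟨(e k).symm c, ?_, fun j => (e (coordField k (T j))).symm (β j), fun j => ?_, ?_⟩
  · rw [← he, AddEquiv.apply_symm_apply]
    exact hc
  · rw [← he, AddEquiv.apply_symm_apply]
    exact hβ j
  · apply (e K).injective
    rw [map_nsmul, h1, map_add, map_sum, hmap, AddEquiv.apply_symm_apply]
    congr 1
    refine Finset.sum_congr rfl fun j _ => ?_
    rw [hmap, AddEquiv.apply_symm_apply]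

/-- The structure theorem and the classes of the fields generated by the points. -/
lemma FromPoints.killsRel {A : UFun.{u, z}} {D : ℕ} (hT : ∀ i, (∃ t : Pt E k,
    ptMap (IsScalarTower.toAlgHom κ k K) t = T i) ∨ KillsRel A D k (coordField k (T i)))
    (h : FromPoints A N k T) : KillsRel A (N * D) k K := by
  intro ξ hξ
  obtain ⟨c, hc, β, hβ, h1⟩ := h ξ hξ
  have h2 : ∀ j, ∃ c' : KM A k, Unr c' ∧ KM.map A (algebraMap k K) c' =
      D • A.map (algebraMap (coordField k (T j)) K) (β j) := by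
    intro j
    rcases hT j with ⟨t, ht⟩ | h3
    · have h4 : ∃ c' : KM A k, Unr c' ∧ KM.map A (algebraMap k K) c' =
          A.map (algebraMap (coordField k (T j)) K) (β j) := by
        apply FromPt.of_const (κ := κ) (W := E) (t := t)
        rw [ht]
        obtain ⟨β', hβ', hβe⟩ := exists_eq_field (coordField_eq (k := k) (T j)).symm (hβ j)
        exact ⟨β', hβ', hβe⟩
      obtain ⟨c', hc', h5⟩ := h4
      exact ⟨D • c', hc'.nsmul D, by rw [map_nsmul, h5]⟩
    · obtain ⟨c', hc', h5⟩ := h3 (β j) (hβ j)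
      refine ⟨c', hc', ?_⟩
      rw [← map_nsmul, ← h5]
      exact (KM.map_map (m := A) (algebraMap k (coordField k (T j)))
        (algebraMap (coordField k (T j)) K) c').symm
  choose c' hc' hcβ using h2
  refine ⟨D • c + ∑ j, c' j, add_mem (nsmul_mem hc D) (sum_mem fun j _ => hc' j), ?_⟩
  rw [mul_comm, mul_smul, h1, map_add, map_sum, smul_add, map_nsmul, Finset.smul_sum]
  congr 1
  exact Finset.sum_congr rfl fun j _ => hcβ j

end

/-- The structure theorem. -/
theorem from_points {κ : Type u} [Field κ] [Finite κ] {E : WeierstrassCurve κ} [EllW E] {N₀ : ℕ}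
    (hN : IsNoncomm.{u} E N₀) (n d : ℕ) :
    ∃ N : ℕ, 0 < N ∧ ∀ {k K L : Type u} [Field k] [Field K] [Field L] [Algebra κ k] [Algebra κ K]
      [Algebra κ L] [Algebra k K] [Algebra k L] [Algebra K L] [IsScalarTower κ k K]
      [IsScalarTower κ k L] [IsScalarTower κ K L] [IsScalarTower k K L]
      (x y : Fin n → L), IsPower E k x y →
      ∀ (r : ℕ) (v : Fin r → L), IsFiniteOver K v → degreeOver K v = d →
      ∃ T : Fin n → (E⁄K).toAffine.Point, ∀ A : UFun.{u, z}, FromPoints A N k T := by
  obtain ⟨N, hN0, h⟩ := gen_struct.{u, z} E hN n d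
  refine ⟨N, hN0, ?_⟩
  intro k K L _ _ _ _ _ _ _ _ _ _ _ _ _ x y hxy r v hv hd
  obtain ⟨T, hT⟩ := h (k := k) (K := K) (L := L) x y hxy.isProd r v hv.independent hv.finite hd
  refine ⟨T, fun A ξ hξ => ?_⟩
  obtain ⟨c, δ, hc, hδ, h1⟩ := hT A ξ hξ
  choose hδu β hβu hβ using hδ
  choose β' hβ' hβe using fun j => exists_eq_field (coordField_eq (k := k) (T j)) (hβu j)
  refine ⟨c, hc, β', hβ', ?_⟩
  rw [h1]
  congr 1
  exact Finset.sum_congr rfl fun j _ => ((hβe j).trans (hβ j)).symm

section iso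

variable {κ k R F : Type u} [Field κ] [Field k] [Field R] [Field F] [Algebra κ k] [Algebra κ R]
  [Algebra κ F] [Algebra k R] [Algebra k F] [IsScalarTower κ k R] [IsScalarTower κ k F]
  {E : WeierstrassCurve κ}

/-- The function field of the curve. -/
lemma exists_iso {X Y : Fin 1 → R} (h : IsPower E k X Y) :
    ∃ f : FF E k ≃+* R, ∀ a, f (base E k a) = algebraMap k R a := by
  obtain ⟨P, hP⟩ : ∃ P, P = pt E (X 0) (Y 0) := ⟨_, rfl⟩
  have hg : Gen (IsScalarTower.toAlgHom κ k R) P := hP ▸ gen_pt' h.isProd 0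
  obtain ⟨φ, hφ⟩ : ∃ φ, φ = liftPt (IsScalarTower.toAlgHom κ k R) P hg := ⟨_, rfl⟩
  have fb : ∀ z : k, φ (base E k z) = algebraMap k R z := fun z => by
    rw [hφ]
    exact congrArg (fun g : k →ₐ[κ] R => g z) (liftPt_base (IsScalarTower.toAlgHom κ k R) P hg)
  have fx : φ (gx E k) = X 0 := by
    rw [hφ, liftPt_gx, hP, pt_some (h.point 0)]
    rfl
  have fy : φ (gy E k) = Y 0 := by
    rw [hφ, liftPt_gy, hP, pt_some (h.point 0)]
    rfl
  have hsurj : Function.Surjective φ := by
    intro z
    have h1 : z ∈ IntermediateField.adjoin k (Set.range X ∪ Set.range Y) := by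
      rw [h.generate]
      exact IntermediateField.mem_top
    induction h1 using IntermediateField.adjoin_induction with
    | mem w hw =>
      rcases hw with ⟨i, rfl⟩ | ⟨i, rfl⟩
      · exact ⟨gx E k, by rw [fx, Subsingleton.elim i 0]⟩
      · exact ⟨gy E k, by rw [fy, Subsingleton.elim i 0]⟩
    | algebraMap a => exact ⟨_, fb a⟩
    | add a b _ _ ha hb =>
      obtain ⟨a', rfl⟩ := ha
      obtain ⟨b', rfl⟩ := hb
      exact ⟨a' + b', map_add _ _ _⟩
    | inv a _ ha =>
      obtain ⟨a', rfl⟩ := ha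
      exact ⟨a'⁻¹, map_inv₀ _ _⟩
    | mul a b _ _ ha hb =>
      obtain ⟨a', rfl⟩ := ha
      obtain ⟨b', rfl⟩ := hb
      exact ⟨a' * b', map_mul _ _ _⟩
  exact ⟨RingEquiv.ofBijective (φ : FF E k →+* R) ⟨(φ : FF E k →+* R).injective, hsurj⟩, fb⟩

/-- All function fields of the curve are isomorphic. -/
lemma killsRel_of_isPower {A : UFun.{u, z}} {D : ℕ} {X Y : Fin 1 → R} (h : IsPower E k X Y)
    {X' Y' : Fin 1 → F} (h' : IsPower E k X' Y') (hR : KillsRel A D k R) : KillsRel A D k F := by
  obtain ⟨f, hf⟩ := exists_iso h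
  obtain ⟨g, hg⟩ := exists_iso h'
  intro ξ hξ
  obtain ⟨η, hη, h1⟩ := hR (KM.map A ((f : FF E k →+* R).comp (g.symm : F →+* FF E k)) ξ)
    (A.mapsUnramified _ ξ hξ)
  refine ⟨η, hη, ?_⟩
  have h2 := congrArg (KM.map A ((g : FF E k →+* F).comp (f.symm : R →+* FF E k))) h1
  rw [map_nsmul, KM.map_map] at h2
  have h3 : ((g : FF E k →+* F).comp (f.symm : R →+* FF E k)).comp
      ((f : FF E k →+* R).comp (g.symm : F →+* FF E k)) = RingHom.id F := by
    ext a
    simp
  have h4 : ((g : FF E k →+* F).comp (f.symm : R →+* FF E k)).comp (algebraMap k R) =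
      algebraMap k F := by
    ext a
    have h5 : f.symm (algebraMap k R a) = base E k a := by rw [← hf, RingEquiv.symm_apply_apply]
    simp only [RingHom.comp_apply, RingHom.coe_coe]
    rw [h5, hg]
  rw [h3, KM.map_id] at h2
  have h6 : KM.map A ((g : FF E k →+* F).comp (f.symm : R →+* FF E k))
      (A.map (algebraMap k R) η) = KM.map A (algebraMap k F) η := by
    rw [← h4]
    exact KM.map_map _ _ _
  rw [h6] at h2
  exact h2

end iso

/-- The field generated by a generic point. -/
lemma isPower_of_gen {κ k K : Type u} [Field κ] [Field k] [Field K] [Algebra κ k] [Algebra κ K]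
    [Algebra k K] [IsScalarTower κ k K] {E : WeierstrassCurve κ} {T : Pt E K}
    (hT : Gen (IsScalarTower.toAlgHom κ k K) T) :
    ∃ X Y : Fin 1 → coordField k T, IsPower E k X Y := by
  have h0 := coordField_eq (k := k) T
  generalize coordField k T = F at h0
  subst h0
  obtain ⟨X, Y, h⟩ := isProd_of_gen hT
  exact ⟨X, Y, h.point, h.ind, h.gen⟩

/-- If the classes of `K` come from `k`, then those of a subfield, up to a number which does not
depend on the functor. -/
lemma exists_delta_deg {κ k F K L : Type u} [Field κ] [Field k] [Field F] [Field K] [Field L]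
    [Algebra κ L] [Algebra k F] [Algebra k K] [Algebra k L] [Algebra F K] [Algebra F L]
    [Algebra K L] [IsScalarTower k F L] [IsScalarTower F K L] [IsScalarTower k F K]
    {E : WeierstrassCurve κ} {n : ℕ} {x y : Fin n → L} (h : IsPower E k x y) :
    ∃ δ : ℕ, 0 < δ ∧ ∀ (A : UFun.{u, z}) (D : ℕ), KillsRel A D k K → KillsRel A (δ * D) k F := by
  have htop : IntermediateField.adjoin F (Set.range x ∪ Set.range y) = ⊤ := by
    rw [eq_top_iff]
    intro z _
    have h1 : z ∈ IntermediateField.adjoin k (Set.range x ∪ Set.range y) := by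
      rw [h.generate]
      exact IntermediateField.mem_top
    have h2 : IntermediateField.adjoin k (Set.range x ∪ Set.range y) ≤
        (IntermediateField.adjoin F (Set.range x ∪ Set.range y)).restrictScalars k := by
      rw [IntermediateField.adjoin_le_iff]
      exact IntermediateField.subset_adjoin F _
    exact h2 h1
  obtain ⟨s, v, hv, hfin⟩ := exists_finite_over
    ((Set.finite_range x).union (Set.finite_range y)) htop
  refine ⟨Module.finrank (IntermediateField.adjoin F (Set.range v)) L, Module.finrank_pos, ?_⟩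
  intro A D hD γ hγ
  obtain ⟨c, hc, h1⟩ := hD (KM.map A (algebraMap F K) γ) (A.mapsUnramified _ γ hγ)
  obtain ⟨δ, hδ⟩ : ∃ δ, δ = Module.finrank (IntermediateField.adjoin F (Set.range v)) L := ⟨_, rfl⟩
  refine ⟨δ • c, nsmul_mem hc _, ?_⟩
  have h2 : KM.map A (algebraMap F L) (D • γ - KM.map A (algebraMap k F) c) = 0 := by
    have h3 : KM.map A (algebraMap F K) (D • γ - KM.map A (algebraMap k F) c) = 0 := by
      rw [map_sub, map_nsmul, KM.map_map, ← IsScalarTower.algebraMap_eq k F K]
      exact sub_eq_zero.mpr h1.symm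
    rw [IsScalarTower.algebraMap_eq F K L, ← KM.map_map, h3, map_zero]
  have h5 := rat_fin_ker hv h2
  rw [← hδ, smul_sub, sub_eq_zero] at h5
  rw [← hδ, mul_smul, h5]
  exact map_nsmul _ _ _

end UnrA
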