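import Pool.Agent.Lib.MP_859dd5_ag.SD.Fin

/-!
# The main theorem on powers of supersingular elliptic curves
-/

namespace UnrA

universe u v w z

open Polynomial WeierstrassCurve UnrA.Fer UnrGal
open scoped Classical
open UnrH3 (Pt FF ptX ptY ptMap Gen gpt base)
open UnrH3.Ell (EllW)

lemma FromPoints.mono {κ k K : Type u} [Field κ] [Field k] [Field K] [Algebra κ K] [Algebra k K]
    {E : WeierstrassCurve κ} {n N : ℕ} {T : Fin n → (E⁄K).toAffine.Point} {A : UFun.{u, z}} {M : ℕ}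
    (h : UnrA.FromPoints A N k T) (hM : N ∣ M) : UnrA.FromPoints A M k T := by
  obtain ⟨b, rfl⟩ := hM
  intro ξ hξ
  obtain ⟨c, hc, β, hβ, h1⟩ := h ξ hξ
  refine ⟨b • c, nsmul_mem hc b, fun j => b • β j, fun j => nsmul_mem (hβ j) b, ?_⟩
  rw [mul_comm, mul_smul, h1, smul_add, Finset.smul_sum, map_nsmul]
  congr 1
  exact Finset.sum_congr rfl fun j _ => (map_nsmul _ _ _).symm

/-- The case of constant points. -/
lemma FromPoints.killsRel_const {κ k K : Type u} [Field κ] [Field k] [Field K] [Algebra κ k]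
    [Algebra κ K] [Algebra k K] [IsScalarTower κ k K] {E : WeierstrassCurve κ} {n N : ℕ}
    {A : UFun.{u, z}} {T : Fin n → (E⁄K).toAffine.Point} (h : UnrA.FromPoints A N k T)
    (hc : HasConstantPoints E k K) : KillsRel A N k K := by
  have h1 := FromPoints.killsRel (D := 1) (fun i => Or.inl (hc (T i))) h
  rwa [mul_one] at h1

section

variable {κ : Type u} [Field κ] {E : WeierstrassCurve κ} [EllW E] {k K L : Type u} [Field k]
  [Field K] [Field L] [Algebra κ k] [Algebra κ K] [Algebra κ L] [Algebra k K] [Algebra k L]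
  [Algebra K L] [IsScalarTower κ k K] [IsScalarTower κ k L] [IsScalarTower κ K L]
  [IsScalarTower k K L] {n N : ℕ} {x y : Fin n → L}

/-- The case where the classes of the curve are known. -/
lemma FromPoints.killsRel_curve {A : UFun.{u, z}} {T : Fin n → (E⁄K).toAffine.Point}
    (h : UnrA.FromPoints A N k T) (hL : IsPower E k x y) {D : ℕ}
    (hD : UnrA.CurveDescends A D E k) : KillsRel A (N * D) k K := by
  refine FromPoints.killsRel (fun i => ?_) h
  by_cases hg : Gen (IsScalarTower.toAlgHom κ k K) (T i)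
  · obtain ⟨X, Y, hXY⟩ := isPower_of_gen hg
    exact Or.inr (hD _ X Y hXY)
  · exact Or.inl (const_of_not_gen (L := L) hL.isProd (T i) hg)

/-- The case of a point which is not constant. -/
lemma exists_delta_curve (hL : IsPower E k x y) (h : ¬ HasConstantPoints E k K) :
    ∃ δ : ℕ, 0 < δ ∧ ∀ (A : UFun.{u, z}) (D : ℕ), KillsRel A D k K →
      UnrA.CurveDescends A (δ * D) E k := by
  obtain ⟨P, hP⟩ : ∃ P : Pt E K, Gen (IsScalarTower.toAlgHom κ k K) P := by
    by_contra h1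
    push Not at h1
    exact h fun T => const_of_not_gen (L := L) hL.isProd T (h1 T)
  obtain ⟨X, Y, hXY⟩ := isPower_of_gen hP
  obtain ⟨δ, hδ, hδA⟩ := exists_delta_deg.{u, z} (F := coordField k P) (K := K) hL
  refine ⟨δ, hδ, fun A D hD R _ _ _ _ X' Y' hXY' => ?_⟩
  exact killsRel_of_isPower hXY hXY' (hδA A D hD)

end

/-- The main theorem. -/
theorem supersingular_main {κ : Type u} [Field κ] [Finite κ] {p : ℕ} [CharP κ p]
    {E : WeierstrassCurve κ} (hE : IsSupersingular E) :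
    ∃ A₀ : UFun.{u, u + 1}, ∀ n d : ℕ, ∃ N : ℕ, 0 < N ∧
      ∀ (k K L : Type u) [Field k] [Field K] [Field L] [Algebra κ k] [Algebra κ K] [Algebra κ L]
        [Algebra k K] [Algebra k L] [Algebra K L] [IsScalarTower κ k K] [IsScalarTower κ k L]
        [IsScalarTower κ K L] [IsScalarTower k K L] (x y : Fin n → L) (r : ℕ) (v : Fin r → L),
        IsPower E k x y → IsFiniteOver K v → degreeOver K v = d →
        (∃ T : Fin n → (E⁄K).toAffine.Point, (∀ A : UFun.{u, z}, UnrA.FromPoints A N k T) ∧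
          ∀ w i, 2 ≤ i → UnrGal.FromPoints p w i N k T) ∧
        (HasConstantPoints E k K → ∀ (K₀ : Type u) [Field K₀] [Algebra K₀ K],
          (∀ A : UFun.{u, z}, IsBoundedBy A N k K₀ K) ∧
            ∀ w i, 2 ≤ i → IsBounded p w i N k K₀ K) ∧
        (∀ (D : ℕ) (K₀ : Type u) [Field K₀] [Algebra K₀ K],
          (∀ A : UFun.{u, z}, UnrA.CurveDescends A D E k → IsBoundedBy A (N * D) k K₀ K) ∧
            ∀ w i, 2 ≤ i → UnrGal.CurveDescends p w i D E k → IsBounded p w i (N * D) k K₀ K) ∧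
        (¬ HasConstantPoints E k K →
          (∃ ξ ∈ A₀.nr K, ∀ (D : ℕ) (c : A₀.obj k), 0 < D →
            D • ξ ≠ A₀.map (algebraMap k K) c) ∧
          ∃ δ : ℕ, 0 < δ ∧ ∀ D : ℕ,
            (∀ A : UFun.{u, z}, KillsRel A D k K → UnrA.CurveDescends A (δ * D) E k) ∧
              ∀ w i, 2 ≤ i → Descends p w i D k K K →
                UnrGal.CurveDescends p w i (δ * D) E k) := by
  have hp : Fact p.Prime := ⟨CharP.char_is_prime κ p⟩
  have hell := hE.ell
  have hEll : EllW E := ellW_of hE.coeff_one hE.coeff_three hE.two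
  obtain ⟨N₀, hN₀⟩ := hE.noncomm
  obtain ⟨A₀, hA₀⟩ := exists_ptFun.{u} E
  refine ⟨A₀, fun n d => ?_⟩
  obtain ⟨N, hN, h1⟩ := from_points.{u, max u z} hN₀ n d
  refine ⟨N, hN, ?_⟩
  intro k K L _ _ _ _ _ _ _ _ _ _ _ _ _ x y r v hxy hv hd
  have hck : CharP k p := charP_of_injective_ringHom (algebraMap κ k).injective p
  have hcK : CharP K p := charP_of_injective_ringHom (algebraMap κ K).injective p
  obtain ⟨T, hT₀⟩ := h1 x y hxy r v hv hd
  have hT : ∀ A : UFun.{u, z}, UnrA.FromPoints A N k T := FromPoints.lift.{u, u, z} hT₀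
  have hT' : ∀ A : UFun.{u, u}, UnrA.FromPoints A N k T := FromPoints.lift.{u, z, u} hT₀
  refine ⟨⟨T, hT, fun w i hi => ?_⟩, fun hc K₀ _ _ => ⟨fun A => ?_, fun w i hi => ?_⟩,
    fun D K₀ _ _ => ⟨fun A hA => ?_, fun w i hi hD => ?_⟩, fun hc => ⟨?_, ?_⟩⟩
  · obtain ⟨j, rfl⟩ := Nat.exists_eq_add_of_le' hi
    exact GC.fromPoints_of T fun l _ hpl => hT' _
  · exact isBoundedBy_of_killsRel ((hT A).killsRel_const hc)
  · have hcK₀ : CharP K₀ p := (algebraMap K₀ K).charP (algebraMap K₀ K).injective p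
    obtain ⟨j, rfl⟩ := Nat.exists_eq_add_of_le' hi
    exact GC.isBounded_of fun l _ hpl => isBoundedBy_of_killsRel ((hT' _).killsRel_const hc)
  · exact isBoundedBy_of_killsRel ((hT A).killsRel_curve hxy hA)
  · have hcK₀ : CharP K₀ p := (algebraMap K₀ K).charP (algebraMap K₀ K).injective p
    obtain ⟨j, rfl⟩ := Nat.exists_eq_add_of_le' hi
    refine GC.isBounded_of fun l _ hpl => isBoundedBy_of_killsRel
      ((hT' _).killsRel_curve hxy fun R _ _ _ _ X Y hXY => ?_)
    have hcR : CharP R p := charP_of_injective_ringHom (algebraMap κ R).injective p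
    exact GC.descends_iff_killsRel.mp (hD R X Y hXY) l hpl
  · have hc' : ∃ P : (E⁄K).toAffine.Point, ¬ ∃ t : (E⁄k).toAffine.Point,
        Affine.Point.map (W' := E) (IsScalarTower.toAlgHom κ k K) t = P := by
      by_contra h3
      exact hc fun P => by
        by_contra h4
        exact h3 ⟨P, h4⟩
    obtain ⟨P, hP⟩ := hc'
    obtain ⟨ξ, hξ, h3⟩ := hA₀ k K P
    exact ⟨ξ, hξ, fun D c hD h4 => not_const_nsmul (L := L) hxy.isProd hP hD (h3 D c h4)⟩
  · obtain ⟨δ, hδ, h2⟩ := exists_delta_curve.{u, z} hxy hc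
    obtain ⟨δ', hδ', h2'⟩ := exists_delta_curve.{u, u} hxy hc
    refine ⟨δ * δ', Nat.mul_pos hδ hδ', fun D => ⟨fun A hA => ?_, fun w i hi hD => ?_⟩⟩
    · intro R _ _ _ _ X Y hXY ξ hξ
      obtain ⟨c, hcu, hcξ⟩ := h2 A D hA R X Y hXY ξ hξ
      refine ⟨δ' • c, nsmul_mem hcu _, ?_⟩
      rw [map_nsmul, hcξ, smul_smul]
      congr 1
      ring
    · obtain ⟨j, rfl⟩ := Nat.exists_eq_add_of_le' hi
      intro R _ _ _ _ X Y hXY
      have hcR : CharP R p := charP_of_injective_ringHom (algebraMap κ R).injective p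
      rw [GC.descends_iff_killsRel] at hD ⊢
      intro l _ hpl ξ hξ
      obtain ⟨c, hcu, hcξ⟩ := h2' _ D (hD l hpl) R X Y hXY ξ hξ
      refine ⟨δ • c, nsmul_mem hcu _, ?_⟩
      rw [map_nsmul, hcξ, smul_smul]
      congr 1
      ring

end UnrA
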