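import Pool.Agent.Lib.MP_859dd5_ag.GC.N2
import Pool.Agent.Lib.MP_859dd5_ag.GC.N3
import Pool.Agent.Lib.MP_859dd5_ag.S.FN
import Pool.Agent.Lib.MP_859dd5_ag.EQ.Twin1

/-!
# Definitions for the theorem on powers of supersingular elliptic curves
-/

namespace UnrA

universe u v w z

open Polynomial WeierstrassCurve UnrA.Fer
open scoped Classical

/-- The curve `E` is an elliptic curve `y ^ 2 = x ^ 3 + a x ^ 2 + b x + c` over the field `κ`, `2 ≠ 0`
in `κ`, and it has noncommuting endomorphisms which are defined over `κ`. -/
structure IsSupersingular {κ : Type u} [Field κ] (E : WeierstrassCurve κ) : Prop where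
  two : (2 : κ) ≠ 0
  ell : E.IsElliptic
  coeff_one : E.a₁ = 0
  coeff_three : E.a₃ = 0
  noncomm : ∃ N, IsNoncomm.{u} E N

/-- The field `L` is the function field of the power `E ^ n` over the field `k`, with generic points
`(x i, y i)` of the factors. -/
structure IsPower {κ : Type u} [Field κ] (E : WeierstrassCurve κ) (k : Type u) {L : Type u}
    [Field k] [Field L] [Algebra κ L] [Algebra k L] {n : ℕ} (x y : Fin n → L) : Prop where
  point : ∀ i, (E⁄L).toAffine.Nonsingular (x i) (y i)
  independent : AlgebraicIndependent k x
  generate : IntermediateField.adjoin k (Set.range x ∪ Set.range y) = ⊤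

/-- The subfield of `K` generated over `k` by the coordinates of the point `T`; it is `k` if `T` is
the point at infinity. -/
def coordField {κ : Type u} [Field κ] {E : WeierstrassCurve κ} (k : Type u) {K : Type u} [Field k]
    [Field K] [Algebra κ K] [Algebra k K] (T : (E⁄K).toAffine.Point) : IntermediateField k K :=
  IntermediateField.adjoin k {z | ∃ (x y : K) (h : (E⁄K).toAffine.Nonsingular x y),
    T = .some x y h ∧ (z = x ∨ z = y)}

/-- Each unramified class of `K`, multiplied by `N`, is the sum of a class which comes from an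
unramified class of `k` and of classes which come from unramified classes of the fields generated
over `k` by the coordinates of the points `T j`. -/
def FromPoints (A : UFun.{u, z}) (N : ℕ) {κ : Type u} [Field κ] {E : WeierstrassCurve κ}
    (k : Type u) {K : Type u} [Field k] [Field K] [Algebra κ K] [Algebra k K] {n : ℕ}
    (T : Fin n → (E⁄K).toAffine.Point) : Prop :=
  ∀ ξ ∈ A.nr K, ∃ c ∈ A.nr k, ∃ β : ∀ j, A.obj (coordField k (T j)),
    (∀ j, β j ∈ A.nr (coordField k (T j))) ∧
      N • ξ = A.map (algebraMap k K) c + ∑ j, A.map (algebraMap (coordField k (T j)) K) (β j)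

/-- All points of `E` over the extension `K` of `k` are points over `k`. -/
def HasConstantPoints {κ : Type u} [Field κ] (E : WeierstrassCurve κ) (k K : Type u) [Field k]
    [Field K] [Algebra κ k] [Algebra κ K] [Algebra k K] [IsScalarTower κ k K] : Prop :=
  ∀ T : (E⁄K).toAffine.Point, ∃ t : (E⁄k).toAffine.Point,
    Affine.Point.map (W' := E) (IsScalarTower.toAlgHom κ k K) t = T

/-- The unramified classes of the function field of the curve `E` over `k`, multiplied by `D`, come
from unramified classes of `k`. -/
def CurveDescends (A : UFun.{u, z}) (D : ℕ) {κ : Type u} [Field κ] (E : WeierstrassCurve κ)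
    (k : Type u) [Field k] [Algebra κ k] : Prop :=
  ∀ (R : Type u) [Field R] [Algebra κ R] [Algebra k R] [IsScalarTower κ k R] (x y : Fin 1 → R),
    IsPower E k x y → KillsRel A D k R

end UnrA

namespace UnrGal

open UnrA UnrA.Fer WeierstrassCurve

universe u

/-- For all prime numbers `l ≠ p`, each unramified class of `H^i (K, ℚ_l/ℤ_l(w))`, multiplied by
`N`, is the sum of a class which comes from an unramified class of `k` and of classes which come
from unramified classes of the fields generated over `k` by the coordinates of the points `T j`,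
where `i ≥ 1`. -/
def FromPoints (p w i N : ℕ) {κ : Type u} [Field κ] {E : WeierstrassCurve κ} (k : Type u)
    {K : Type u} [Field k] [Field K] [Algebra κ K] [Algebra k K] {n : ℕ}
    (T : Fin n → (E⁄K).toAffine.Point) : Prop :=
  ∀ (l : ℕ) [Fact l.Prime], l ≠ p → ∀ c : (Fin (i + 1) → Gal K) → QZ l, IsUnrCocycle w c →
    ∃ (b : (Fin (i + 1) → Gal k) → QZ l) (b' : (Fin (i + 1) → Gal K) → QZ l)
      (β : ∀ j, (Fin (i + 1) → Gal (coordField k (T j))) → QZ l)
      (β' : Fin n → (Fin (i + 1) → Gal K) → QZ l),
      IsUnrCocycle w b ∧ IsRes b b' ∧ (∀ j, IsUnrCocycle w (β j)) ∧ (∀ j, IsRes (β j) (β' j)) ∧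
        IsCoboundary w fun x => N • c x - b' x - ∑ j, β' j x

/-- For all prime numbers `l ≠ p`, the unramified classes of `H^i (·, ℚ_l/ℤ_l(w))` of the function
field of the curve `E` over `k`, multiplied by `D`, come from unramified classes of `k`. -/
def CurveDescends (p w i D : ℕ) {κ : Type u} [Field κ] (E : WeierstrassCurve κ) (k : Type u)
    [Field k] [Algebra κ k] : Prop :=
  ∀ (R : Type u) [Field R] [Algebra κ R] [Algebra k R] [IsScalarTower κ k R] (x y : Fin 1 → R),
    IsPower E k x y → Descends p w i D k R R

end UnrGal
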